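import Pool.Agent.Gen.F5.X12CD13m2.S000
import Pool.Agent.Gen.F5.X12CD13m2.S001
import Pool.Agent.Gen.F5.X12CD13m2.S002
import Pool.Agent.Gen.F5.X12CD13m2.S003
import Pool.Agent.Gen.F5.X12CD13m2.S004
import Pool.Agent.Gen.F5.X12CD13m2.S005
import Pool.Agent.Gen.F5.X12CD13m2.S006

set_option autoImplicit false
set_option maxRecDepth 100000

namespace Pool.Agent.Gen.F5.X12CD13m2

open Pool.Agent.Helper72.F5

def n0 : Cl (O (nat_lit 2)) (R (nat_lit 104465))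
    (p (nat_lit 0x41) (nat_lit 0) (p (nat_lit 0x8a098b090a9a) (nat_lit 0) (p (nat_lit 0x89890a88881a) (nat_lit 0) (p (nat_lit 0x2a82580000090a08098a) (nat_lit 0) (p (nat_lit 0x2a82580000088987870a) (nat_lit 0) (p (nat_lit 0xb0014) (nat_lit 1) (p (nat_lit 0xb0004) (nat_lit 0) (p (nat_lit 0x20000c) (nat_lit 0) (p (nat_lit 0xd1) (nat_lit 1) (p (nat_lit 0x109) (nat_lit 1) (p (nat_lit 0x101) (nat_lit 0) (p (nat_lit 0x119) (nat_lit 0) (p (nat_lit 0xc9) (nat_lit 0) (p (nat_lit 0x89) (nat_lit 1) (p (nat_lit 0x41) (nat_lit 0) (p (nat_lit 0x88078907089a) (nat_lit 0) (p (nat_lit 0x87870886861a) (nat_lit 0) (p (nat_lit 0x80000000070806078a) (nat_lit 0) (p (nat_lit 0x80000000068785850a) (nat_lit 0) (p (nat_lit 0x8587050682) (nat_lit 0) (p (nat_lit 0x8506848402) (nat_lit 0) (p (nat_lit 0x160014) (nat_lit 0) (p (nat_lit 0x160004) (nat_lit 0) (p (nat_lit 0x50612) (nat_lit 0) (p (nat_lit 0x40592)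 (nat_lit 0) (p (nat_lit 0x40492) (nat_lit 0) (p (nat_lit 0x30412) (nat_lit 0) (p (nat_lit 0x30212) (nat_lit 0) (p (nat_lit 0x20192) (nat_lit 0) (p (nat_lit 0x20092) (nat_lit 0) (p (nat_lit 0x10012) (nat_lit 0) pn))))))))))))))))))))))))))))))) :=
  Cl.node (nat_lit 0x111) (nat_lit 2) (by decide +kernel) (ClAll.succ (ClAll.succ ClAll.zero s67) s68)

def n1 : Cl (O (nat_lit 2)) (R (nat_lit 104465))
    (p (nat_lit 0x109) (nat_lit 1) (p (nat_lit 0x8a098b090a9a) (nat_lit 0) (p (nat_lit 0x89890a88881a) (nat_lit 0) (p (nat_lit 0x2a82580000090a08098a) (nat_lit 0) (p (nat_lit 0x2a82580000088987870a) (nat_lit 0) (p (nat_lit 0xb0014) (nat_lit 1) (p (nat_lit 0xb0004) (nat_lit 0) (p (nat_lit 0x20000c) (nat_lit 0) (p (nat_lit 0xd1) (nat_lit 1) (p (nat_lit 0xc1) (nat_lit 0) (p (nat_lit 0x101) (nat_lit 1) (p (nat_lit 0x119) (nat_lit 0) (p (nat_lit 0xc9) (nat_lit 0) (p (nat_lit 0x89) (nat_lit 1)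 (p (nat_lit 0x41) (nat_lit 0) (p (nat_lit 0x88078907089a) (nat_lit 0) (p (nat_lit 0x87870886861a) (nat_lit 0) (p (nat_lit 0x80000000070806078a) (nat_lit 0) (p (nat_lit 0x80000000068785850a) (nat_lit 0) (p (nat_lit 0x8587050682) (nat_lit 0) (p (nat_lit 0x8506848402) (nat_lit 0) (p (nat_lit 0x160014) (nat_lit 0) (p (nat_lit 0x160004) (nat_lit 0) (p (nat_lit 0x50612) (nat_lit 0) (p (nat_lit 0x40592) (nat_lit 0) (p (nat_lit 0x40492) (nat_lit 0) (p (nat_lit 0x30412) (nat_lit 0) (p (nat_lit 0x30212) (nat_lit 0) (p (nat_lit 0x20192) (nat_lit 0) (p (nat_lit 0x20092) (nat_lit 0) (p (nat_lit 0x10012) (nat_lit 0) pn))))))))))))))))))))))))))))))) :=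
  Cl.node (nat_lit 0x81) (nat_lit 2) (by decide +kernel) (ClAll.succ (ClAll.succ ClAll.zero s80) s81)

def n2 : Cl (O (nat_lit 2)) (R (nat_lit 104465))
    (p (nat_lit 0x8a098b090a9a) (nat_lit 0) (p (nat_lit 0x89890a88881a) (nat_lit 0) (p (nat_lit 0x2a82580000090a08098a) (nat_lit 0) (p (nat_lit 0x2a82580000088987870a) (nat_lit 0) (p (nat_lit 0xb0014) (nat_lit 1) (p (nat_lit 0xb0004) (nat_lit 0) (p (nat_lit 0x20000c) (nat_lit 0) (p (nat_lit 0xd1) (nat_lit 1) (p (nat_lit 0x109) (nat_lit 1) (p (nat_lit 0x101) (nat_lit 0) (p (nat_lit 0x119) (nat_lit 0) (p (nat_lit 0xc9) (nat_lit 0) (p (nat_lit 0x89) (nat_lit 1) (p (nat_lit 0x41) (nat_lit 0) (p (nat_lit 0x88078907089a) (nat_lit 0) (p (nat_lit 0x87870886861a) (nat_lit 0) (p (nat_lit 0x80000000070806078a) (nat_lit 0) (p (nat_lit 0x80000000068785850a) (nat_lit 0) (p (nat_lit 0x8587050682) (nat_lit 0) (p (nat_lit 0x8506848402) (nat_lit 0)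 (p (nat_lit 0x160014) (nat_lit 0) (p (nat_lit 0x160004) (nat_lit 0) (p (nat_lit 0x50612) (nat_lit 0) (p (nat_lit 0x40592) (nat_lit 0) (p (nat_lit 0x40492) (nat_lit 0) (p (nat_lit 0x30412) (nat_lit 0) (p (nat_lit 0x30212) (nat_lit 0) (p (nat_lit 0x20192) (nat_lit 0) (p (nat_lit 0x20092) (nat_lit 0) (p (nat_lit 0x10012) (nat_lit 0) pn)))))))))))))))))))))))))))))) :=
  Cl.node (nat_lit 0x41) (nat_lit 2) (by decide +kernel) (ClAll.succ (ClAll.succ ClAll.zero n0) s69)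

def n3 : Cl (O (nat_lit 2)) (R (nat_lit 104465))
    (p (nat_lit 0x8a098b090a9a) (nat_lit 0) (p (nat_lit 0x89890a88881a) (nat_lit 0) (p (nat_lit 0x2a82580000090a08098a) (nat_lit 0) (p (nat_lit 0x2a82580000088987870a) (nat_lit 0) (p (nat_lit 0xb0014) (nat_lit 1) (p (nat_lit 0xb0004) (nat_lit 0) (p (nat_lit 0x20000c) (nat_lit 0) (p (nat_lit 0xd1) (nat_lit 1) (p (nat_lit 0xc1) (nat_lit 0) (p (nat_lit 0x101) (nat_lit 1) (p (nat_lit 0x119) (nat_lit 0) (p (nat_lit 0xc9) (nat_lit 0) (p (nat_lit 0x89) (nat_lit 1) (p (nat_lit 0x41) (nat_lit 0) (p (nat_lit 0x88078907089a) (nat_lit 0) (p (nat_lit 0x87870886861a) (nat_lit 0) (p (nat_lit 0x80000000070806078a) (nat_lit 0) (p (nat_lit 0x80000000068785850a) (nat_lit 0) (p (nat_lit 0x8587050682) (nat_lit 0) (p (nat_lit 0x8506848402) (nat_lit 0) (p (nat_lit 0x160014) (nat_lit 0) (p (nat_lit 0x160004) (nat_lit 0) (p (nat_lit 0x50612) (nat_lit 0) (p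 (nat_lit 0x40592) (nat_lit 0) (p (nat_lit 0x40492) (nat_lit 0) (p (nat_lit 0x30412) (nat_lit 0) (p (nat_lit 0x30212) (nat_lit 0) (p (nat_lit 0x20192) (nat_lit 0) (p (nat_lit 0x20092) (nat_lit 0) (p (nat_lit 0x10012) (nat_lit 0) pn)))))))))))))))))))))))))))))) :=
  Cl.node (nat_lit 0x109) (nat_lit 2) (by decide +kernel) (ClAll.succ (ClAll.succ ClAll.zero s79) n1)

def n4 : Cl (O (nat_lit 2)) (R (nat_lit 104465))
    (p (nat_lit 0x8a098b090a9a) (nat_lit 0) (p (nat_lit 0x89890a88881a) (nat_lit 0) (p (nat_lit 0x2a82580000090a08098a) (nat_lit 0) (p (nat_lit 0x2a82580000088987870a) (nat_lit 0) (p (nat_lit 0xb0014) (nat_lit 1) (p (nat_lit 0xb0004) (nat_lit 0) (p (nat_lit 0x20000c) (nat_lit 0) (p (nat_lit 0x111) (nat_lit 1) (p (nat_lit 0x101) (nat_lit 0) (p (nat_lit 0xc1) (nat_lit 1) (p (nat_lit 0x119) (nat_lit 1) (p (nat_lit 0xc9) (nat_lit 0) (p (nat_lit 0x89) (nat_lit 1) (p (nat_lit 0x41)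 (nat_lit 0) (p (nat_lit 0x88078907089a) (nat_lit 0) (p (nat_lit 0x87870886861a) (nat_lit 0) (p (nat_lit 0x80000000070806078a) (nat_lit 0) (p (nat_lit 0x80000000068785850a) (nat_lit 0) (p (nat_lit 0x8587050682) (nat_lit 0) (p (nat_lit 0x8506848402) (nat_lit 0) (p (nat_lit 0x160014) (nat_lit 0) (p (nat_lit 0x160004) (nat_lit 0) (p (nat_lit 0x50612) (nat_lit 0) (p (nat_lit 0x40592) (nat_lit 0) (p (nat_lit 0x40492) (nat_lit 0) (p (nat_lit 0x30412) (nat_lit 0) (p (nat_lit 0x30212) (nat_lit 0) (p (nat_lit 0x20192) (nat_lit 0) (p (nat_lit 0x20092) (nat_lit 0) (p (nat_lit 0x10012) (nat_lit 0) pn)))))))))))))))))))))))))))))) :=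
  Cl.node (nat_lit 0xd1) (nat_lit 2) (by decide +kernel) (ClAll.succ (ClAll.succ ClAll.zero s95) s96)

def n5 : Cl (O (nat_lit 2)) (R (nat_lit 104465))
    (p (nat_lit 0x8a098b090a9a) (nat_lit 0) (p (nat_lit 0x89890a88881a) (nat_lit 0) (p (nat_lit 0x2a82580000090a08098a) (nat_lit 0) (p (nat_lit 0x2a82580000088987870a) (nat_lit 0) (p (nat_lit 0xb0014) (nat_lit 0) (p (nat_lit 0xb0004) (nat_lit 1) (p (nat_lit 0x20000c) (nat_lit 0) (p (nat_lit 0x89) (nat_lit 1) (p (nat_lit 0xc1) (nat_lit 1) (p (nat_lit 0x101) (nat_lit 1) (p (nat_lit 0x119) (nat_lit 0) (p (nat_lit 0xd1) (nat_lit 0) (p (nat_lit 0x81) (nat_lit 0) (p (nat_lit 0x41) (nat_lit 1) (p (nat_lit 0x88078907089a) (nat_lit 0) (p (nat_lit 0x87870886861a) (nat_lit 0) (p (nat_lit 0x80000000070806078a) (nat_lit 0) (p (nat_lit 0x80000000068785850a) (nat_lit 0) (p (nat_lit 0x8587050682) (nat_lit 0) (p (nat_lit 0x8506848402) (nat_lit 0)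 (p (nat_lit 0x160014) (nat_lit 0) (p (nat_lit 0x160004) (nat_lit 0) (p (nat_lit 0x50612) (nat_lit 0) (p (nat_lit 0x40592) (nat_lit 0) (p (nat_lit 0x40492) (nat_lit 0) (p (nat_lit 0x30412) (nat_lit 0) (p (nat_lit 0x30212) (nat_lit 0) (p (nat_lit 0x20192) (nat_lit 0) (p (nat_lit 0x20092) (nat_lit 0) (p (nat_lit 0x10012) (nat_lit 0) pn)))))))))))))))))))))))))))))) :=
  Cl.node (nat_lit 0x109) (nat_lit 2) (by decide +kernel) (ClAll.succ (ClAll.succ ClAll.zero s116) s117)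

def n6 : Cl (O (nat_lit 2)) (R (nat_lit 104465))
    (p (nat_lit 0x89) (nat_lit 0) (p (nat_lit 0x111) (nat_lit 1) (p (nat_lit 0x41) (nat_lit 0) (p (nat_lit 0xb0014) (nat_lit 0) (p (nat_lit 0xb0004) (nat_lit 0) (p (nat_lit 0x20000c) (nat_lit 0) (p (nat_lit 0xd1) (nat_lit 1) (p (nat_lit 0x109) (nat_lit 1) (p (nat_lit 0x101) (nat_lit 0) (p (nat_lit 0x119) (nat_lit 0) (p (nat_lit 0xc9) (nat_lit 0) (p (nat_lit 0x89) (nat_lit 1) (p (nat_lit 0x41) (nat_lit 0) (p (nat_lit 0x88078907089a) (nat_lit 0) (p (nat_lit 0x87870886861a) (nat_lit 0) (p (nat_lit 0x80000000070806078a) (nat_lit 0) (p (nat_lit 0x80000000068785850a) (nat_lit 0) (p (nat_lit 0x8587050682) (nat_lit 0) (p (nat_lit 0x8506848402) (nat_lit 0) (p (nat_lit 0x160014) (nat_lit 0) (p (nat_lit 0x160004) (nat_lit 0) (p (nat_lit 0x50612) (nat_lit 0) (p (nat_lit 0x40592) (nat_lit 0) (p (nat_lit 0x40492) (nat_lit 0) (p (nat_lit 0x30412)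 (nat_lit 0) (p (nat_lit 0x30212) (nat_lit 0) (p (nat_lit 0x20192) (nat_lit 0) (p (nat_lit 0x20092) (nat_lit 0) (p (nat_lit 0x10012) (nat_lit 0) pn))))))))))))))))))))))))))))) :=
  Cl.node (nat_lit 0x81) (nat_lit 2) (by decide +kernel) (ClAll.succ (ClAll.succ ClAll.zero s62) s63)

def n7 : Cl (O (nat_lit 2)) (R (nat_lit 104465))
    (p (nat_lit 0x89) (nat_lit 1) (p (nat_lit 0x111) (nat_lit 1) (p (nat_lit 0x41) (nat_lit 0) (p (nat_lit 0xb0014) (nat_lit 0) (p (nat_lit 0xb0004) (nat_lit 0) (p (nat_lit 0x20000c) (nat_lit 0) (p (nat_lit 0xd1) (nat_lit 1) (p (nat_lit 0x109) (nat_lit 1) (p (nat_lit 0x101) (nat_lit 0) (p (nat_lit 0x119) (nat_lit 0) (p (nat_lit 0xc9) (nat_lit 0) (p (nat_lit 0x89) (nat_lit 1) (p (nat_lit 0x41) (nat_lit 0) (p (nat_lit 0x88078907089a) (nat_lit 0) (p (nat_lit 0x87870886861a) (nat_lit 0) (p (nat_lit 0x80000000070806078a) (nat_lit 0) (p (nat_lit 0x80000000068785850a)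 (nat_lit 0) (p (nat_lit 0x8587050682) (nat_lit 0) (p (nat_lit 0x8506848402) (nat_lit 0) (p (nat_lit 0x160014) (nat_lit 0) (p (nat_lit 0x160004) (nat_lit 0) (p (nat_lit 0x50612) (nat_lit 0) (p (nat_lit 0x40592) (nat_lit 0) (p (nat_lit 0x40492) (nat_lit 0) (p (nat_lit 0x30412) (nat_lit 0) (p (nat_lit 0x30212) (nat_lit 0) (p (nat_lit 0x20192) (nat_lit 0) (p (nat_lit 0x20092) (nat_lit 0) (p (nat_lit 0x10012) (nat_lit 0) pn))))))))))))))))))))))))))))) :=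
  Cl.node (nat_lit 0x109) (nat_lit 2) (by decide +kernel) (ClAll.succ (ClAll.succ ClAll.zero s64) s65)

def n8 : Cl (O (nat_lit 2)) (R (nat_lit 104465))
    (p (nat_lit 0x89890a88881a) (nat_lit 0) (p (nat_lit 0x2a82580000090a08098a) (nat_lit 0) (p (nat_lit 0x2a82580000088987870a) (nat_lit 0) (p (nat_lit 0xb0014) (nat_lit 1) (p (nat_lit 0xb0004) (nat_lit 0) (p (nat_lit 0x20000c) (nat_lit 0) (p (nat_lit 0xd1) (nat_lit 1) (p (nat_lit 0x109) (nat_lit 1) (p (nat_lit 0x101) (nat_lit 0) (p (nat_lit 0x119) (nat_lit 0) (p (nat_lit 0xc9) (nat_lit 0) (p (nat_lit 0x89) (nat_lit 1) (p (nat_lit 0x41) (nat_lit 0) (p (nat_lit 0x88078907089a) (nat_lit 0) (p (nat_lit 0x87870886861a) (nat_lit 0) (p (nat_lit 0x80000000070806078a) (nat_lit 0) (p (nat_lit 0x80000000068785850a) (nat_lit 0) (p (nat_lit 0x8587050682) (nat_lit 0) (p (nat_lit 0x8506848402) (nat_lit 0) (p (nat_lit 0x160014) (nat_lit 0) (p (nat_lit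 0x160004) (nat_lit 0) (p (nat_lit 0x50612) (nat_lit 0) (p (nat_lit 0x40592) (nat_lit 0) (p (nat_lit 0x40492) (nat_lit 0) (p (nat_lit 0x30412) (nat_lit 0) (p (nat_lit 0x30212) (nat_lit 0) (p (nat_lit 0x20192) (nat_lit 0) (p (nat_lit 0x20092) (nat_lit 0) (p (nat_lit 0x10012) (nat_lit 0) pn))))))))))))))))))))))))))))) :=
  Cl.node (nat_lit 0x8a098b090a9a) (nat_lit 1) (by decide +kernel) (ClAll.succ ClAll.zero n2)

def n9 : Cl (O (nat_lit 2)) (R (nat_lit 104465))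
    (p (nat_lit 0x89890a88881a) (nat_lit 0) (p (nat_lit 0x2a82580000090a08098a) (nat_lit 0) (p (nat_lit 0x2a82580000088987870a) (nat_lit 0) (p (nat_lit 0xb0014) (nat_lit 1) (p (nat_lit 0xb0004) (nat_lit 0) (p (nat_lit 0x20000c) (nat_lit 0) (p (nat_lit 0xd1) (nat_lit 1) (p (nat_lit 0xc1) (nat_lit 0) (p (nat_lit 0x101) (nat_lit 1) (p (nat_lit 0x119) (nat_lit 0) (p (nat_lit 0xc9) (nat_lit 0) (p (nat_lit 0x89) (nat_lit 1) (p (nat_lit 0x41) (nat_lit 0) (p (nat_lit 0x88078907089a) (nat_lit 0) (p (nat_lit 0x87870886861a) (nat_lit 0) (p (nat_lit 0x80000000070806078a) (nat_lit 0) (p (nat_lit 0x80000000068785850a) (nat_lit 0) (p (nat_lit 0x8587050682) (nat_lit 0) (p (nat_lit 0x8506848402) (nat_lit 0) (p (nat_lit 0x160014) (nat_lit 0) (p (nat_lit 0x160004) (nat_lit 0) (p (nat_lit 0x50612) (nat_lit 0) (p (nat_lit 0x40592) (nat_lit 0) (p (nat_lit 0x40492) (nat_lit 0) (p (nat_lit 0x30412) (nat_lit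 0) (p (nat_lit 0x30212) (nat_lit 0) (p (nat_lit 0x20192) (nat_lit 0) (p (nat_lit 0x20092) (nat_lit 0) (p (nat_lit 0x10012) (nat_lit 0) pn))))))))))))))))))))))))))))) :=
  Cl.node (nat_lit 0x8a098b090a9a) (nat_lit 1) (by decide +kernel) (ClAll.succ ClAll.zero n3)

def n10 : Cl (O (nat_lit 2)) (R (nat_lit 104465))
    (p (nat_lit 0x89890a88881a) (nat_lit 0) (p (nat_lit 0x2a82580000090a08098a) (nat_lit 0) (p (nat_lit 0x2a82580000088987870a) (nat_lit 0) (p (nat_lit 0xb0014) (nat_lit 1) (p (nat_lit 0xb0004) (nat_lit 0) (p (nat_lit 0x20000c) (nat_lit 0) (p (nat_lit 0x111) (nat_lit 1) (p (nat_lit 0x101) (nat_lit 0) (p (nat_lit 0xc1) (nat_lit 1) (p (nat_lit 0x119) (nat_lit 1) (p (nat_lit 0xc9) (nat_lit 0) (p (nat_lit 0x89) (nat_lit 1) (p (nat_lit 0x41) (nat_lit 0) (p (nat_lit 0x88078907089a) (nat_lit 0) (p (nat_lit 0x87870886861a) (nat_lit 0) (p (nat_lit 0x80000000070806078a) (nat_lit 0)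 (p (nat_lit 0x80000000068785850a) (nat_lit 0) (p (nat_lit 0x8587050682) (nat_lit 0) (p (nat_lit 0x8506848402) (nat_lit 0) (p (nat_lit 0x160014) (nat_lit 0) (p (nat_lit 0x160004) (nat_lit 0) (p (nat_lit 0x50612) (nat_lit 0) (p (nat_lit 0x40592) (nat_lit 0) (p (nat_lit 0x40492) (nat_lit 0) (p (nat_lit 0x30412) (nat_lit 0) (p (nat_lit 0x30212) (nat_lit 0) (p (nat_lit 0x20192) (nat_lit 0) (p (nat_lit 0x20092) (nat_lit 0) (p (nat_lit 0x10012) (nat_lit 0) pn))))))))))))))))))))))))))))) :=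
  Cl.node (nat_lit 0x8a098b090a9a) (nat_lit 1) (by decide +kernel) (ClAll.succ ClAll.zero n4)

def n11 : Cl (O (nat_lit 2)) (R (nat_lit 104465))
    (p (nat_lit 0x89890a88881a) (nat_lit 0) (p (nat_lit 0x2a82580000090a08098a) (nat_lit 0) (p (nat_lit 0x2a82580000088987870a) (nat_lit 0) (p (nat_lit 0xb0014) (nat_lit 0) (p (nat_lit 0xb0004) (nat_lit 1) (p (nat_lit 0x20000c) (nat_lit 0) (p (nat_lit 0x89) (nat_lit 1) (p (nat_lit 0xc1) (nat_lit 1) (p (nat_lit 0x101) (nat_lit 1) (p (nat_lit 0x119) (nat_lit 0) (p (nat_lit 0xd1) (nat_lit 0) (p (nat_lit 0x81) (nat_lit 0) (p (nat_lit 0x41) (nat_lit 1) (p (nat_lit 0x88078907089a) (nat_lit 0) (p (nat_lit 0x87870886861a) (nat_lit 0) (p (nat_lit 0x80000000070806078a) (nat_lit 0) (p (nat_lit 0x80000000068785850a) (nat_lit 0) (p (nat_lit 0x8587050682) (nat_lit 0) (p (nat_lit 0x8506848402) (nat_lit 0) (p (nat_lit 0x160014) (nat_lit 0) (p (nat_lit 0x160004)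 (nat_lit 0) (p (nat_lit 0x50612) (nat_lit 0) (p (nat_lit 0x40592) (nat_lit 0) (p (nat_lit 0x40492) (nat_lit 0) (p (nat_lit 0x30412) (nat_lit 0) (p (nat_lit 0x30212) (nat_lit 0) (p (nat_lit 0x20192) (nat_lit 0) (p (nat_lit 0x20092) (nat_lit 0) (p (nat_lit 0x10012) (nat_lit 0) pn))))))))))))))))))))))))))))) :=
  Cl.node (nat_lit 0x8a098b090a9a) (nat_lit 1) (by decide +kernel) (ClAll.succ ClAll.zero n5)

def n12 : Cl (O (nat_lit 2)) (R (nat_lit 104465))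
    (p (nat_lit 0x111) (nat_lit 0) (p (nat_lit 0x41) (nat_lit 0) (p (nat_lit 0xb0014) (nat_lit 0) (p (nat_lit 0xb0004) (nat_lit 0) (p (nat_lit 0x20000c) (nat_lit 0) (p (nat_lit 0xd1) (nat_lit 1) (p (nat_lit 0x109) (nat_lit 1) (p (nat_lit 0x101) (nat_lit 0) (p (nat_lit 0x119) (nat_lit 0) (p (nat_lit 0xc9) (nat_lit 0) (p (nat_lit 0x89) (nat_lit 1) (p (nat_lit 0x41) (nat_lit 0) (p (nat_lit 0x88078907089a) (nat_lit 0) (p (nat_lit 0x87870886861a) (nat_lit 0) (p (nat_lit 0x80000000070806078a) (nat_lit 0) (p (nat_lit 0x80000000068785850a) (nat_lit 0) (p (nat_lit 0x8587050682) (nat_lit 0) (p (nat_lit 0x8506848402) (nat_lit 0) (p (nat_lit 0x160014) (nat_lit 0) (p (nat_lit 0x160004) (nat_lit 0) (p (nat_lit 0x50612) (nat_lit 0) (p (nat_lit 0x40592) (nat_lit 0) (p (nat_lit 0x40492) (nat_lit 0) (p (nat_lit 0x30412) (nat_lit 0) (p (nat_lit 0x30212) (nat_lit 0) (p (nat_lit 0x20192) (nat_lit 0)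 (p (nat_lit 0x20092) (nat_lit 0) (p (nat_lit 0x10012) (nat_lit 0) pn)))))))))))))))))))))))))))) :=
  Cl.node (nat_lit 0x109) (nat_lit 2) (by decide +kernel) (ClAll.succ (ClAll.succ ClAll.zero s60) s61)

def n13 : Cl (O (nat_lit 2)) (R (nat_lit 104465))
    (p (nat_lit 0x111) (nat_lit 1) (p (nat_lit 0x41) (nat_lit 0) (p (nat_lit 0xb0014) (nat_lit 0) (p (nat_lit 0xb0004) (nat_lit 0) (p (nat_lit 0x20000c) (nat_lit 0) (p (nat_lit 0xd1) (nat_lit 1) (p (nat_lit 0x109) (nat_lit 1) (p (nat_lit 0x101) (nat_lit 0) (p (nat_lit 0x119) (nat_lit 0) (p (nat_lit 0xc9) (nat_lit 0) (p (nat_lit 0x89) (nat_lit 1) (p (nat_lit 0x41) (nat_lit 0) (p (nat_lit 0x88078907089a) (nat_lit 0) (p (nat_lit 0x87870886861a) (nat_lit 0) (p (nat_lit 0x80000000070806078a) (nat_lit 0) (p (nat_lit 0x80000000068785850a) (nat_lit 0) (p (nat_lit 0x8587050682) (nat_lit 0) (p (nat_lit 0x8506848402) (nat_lit 0) (p (nat_lit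 0x160014) (nat_lit 0) (p (nat_lit 0x160004) (nat_lit 0) (p (nat_lit 0x50612) (nat_lit 0) (p (nat_lit 0x40592) (nat_lit 0) (p (nat_lit 0x40492) (nat_lit 0) (p (nat_lit 0x30412) (nat_lit 0) (p (nat_lit 0x30212) (nat_lit 0) (p (nat_lit 0x20192) (nat_lit 0) (p (nat_lit 0x20092) (nat_lit 0) (p (nat_lit 0x10012) (nat_lit 0) pn)))))))))))))))))))))))))))) :=
  Cl.node (nat_lit 0x89) (nat_lit 2) (by decide +kernel) (ClAll.succ (ClAll.succ ClAll.zero n6) n7)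

def n14 : Cl (O (nat_lit 2)) (R (nat_lit 104465))
    (p (nat_lit 0x2a82580000090a08098a) (nat_lit 0) (p (nat_lit 0x2a82580000088987870a) (nat_lit 0) (p (nat_lit 0xb0014) (nat_lit 1) (p (nat_lit 0xb0004) (nat_lit 0) (p (nat_lit 0x20000c) (nat_lit 0) (p (nat_lit 0xd1) (nat_lit 1) (p (nat_lit 0x109) (nat_lit 1) (p (nat_lit 0x101) (nat_lit 0) (p (nat_lit 0x119) (nat_lit 0) (p (nat_lit 0xc9) (nat_lit 0) (p (nat_lit 0x89) (nat_lit 1) (p (nat_lit 0x41) (nat_lit 0) (p (nat_lit 0x88078907089a) (nat_lit 0) (p (nat_lit 0x87870886861a) (nat_lit 0) (p (nat_lit 0x80000000070806078a) (nat_lit 0) (p (nat_lit 0x80000000068785850a) (nat_lit 0) (p (nat_lit 0x8587050682) (nat_lit 0) (p (nat_lit 0x8506848402) (nat_lit 0) (p (nat_lit 0x160014) (nat_lit 0) (p (nat_lit 0x160004) (nat_lit 0) (p (nat_lit 0x50612) (nat_lit 0) (p (nat_lit 0x40592) (nat_lit 0) (p (nat_lit 0x40492) (nat_lit 0) (p (nat_lit 0x30412)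 (nat_lit 0) (p (nat_lit 0x30212) (nat_lit 0) (p (nat_lit 0x20192) (nat_lit 0) (p (nat_lit 0x20092) (nat_lit 0) (p (nat_lit 0x10012) (nat_lit 0) pn)))))))))))))))))))))))))))) :=
  Cl.node (nat_lit 0x89890a88881a) (nat_lit 1) (by decide +kernel) (ClAll.succ ClAll.zero n8)

def n15 : Cl (O (nat_lit 2)) (R (nat_lit 104465))
    (p (nat_lit 0x2a82580000090a08098a) (nat_lit 0) (p (nat_lit 0x2a82580000088987870a) (nat_lit 0) (p (nat_lit 0xb0014) (nat_lit 1) (p (nat_lit 0xb0004) (nat_lit 0) (p (nat_lit 0x20000c) (nat_lit 0) (p (nat_lit 0xd1) (nat_lit 1) (p (nat_lit 0xc1) (nat_lit 0) (p (nat_lit 0x101) (nat_lit 1) (p (nat_lit 0x119) (nat_lit 0) (p (nat_lit 0xc9) (nat_lit 0) (p (nat_lit 0x89) (nat_lit 1) (p (nat_lit 0x41) (nat_lit 0) (p (nat_lit 0x88078907089a) (nat_lit 0) (p (nat_lit 0x87870886861a) (nat_lit 0) (p (nat_lit 0x80000000070806078a) (nat_lit 0) (p (nat_lit 0x80000000068785850a)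 (nat_lit 0) (p (nat_lit 0x8587050682) (nat_lit 0) (p (nat_lit 0x8506848402) (nat_lit 0) (p (nat_lit 0x160014) (nat_lit 0) (p (nat_lit 0x160004) (nat_lit 0) (p (nat_lit 0x50612) (nat_lit 0) (p (nat_lit 0x40592) (nat_lit 0) (p (nat_lit 0x40492) (nat_lit 0) (p (nat_lit 0x30412) (nat_lit 0) (p (nat_lit 0x30212) (nat_lit 0) (p (nat_lit 0x20192) (nat_lit 0) (p (nat_lit 0x20092) (nat_lit 0) (p (nat_lit 0x10012) (nat_lit 0) pn)))))))))))))))))))))))))))) :=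
  Cl.node (nat_lit 0x89890a88881a) (nat_lit 1) (by decide +kernel) (ClAll.succ ClAll.zero n9)

def n16 : Cl (O (nat_lit 2)) (R (nat_lit 104465))
    (p (nat_lit 0x2a82580000090a08098a) (nat_lit 0) (p (nat_lit 0x2a82580000088987870a) (nat_lit 0) (p (nat_lit 0xb0014) (nat_lit 1) (p (nat_lit 0xb0004) (nat_lit 0) (p (nat_lit 0x20000c) (nat_lit 0) (p (nat_lit 0x111) (nat_lit 1) (p (nat_lit 0x101) (nat_lit 0) (p (nat_lit 0xc1) (nat_lit 1) (p (nat_lit 0x119) (nat_lit 1) (p (nat_lit 0xc9) (nat_lit 0) (p (nat_lit 0x89) (nat_lit 1) (p (nat_lit 0x41) (nat_lit 0) (p (nat_lit 0x88078907089a) (nat_lit 0) (p (nat_lit 0x87870886861a) (nat_lit 0) (p (nat_lit 0x80000000070806078a) (nat_lit 0) (p (nat_lit 0x80000000068785850a) (nat_lit 0) (p (nat_lit 0x8587050682) (nat_lit 0) (p (nat_lit 0x8506848402) (nat_lit 0) (p (nat_lit 0x160014) (nat_lit 0) (p (nat_lit 0x160004) (nat_lit 0) (p (nat_lit 0x50612)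 (nat_lit 0) (p (nat_lit 0x40592) (nat_lit 0) (p (nat_lit 0x40492) (nat_lit 0) (p (nat_lit 0x30412) (nat_lit 0) (p (nat_lit 0x30212) (nat_lit 0) (p (nat_lit 0x20192) (nat_lit 0) (p (nat_lit 0x20092) (nat_lit 0) (p (nat_lit 0x10012) (nat_lit 0) pn)))))))))))))))))))))))))))) :=
  Cl.node (nat_lit 0x89890a88881a) (nat_lit 1) (by decide +kernel) (ClAll.succ ClAll.zero n10)

def n17 : Cl (O (nat_lit 2)) (R (nat_lit 104465))
    (p (nat_lit 0x2a82580000090a08098a) (nat_lit 0) (p (nat_lit 0x2a82580000088987870a) (nat_lit 0) (p (nat_lit 0xb0014) (nat_lit 0) (p (nat_lit 0xb0004) (nat_lit 1) (p (nat_lit 0x20000c) (nat_lit 0) (p (nat_lit 0x89) (nat_lit 1) (p (nat_lit 0xc1) (nat_lit 1) (p (nat_lit 0x101) (nat_lit 1) (p (nat_lit 0x119) (nat_lit 0) (p (nat_lit 0xd1) (nat_lit 0) (p (nat_lit 0x81) (nat_lit 0) (p (nat_lit 0x41) (nat_lit 1) (p (nat_lit 0x88078907089a) (nat_lit 0) (p (nat_lit 0x87870886861a)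 (nat_lit 0) (p (nat_lit 0x80000000070806078a) (nat_lit 0) (p (nat_lit 0x80000000068785850a) (nat_lit 0) (p (nat_lit 0x8587050682) (nat_lit 0) (p (nat_lit 0x8506848402) (nat_lit 0) (p (nat_lit 0x160014) (nat_lit 0) (p (nat_lit 0x160004) (nat_lit 0) (p (nat_lit 0x50612) (nat_lit 0) (p (nat_lit 0x40592) (nat_lit 0) (p (nat_lit 0x40492) (nat_lit 0) (p (nat_lit 0x30412) (nat_lit 0) (p (nat_lit 0x30212) (nat_lit 0) (p (nat_lit 0x20192) (nat_lit 0) (p (nat_lit 0x20092) (nat_lit 0) (p (nat_lit 0x10012) (nat_lit 0) pn)))))))))))))))))))))))))))) :=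
  Cl.node (nat_lit 0x89890a88881a) (nat_lit 1) (by decide +kernel) (ClAll.succ ClAll.zero n11)

def n18 : Cl (O (nat_lit 2)) (R (nat_lit 104465))
    (p (nat_lit 0xb0014) (nat_lit 0) (p (nat_lit 0xb0004) (nat_lit 0) (p (nat_lit 0x111) (nat_lit 0) (p (nat_lit 0x20000c) (nat_lit 0) (p (nat_lit 0xc9) (nat_lit 1) (p (nat_lit 0x81) (nat_lit 0) (p (nat_lit 0x101) (nat_lit 1) (p (nat_lit 0x119) (nat_lit 0) (p (nat_lit 0xd1) (nat_lit 0) (p (nat_lit 0x89) (nat_lit 0) (p (nat_lit 0x41) (nat_lit 0) (p (nat_lit 0x88078907089a) (nat_lit 0) (p (nat_lit 0x87870886861a) (nat_lit 0) (p (nat_lit 0x80000000070806078a) (nat_lit 0) (p (nat_lit 0x80000000068785850a) (nat_lit 0) (p (nat_lit 0x8587050682) (nat_lit 0) (p (nat_lit 0x8506848402) (nat_lit 0) (p (nat_lit 0x160014) (nat_lit 0) (p (nat_lit 0x160004) (nat_lit 0) (p (nat_lit 0x50612) (nat_lit 0) (p (nat_lit 0x40592) (nat_lit 0) (p (nat_lit 0x40492)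 (nat_lit 0) (p (nat_lit 0x30412) (nat_lit 0) (p (nat_lit 0x30212) (nat_lit 0) (p (nat_lit 0x20192) (nat_lit 0) (p (nat_lit 0x20092) (nat_lit 0) (p (nat_lit 0x10012) (nat_lit 0) pn))))))))))))))))))))))))))) :=
  Cl.node (nat_lit 0x109) (nat_lit 2) (by decide +kernel) (ClAll.succ (ClAll.succ ClAll.zero s7) s8)

def n19 : Cl (O (nat_lit 2)) (R (nat_lit 104465))
    (p (nat_lit 0xb0014) (nat_lit 0) (p (nat_lit 0xb0004) (nat_lit 0) (p (nat_lit 0x119) (nat_lit 0) (p (nat_lit 0x20000c) (nat_lit 0) (p (nat_lit 0xc1) (nat_lit 0) (p (nat_lit 0x81) (nat_lit 1) (p (nat_lit 0x101) (nat_lit 1) (p (nat_lit 0x111) (nat_lit 0) (p (nat_lit 0xd1) (nat_lit 1) (p (nat_lit 0x89) (nat_lit 0) (p (nat_lit 0x41) (nat_lit 0) (p (nat_lit 0x88078907089a) (nat_lit 0) (p (nat_lit 0x87870886861a) (nat_lit 0) (p (nat_lit 0x80000000070806078a) (nat_lit 0) (p (nat_lit 0x80000000068785850a) (nat_lit 0) (p (nat_lit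 0x8587050682) (nat_lit 0) (p (nat_lit 0x8506848402) (nat_lit 0) (p (nat_lit 0x160014) (nat_lit 0) (p (nat_lit 0x160004) (nat_lit 0) (p (nat_lit 0x50612) (nat_lit 0) (p (nat_lit 0x40592) (nat_lit 0) (p (nat_lit 0x40492) (nat_lit 0) (p (nat_lit 0x30412) (nat_lit 0) (p (nat_lit 0x30212) (nat_lit 0) (p (nat_lit 0x20192) (nat_lit 0) (p (nat_lit 0x20092) (nat_lit 0) (p (nat_lit 0x10012) (nat_lit 0) pn))))))))))))))))))))))))))) :=
  Cl.node (nat_lit 0x109) (nat_lit 2) (by decide +kernel) (ClAll.succ (ClAll.succ ClAll.zero s38) s39)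

def n20 : Cl (O (nat_lit 2)) (R (nat_lit 104465))
    (p (nat_lit 0x41) (nat_lit 0) (p (nat_lit 0xb0014) (nat_lit 0) (p (nat_lit 0xb0004) (nat_lit 0) (p (nat_lit 0x20000c) (nat_lit 0) (p (nat_lit 0xd1) (nat_lit 0) (p (nat_lit 0x109) (nat_lit 1) (p (nat_lit 0x101) (nat_lit 0) (p (nat_lit 0x119) (nat_lit 0) (p (nat_lit 0xc9) (nat_lit 0) (p (nat_lit 0x89) (nat_lit 1) (p (nat_lit 0x41) (nat_lit 0) (p (nat_lit 0x88078907089a) (nat_lit 0) (p (nat_lit 0x87870886861a) (nat_lit 0) (p (nat_lit 0x80000000070806078a) (nat_lit 0) (p (nat_lit 0x80000000068785850a) (nat_lit 0) (p (nat_lit 0x8587050682) (nat_lit 0) (p (nat_lit 0x8506848402) (nat_lit 0) (p (nat_lit 0x160014) (nat_lit 0) (p (nat_lit 0x160004) (nat_lit 0) (p (nat_lit 0x50612) (nat_lit 0) (p (nat_lit 0x40592) (nat_lit 0) (p (nat_lit 0x40492) (nat_lit 0) (p (nat_lit 0x30412) (nat_lit 0) (p (nat_lit 0x30212) (nat_lit 0) (p (nat_lit 0x20192)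 (nat_lit 0) (p (nat_lit 0x20092) (nat_lit 0) (p (nat_lit 0x10012) (nat_lit 0) pn))))))))))))))))))))))))))) :=
  Cl.node (nat_lit 0xc9) (nat_lit 2) (by decide +kernel) (ClAll.succ (ClAll.succ ClAll.zero s54) s55)

def n21 : Cl (O (nat_lit 2)) (R (nat_lit 104465))
    (p (nat_lit 0x41) (nat_lit 0) (p (nat_lit 0xb0014) (nat_lit 0) (p (nat_lit 0xb0004) (nat_lit 0) (p (nat_lit 0x20000c) (nat_lit 0) (p (nat_lit 0xd1) (nat_lit 1) (p (nat_lit 0x109) (nat_lit 1) (p (nat_lit 0x101) (nat_lit 0) (p (nat_lit 0x119) (nat_lit 0) (p (nat_lit 0xc9) (nat_lit 0) (p (nat_lit 0x89) (nat_lit 1) (p (nat_lit 0x41) (nat_lit 0) (p (nat_lit 0x88078907089a) (nat_lit 0) (p (nat_lit 0x87870886861a) (nat_lit 0) (p (nat_lit 0x80000000070806078a) (nat_lit 0) (p (nat_lit 0x80000000068785850a) (nat_lit 0) (p (nat_lit 0x8587050682) (nat_lit 0) (p (nat_lit 0x8506848402) (nat_lit 0) (p (nat_lit 0x160014) (nat_lit 0)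 (p (nat_lit 0x160004) (nat_lit 0) (p (nat_lit 0x50612) (nat_lit 0) (p (nat_lit 0x40592) (nat_lit 0) (p (nat_lit 0x40492) (nat_lit 0) (p (nat_lit 0x30412) (nat_lit 0) (p (nat_lit 0x30212) (nat_lit 0) (p (nat_lit 0x20192) (nat_lit 0) (p (nat_lit 0x20092) (nat_lit 0) (p (nat_lit 0x10012) (nat_lit 0) pn))))))))))))))))))))))))))) :=
  Cl.node (nat_lit 0x111) (nat_lit 2) (by decide +kernel) (ClAll.succ (ClAll.succ ClAll.zero n12) n13)

def n22 : Cl (O (nat_lit 2)) (R (nat_lit 104465))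
    (p (nat_lit 0x2a82580000088987870a) (nat_lit 0) (p (nat_lit 0xb0014) (nat_lit 1) (p (nat_lit 0xb0004) (nat_lit 0) (p (nat_lit 0x20000c) (nat_lit 0) (p (nat_lit 0xd1) (nat_lit 1) (p (nat_lit 0x109) (nat_lit 1) (p (nat_lit 0x101) (nat_lit 0) (p (nat_lit 0x119) (nat_lit 0) (p (nat_lit 0xc9) (nat_lit 0) (p (nat_lit 0x89) (nat_lit 1) (p (nat_lit 0x41) (nat_lit 0) (p (nat_lit 0x88078907089a) (nat_lit 0) (p (nat_lit 0x87870886861a) (nat_lit 0) (p (nat_lit 0x80000000070806078a) (nat_lit 0) (p (nat_lit 0x80000000068785850a) (nat_lit 0) (p (nat_lit 0x8587050682) (nat_lit 0) (p (nat_lit 0x8506848402) (nat_lit 0) (p (nat_lit 0x160014) (nat_lit 0) (p (nat_lit 0x160004) (nat_lit 0) (p (nat_lit 0x50612) (nat_lit 0) (p (nat_lit 0x40592) (nat_lit 0) (p (nat_lit 0x40492) (nat_lit 0) (p (nat_lit 0x30412) (nat_lit 0) (p (nat_lit 0x30212) (nat_lit 0) (p (nat_lit 0x20192) (nat_lit 0) (p (nat_lit 0x20092)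 (nat_lit 0) (p (nat_lit 0x10012) (nat_lit 0) pn))))))))))))))))))))))))))) :=
  Cl.node (nat_lit 0x2a82580000090a08098a) (nat_lit 1) (by decide +kernel) (ClAll.succ ClAll.zero n14)

def n23 : Cl (O (nat_lit 2)) (R (nat_lit 104465))
    (p (nat_lit 0x109) (nat_lit 1) (p (nat_lit 0xb0014) (nat_lit 0) (p (nat_lit 0xb0004) (nat_lit 0) (p (nat_lit 0x20000c) (nat_lit 0) (p (nat_lit 0xd1) (nat_lit 1) (p (nat_lit 0xc1) (nat_lit 0) (p (nat_lit 0x101) (nat_lit 1) (p (nat_lit 0x119) (nat_lit 0) (p (nat_lit 0xc9) (nat_lit 0) (p (nat_lit 0x89) (nat_lit 1) (p (nat_lit 0x41) (nat_lit 0) (p (nat_lit 0x88078907089a) (nat_lit 0) (p (nat_lit 0x87870886861a) (nat_lit 0) (p (nat_lit 0x80000000070806078a) (nat_lit 0) (p (nat_lit 0x80000000068785850a) (nat_lit 0) (p (nat_lit 0x8587050682) (nat_lit 0) (p (nat_lit 0x8506848402) (nat_lit 0) (p (nat_lit 0x160014) (nat_lit 0) (p (nat_lit 0x160004) (nat_lit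 0) (p (nat_lit 0x50612) (nat_lit 0) (p (nat_lit 0x40592) (nat_lit 0) (p (nat_lit 0x40492) (nat_lit 0) (p (nat_lit 0x30412) (nat_lit 0) (p (nat_lit 0x30212) (nat_lit 0) (p (nat_lit 0x20192) (nat_lit 0) (p (nat_lit 0x20092) (nat_lit 0) (p (nat_lit 0x10012) (nat_lit 0) pn))))))))))))))))))))))))))) :=
  Cl.node (nat_lit 0x81) (nat_lit 2) (by decide +kernel) (ClAll.succ (ClAll.succ ClAll.zero s77) s78)

def n24 : Cl (O (nat_lit 2)) (R (nat_lit 104465))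
    (p (nat_lit 0x2a82580000088987870a) (nat_lit 0) (p (nat_lit 0xb0014) (nat_lit 1) (p (nat_lit 0xb0004) (nat_lit 0) (p (nat_lit 0x20000c) (nat_lit 0) (p (nat_lit 0xd1) (nat_lit 1) (p (nat_lit 0xc1) (nat_lit 0) (p (nat_lit 0x101) (nat_lit 1) (p (nat_lit 0x119) (nat_lit 0) (p (nat_lit 0xc9) (nat_lit 0) (p (nat_lit 0x89) (nat_lit 1) (p (nat_lit 0x41) (nat_lit 0) (p (nat_lit 0x88078907089a) (nat_lit 0) (p (nat_lit 0x87870886861a) (nat_lit 0) (p (nat_lit 0x80000000070806078a) (nat_lit 0) (p (nat_lit 0x80000000068785850a) (nat_lit 0) (p (nat_lit 0x8587050682) (nat_lit 0) (p (nat_lit 0x8506848402) (nat_lit 0) (p (nat_lit 0x160014) (nat_lit 0) (p (nat_lit 0x160004) (nat_lit 0) (p (nat_lit 0x50612) (nat_lit 0) (p (nat_lit 0x40592) (nat_lit 0) (p (nat_lit 0x40492) (nat_lit 0) (p (nat_lit 0x30412) (nat_lit 0) (p (nat_lit 0x30212) (nat_lit 0) (p (nat_lit 0x20192) (nat_lit 0) (p (nat_lit 0x20092)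 (nat_lit 0) (p (nat_lit 0x10012) (nat_lit 0) pn))))))))))))))))))))))))))) :=
  Cl.node (nat_lit 0x2a82580000090a08098a) (nat_lit 1) (by decide +kernel) (ClAll.succ ClAll.zero n15)

def n25 : Cl (O (nat_lit 2)) (R (nat_lit 104465))
    (p (nat_lit 0x2a82580000088987870a) (nat_lit 0) (p (nat_lit 0xb0014) (nat_lit 1) (p (nat_lit 0xb0004) (nat_lit 0) (p (nat_lit 0x20000c) (nat_lit 0) (p (nat_lit 0x111) (nat_lit 1) (p (nat_lit 0x101) (nat_lit 0) (p (nat_lit 0xc1) (nat_lit 1) (p (nat_lit 0x119) (nat_lit 1) (p (nat_lit 0xc9) (nat_lit 0) (p (nat_lit 0x89) (nat_lit 1) (p (nat_lit 0x41) (nat_lit 0) (p (nat_lit 0x88078907089a) (nat_lit 0) (p (nat_lit 0x87870886861a) (nat_lit 0) (p (nat_lit 0x80000000070806078a) (nat_lit 0) (p (nat_lit 0x80000000068785850a) (nat_lit 0) (p (nat_lit 0x8587050682) (nat_lit 0) (p (nat_lit 0x8506848402) (nat_lit 0) (p (nat_lit 0x160014) (nat_lit 0) (p (nat_lit 0x160004)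 (nat_lit 0) (p (nat_lit 0x50612) (nat_lit 0) (p (nat_lit 0x40592) (nat_lit 0) (p (nat_lit 0x40492) (nat_lit 0) (p (nat_lit 0x30412) (nat_lit 0) (p (nat_lit 0x30212) (nat_lit 0) (p (nat_lit 0x20192) (nat_lit 0) (p (nat_lit 0x20092) (nat_lit 0) (p (nat_lit 0x10012) (nat_lit 0) pn))))))))))))))))))))))))))) :=
  Cl.node (nat_lit 0x2a82580000090a08098a) (nat_lit 1) (by decide +kernel) (ClAll.succ ClAll.zero n16)

def n26 : Cl (O (nat_lit 2)) (R (nat_lit 104465))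
    (p (nat_lit 0x2a82580000088987870a) (nat_lit 0) (p (nat_lit 0xb0014) (nat_lit 0) (p (nat_lit 0xb0004) (nat_lit 1) (p (nat_lit 0x20000c) (nat_lit 0) (p (nat_lit 0x89) (nat_lit 1) (p (nat_lit 0xc1) (nat_lit 1) (p (nat_lit 0x101) (nat_lit 1) (p (nat_lit 0x119) (nat_lit 0) (p (nat_lit 0xd1) (nat_lit 0) (p (nat_lit 0x81) (nat_lit 0) (p (nat_lit 0x41) (nat_lit 1) (p (nat_lit 0x88078907089a) (nat_lit 0) (p (nat_lit 0x87870886861a) (nat_lit 0) (p (nat_lit 0x80000000070806078a) (nat_lit 0) (p (nat_lit 0x80000000068785850a) (nat_lit 0) (p (nat_lit 0x8587050682) (nat_lit 0) (p (nat_lit 0x8506848402) (nat_lit 0) (p (nat_lit 0x160014) (nat_lit 0) (p (nat_lit 0x160004) (nat_lit 0) (p (nat_lit 0x50612) (nat_lit 0) (p (nat_lit 0x40592) (nat_lit 0) (p (nat_lit 0x40492) (nat_lit 0) (p (nat_lit 0x30412) (nat_lit 0) (p (nat_lit 0x30212) (nat_lit 0) (p (nat_lit 0x20192) (nat_lit 0) (p (nat_lit 0x20092)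 (nat_lit 0) (p (nat_lit 0x10012) (nat_lit 0) pn))))))))))))))))))))))))))) :=
  Cl.node (nat_lit 0x2a82580000090a08098a) (nat_lit 1) (by decide +kernel) (ClAll.succ ClAll.zero n17)

def n27 : Cl (O (nat_lit 2)) (R (nat_lit 104465))
    (p (nat_lit 0xb0004) (nat_lit 0) (p (nat_lit 0x111) (nat_lit 0) (p (nat_lit 0x20000c) (nat_lit 0) (p (nat_lit 0xc9) (nat_lit 1) (p (nat_lit 0x81) (nat_lit 0) (p (nat_lit 0x101) (nat_lit 1) (p (nat_lit 0x119) (nat_lit 0) (p (nat_lit 0xd1) (nat_lit 0) (p (nat_lit 0x89) (nat_lit 0) (p (nat_lit 0x41) (nat_lit 0) (p (nat_lit 0x88078907089a) (nat_lit 0) (p (nat_lit 0x87870886861a) (nat_lit 0) (p (nat_lit 0x80000000070806078a) (nat_lit 0) (p (nat_lit 0x80000000068785850a) (nat_lit 0) (p (nat_lit 0x8587050682) (nat_lit 0) (p (nat_lit 0x8506848402) (nat_lit 0) (p (nat_lit 0x160014) (nat_lit 0) (p (nat_lit 0x160004) (nat_lit 0) (p (nat_lit 0x50612) (nat_lit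 0) (p (nat_lit 0x40592) (nat_lit 0) (p (nat_lit 0x40492) (nat_lit 0) (p (nat_lit 0x30412) (nat_lit 0) (p (nat_lit 0x30212) (nat_lit 0) (p (nat_lit 0x20192) (nat_lit 0) (p (nat_lit 0x20092) (nat_lit 0) (p (nat_lit 0x10012) (nat_lit 0) pn)))))))))))))))))))))))))) :=
  Cl.node (nat_lit 0xb0014) (nat_lit 2) (by decide +kernel) (ClAll.succ (ClAll.succ ClAll.zero n18) s9)

def n28 : Cl (O (nat_lit 2)) (R (nat_lit 104465))
    (p (nat_lit 0xb0004) (nat_lit 0) (p (nat_lit 0x20000c) (nat_lit 0) (p (nat_lit 0xc9) (nat_lit 1) (p (nat_lit 0xc1) (nat_lit 0) (p (nat_lit 0x81) (nat_lit 1) (p (nat_lit 0x101) (nat_lit 1) (p (nat_lit 0x119) (nat_lit 0) (p (nat_lit 0xd1) (nat_lit 0) (p (nat_lit 0x89) (nat_lit 0) (p (nat_lit 0x41) (nat_lit 0) (p (nat_lit 0x88078907089a) (nat_lit 0) (p (nat_lit 0x87870886861a) (nat_lit 0) (p (nat_lit 0x80000000070806078a) (nat_lit 0) (p (nat_lit 0x80000000068785850a)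 (nat_lit 0) (p (nat_lit 0x8587050682) (nat_lit 0) (p (nat_lit 0x8506848402) (nat_lit 0) (p (nat_lit 0x160014) (nat_lit 0) (p (nat_lit 0x160004) (nat_lit 0) (p (nat_lit 0x50612) (nat_lit 0) (p (nat_lit 0x40592) (nat_lit 0) (p (nat_lit 0x40492) (nat_lit 0) (p (nat_lit 0x30412) (nat_lit 0) (p (nat_lit 0x30212) (nat_lit 0) (p (nat_lit 0x20192) (nat_lit 0) (p (nat_lit 0x20092) (nat_lit 0) (p (nat_lit 0x10012) (nat_lit 0) pn)))))))))))))))))))))))))) :=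
  Cl.node (nat_lit 0xb0014) (nat_lit 2) (by decide +kernel) (ClAll.succ (ClAll.succ ClAll.zero s14) s15)

def n29 : Cl (O (nat_lit 2)) (R (nat_lit 104465))
    (p (nat_lit 0xb0004) (nat_lit 0) (p (nat_lit 0x20000c) (nat_lit 0) (p (nat_lit 0x109) (nat_lit 1) (p (nat_lit 0x101) (nat_lit 0) (p (nat_lit 0x81) (nat_lit 1) (p (nat_lit 0xc1) (nat_lit 1) (p (nat_lit 0x119) (nat_lit 1) (p (nat_lit 0xd1) (nat_lit 0) (p (nat_lit 0x89) (nat_lit 0) (p (nat_lit 0x41) (nat_lit 0) (p (nat_lit 0x88078907089a) (nat_lit 0) (p (nat_lit 0x87870886861a) (nat_lit 0) (p (nat_lit 0x80000000070806078a) (nat_lit 0) (p (nat_lit 0x80000000068785850a) (nat_lit 0) (p (nat_lit 0x8587050682) (nat_lit 0) (p (nat_lit 0x8506848402) (nat_lit 0) (p (nat_lit 0x160014) (nat_lit 0) (p (nat_lit 0x160004) (nat_lit 0) (p (nat_lit 0x50612) (nat_lit 0) (p (nat_lit 0x40592) (nat_lit 0) (p (nat_lit 0x40492) (nat_lit 0) (p (nat_lit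 0x30412) (nat_lit 0) (p (nat_lit 0x30212) (nat_lit 0) (p (nat_lit 0x20192) (nat_lit 0) (p (nat_lit 0x20092) (nat_lit 0) (p (nat_lit 0x10012) (nat_lit 0) pn)))))))))))))))))))))))))) :=
  Cl.node (nat_lit 0xb0014) (nat_lit 2) (by decide +kernel) (ClAll.succ (ClAll.succ ClAll.zero s23) s24)

def n30 : Cl (O (nat_lit 2)) (R (nat_lit 104465))
    (p (nat_lit 0xb0004) (nat_lit 0) (p (nat_lit 0x119) (nat_lit 0) (p (nat_lit 0x20000c) (nat_lit 0) (p (nat_lit 0xc1) (nat_lit 0) (p (nat_lit 0x81) (nat_lit 1) (p (nat_lit 0x101) (nat_lit 1) (p (nat_lit 0x111) (nat_lit 0) (p (nat_lit 0xd1) (nat_lit 1) (p (nat_lit 0x89) (nat_lit 0) (p (nat_lit 0x41) (nat_lit 0) (p (nat_lit 0x88078907089a) (nat_lit 0) (p (nat_lit 0x87870886861a) (nat_lit 0) (p (nat_lit 0x80000000070806078a) (nat_lit 0) (p (nat_lit 0x80000000068785850a) (nat_lit 0) (p (nat_lit 0x8587050682) (nat_lit 0) (p (nat_lit 0x8506848402) (nat_lit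 0) (p (nat_lit 0x160014) (nat_lit 0) (p (nat_lit 0x160004) (nat_lit 0) (p (nat_lit 0x50612) (nat_lit 0) (p (nat_lit 0x40592) (nat_lit 0) (p (nat_lit 0x40492) (nat_lit 0) (p (nat_lit 0x30412) (nat_lit 0) (p (nat_lit 0x30212) (nat_lit 0) (p (nat_lit 0x20192) (nat_lit 0) (p (nat_lit 0x20092) (nat_lit 0) (p (nat_lit 0x10012) (nat_lit 0) pn)))))))))))))))))))))))))) :=
  Cl.node (nat_lit 0xb0014) (nat_lit 2) (by decide +kernel) (ClAll.succ (ClAll.succ ClAll.zero n19) s40)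

def n31 : Cl (O (nat_lit 2)) (R (nat_lit 104465))
    (p (nat_lit 0xb0014) (nat_lit 0) (p (nat_lit 0xb0004) (nat_lit 0) (p (nat_lit 0x20000c) (nat_lit 0) (p (nat_lit 0xd1) (nat_lit 0) (p (nat_lit 0x109) (nat_lit 1) (p (nat_lit 0x101) (nat_lit 0) (p (nat_lit 0x119) (nat_lit 0) (p (nat_lit 0xc9) (nat_lit 0) (p (nat_lit 0x89) (nat_lit 1) (p (nat_lit 0x41) (nat_lit 0) (p (nat_lit 0x88078907089a) (nat_lit 0) (p (nat_lit 0x87870886861a) (nat_lit 0) (p (nat_lit 0x80000000070806078a) (nat_lit 0) (p (nat_lit 0x80000000068785850a) (nat_lit 0) (p (nat_lit 0x8587050682) (nat_lit 0) (p (nat_lit 0x8506848402) (nat_lit 0) (p (nat_lit 0x160014) (nat_lit 0) (p (nat_lit 0x160004) (nat_lit 0) (p (nat_lit 0x50612) (nat_lit 0) (p (nat_lit 0x40592) (nat_lit 0) (p (nat_lit 0x40492) (nat_lit 0) (p (nat_lit 0x30412) (nat_lit 0) (p (nat_lit 0x30212) (nat_lit 0) (p (nat_lit 0x20192) (nat_lit 0) (p (nat_lit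 0x20092) (nat_lit 0) (p (nat_lit 0x10012) (nat_lit 0) pn)))))))))))))))))))))))))) :=
  Cl.node (nat_lit 0x41) (nat_lit 2) (by decide +kernel) (ClAll.succ (ClAll.succ ClAll.zero n20) s56)

def n32 : Cl (O (nat_lit 2)) (R (nat_lit 104465))
    (p (nat_lit 0xb0014) (nat_lit 0) (p (nat_lit 0xb0004) (nat_lit 0) (p (nat_lit 0x20000c) (nat_lit 0) (p (nat_lit 0xd1) (nat_lit 1) (p (nat_lit 0x109) (nat_lit 1) (p (nat_lit 0x101) (nat_lit 0) (p (nat_lit 0x119) (nat_lit 0) (p (nat_lit 0xc9) (nat_lit 0) (p (nat_lit 0x89) (nat_lit 1) (p (nat_lit 0x41) (nat_lit 0) (p (nat_lit 0x88078907089a) (nat_lit 0) (p (nat_lit 0x87870886861a) (nat_lit 0) (p (nat_lit 0x80000000070806078a) (nat_lit 0) (p (nat_lit 0x80000000068785850a) (nat_lit 0) (p (nat_lit 0x8587050682) (nat_lit 0) (p (nat_lit 0x8506848402) (nat_lit 0) (p (nat_lit 0x160014) (nat_lit 0) (p (nat_lit 0x160004) (nat_lit 0) (p (nat_lit 0x50612)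 (nat_lit 0) (p (nat_lit 0x40592) (nat_lit 0) (p (nat_lit 0x40492) (nat_lit 0) (p (nat_lit 0x30412) (nat_lit 0) (p (nat_lit 0x30212) (nat_lit 0) (p (nat_lit 0x20192) (nat_lit 0) (p (nat_lit 0x20092) (nat_lit 0) (p (nat_lit 0x10012) (nat_lit 0) pn)))))))))))))))))))))))))) :=
  Cl.node (nat_lit 0x41) (nat_lit 2) (by decide +kernel) (ClAll.succ (ClAll.succ ClAll.zero n21) s66)

def n33 : Cl (O (nat_lit 2)) (R (nat_lit 104465))
    (p (nat_lit 0xb0014) (nat_lit 1) (p (nat_lit 0xb0004) (nat_lit 0) (p (nat_lit 0x20000c) (nat_lit 0) (p (nat_lit 0xd1) (nat_lit 1) (p (nat_lit 0x109) (nat_lit 1) (p (nat_lit 0x101) (nat_lit 0) (p (nat_lit 0x119) (nat_lit 0) (p (nat_lit 0xc9) (nat_lit 0) (p (nat_lit 0x89) (nat_lit 1) (p (nat_lit 0x41) (nat_lit 0) (p (nat_lit 0x88078907089a) (nat_lit 0) (p (nat_lit 0x87870886861a) (nat_lit 0) (p (nat_lit 0x80000000070806078a) (nat_lit 0) (p (nat_lit 0x80000000068785850a)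 (nat_lit 0) (p (nat_lit 0x8587050682) (nat_lit 0) (p (nat_lit 0x8506848402) (nat_lit 0) (p (nat_lit 0x160014) (nat_lit 0) (p (nat_lit 0x160004) (nat_lit 0) (p (nat_lit 0x50612) (nat_lit 0) (p (nat_lit 0x40592) (nat_lit 0) (p (nat_lit 0x40492) (nat_lit 0) (p (nat_lit 0x30412) (nat_lit 0) (p (nat_lit 0x30212) (nat_lit 0) (p (nat_lit 0x20192) (nat_lit 0) (p (nat_lit 0x20092) (nat_lit 0) (p (nat_lit 0x10012) (nat_lit 0) pn)))))))))))))))))))))))))) :=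
  Cl.node (nat_lit 0x2a82580000088987870a) (nat_lit 1) (by decide +kernel) (ClAll.succ ClAll.zero n22)

def n34 : Cl (O (nat_lit 2)) (R (nat_lit 104465))
    (p (nat_lit 0xb0014) (nat_lit 0) (p (nat_lit 0xb0004) (nat_lit 0) (p (nat_lit 0x20000c) (nat_lit 0) (p (nat_lit 0xd1) (nat_lit 1) (p (nat_lit 0xc1) (nat_lit 0) (p (nat_lit 0x101) (nat_lit 1) (p (nat_lit 0x119) (nat_lit 0) (p (nat_lit 0xc9) (nat_lit 0) (p (nat_lit 0x89) (nat_lit 1) (p (nat_lit 0x41) (nat_lit 0) (p (nat_lit 0x88078907089a) (nat_lit 0) (p (nat_lit 0x87870886861a) (nat_lit 0) (p (nat_lit 0x80000000070806078a) (nat_lit 0) (p (nat_lit 0x80000000068785850a) (nat_lit 0) (p (nat_lit 0x8587050682) (nat_lit 0) (p (nat_lit 0x8506848402) (nat_lit 0) (p (nat_lit 0x160014) (nat_lit 0) (p (nat_lit 0x160004) (nat_lit 0) (p (nat_lit 0x50612) (nat_lit 0) (p (nat_lit 0x40592) (nat_lit 0) (p (nat_lit 0x40492) (nat_lit 0) (p (nat_lit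 0x30412) (nat_lit 0) (p (nat_lit 0x30212) (nat_lit 0) (p (nat_lit 0x20192) (nat_lit 0) (p (nat_lit 0x20092) (nat_lit 0) (p (nat_lit 0x10012) (nat_lit 0) pn)))))))))))))))))))))))))) :=
  Cl.node (nat_lit 0x109) (nat_lit 2) (by decide +kernel) (ClAll.succ (ClAll.succ ClAll.zero s76) n23)

def n35 : Cl (O (nat_lit 2)) (R (nat_lit 104465))
    (p (nat_lit 0xb0014) (nat_lit 1) (p (nat_lit 0xb0004) (nat_lit 0) (p (nat_lit 0x20000c) (nat_lit 0) (p (nat_lit 0xd1) (nat_lit 1) (p (nat_lit 0xc1) (nat_lit 0) (p (nat_lit 0x101) (nat_lit 1) (p (nat_lit 0x119) (nat_lit 0) (p (nat_lit 0xc9) (nat_lit 0) (p (nat_lit 0x89) (nat_lit 1) (p (nat_lit 0x41) (nat_lit 0) (p (nat_lit 0x88078907089a) (nat_lit 0) (p (nat_lit 0x87870886861a) (nat_lit 0) (p (nat_lit 0x80000000070806078a) (nat_lit 0) (p (nat_lit 0x80000000068785850a) (nat_lit 0) (p (nat_lit 0x8587050682) (nat_lit 0) (p (nat_lit 0x8506848402) (nat_lit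 0) (p (nat_lit 0x160014) (nat_lit 0) (p (nat_lit 0x160004) (nat_lit 0) (p (nat_lit 0x50612) (nat_lit 0) (p (nat_lit 0x40592) (nat_lit 0) (p (nat_lit 0x40492) (nat_lit 0) (p (nat_lit 0x30412) (nat_lit 0) (p (nat_lit 0x30212) (nat_lit 0) (p (nat_lit 0x20192) (nat_lit 0) (p (nat_lit 0x20092) (nat_lit 0) (p (nat_lit 0x10012) (nat_lit 0) pn)))))))))))))))))))))))))) :=
  Cl.node (nat_lit 0x2a82580000088987870a) (nat_lit 1) (by decide +kernel) (ClAll.succ ClAll.zero n24)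

def n36 : Cl (O (nat_lit 2)) (R (nat_lit 104465))
    (p (nat_lit 0xb0014) (nat_lit 0) (p (nat_lit 0xb0004) (nat_lit 0) (p (nat_lit 0x20000c) (nat_lit 0) (p (nat_lit 0x111) (nat_lit 1) (p (nat_lit 0x101) (nat_lit 0) (p (nat_lit 0xc1) (nat_lit 1) (p (nat_lit 0x119) (nat_lit 1) (p (nat_lit 0xc9) (nat_lit 0) (p (nat_lit 0x89) (nat_lit 1) (p (nat_lit 0x41) (nat_lit 0) (p (nat_lit 0x88078907089a) (nat_lit 0) (p (nat_lit 0x87870886861a) (nat_lit 0) (p (nat_lit 0x80000000070806078a) (nat_lit 0) (p (nat_lit 0x80000000068785850a) (nat_lit 0) (p (nat_lit 0x8587050682) (nat_lit 0) (p (nat_lit 0x8506848402) (nat_lit 0) (p (nat_lit 0x160014) (nat_lit 0) (p (nat_lit 0x160004) (nat_lit 0) (p (nat_lit 0x50612) (nat_lit 0) (p (nat_lit 0x40592) (nat_lit 0) (p (nat_lit 0x40492) (nat_lit 0) (p (nat_lit 0x30412) (nat_lit 0) (p (nat_lit 0x30212) (nat_lit 0) (p (nat_lit 0x20192) (nat_lit 0) (p (nat_lit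 0x20092) (nat_lit 0) (p (nat_lit 0x10012) (nat_lit 0) pn)))))))))))))))))))))))))) :=
  Cl.node (nat_lit 0xd1) (nat_lit 2) (by decide +kernel) (ClAll.succ (ClAll.succ ClAll.zero s93) s94)

def n37 : Cl (O (nat_lit 2)) (R (nat_lit 104465))
    (p (nat_lit 0xb0014) (nat_lit 1) (p (nat_lit 0xb0004) (nat_lit 0) (p (nat_lit 0x20000c) (nat_lit 0) (p (nat_lit 0x111) (nat_lit 1) (p (nat_lit 0x101) (nat_lit 0) (p (nat_lit 0xc1) (nat_lit 1) (p (nat_lit 0x119) (nat_lit 1) (p (nat_lit 0xc9) (nat_lit 0) (p (nat_lit 0x89) (nat_lit 1) (p (nat_lit 0x41) (nat_lit 0) (p (nat_lit 0x88078907089a) (nat_lit 0) (p (nat_lit 0x87870886861a) (nat_lit 0) (p (nat_lit 0x80000000070806078a) (nat_lit 0) (p (nat_lit 0x80000000068785850a) (nat_lit 0) (p (nat_lit 0x8587050682) (nat_lit 0) (p (nat_lit 0x8506848402) (nat_lit 0) (p (nat_lit 0x160014) (nat_lit 0) (p (nat_lit 0x160004) (nat_lit 0) (p (nat_lit 0x50612)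 (nat_lit 0) (p (nat_lit 0x40592) (nat_lit 0) (p (nat_lit 0x40492) (nat_lit 0) (p (nat_lit 0x30412) (nat_lit 0) (p (nat_lit 0x30212) (nat_lit 0) (p (nat_lit 0x20192) (nat_lit 0) (p (nat_lit 0x20092) (nat_lit 0) (p (nat_lit 0x10012) (nat_lit 0) pn)))))))))))))))))))))))))) :=
  Cl.node (nat_lit 0x2a82580000088987870a) (nat_lit 1) (by decide +kernel) (ClAll.succ ClAll.zero n25)

def n38 : Cl (O (nat_lit 2)) (R (nat_lit 104465))
    (p (nat_lit 0xb0014) (nat_lit 0) (p (nat_lit 0xb0004) (nat_lit 0) (p (nat_lit 0x20000c) (nat_lit 0) (p (nat_lit 0x89) (nat_lit 1) (p (nat_lit 0xc1) (nat_lit 1) (p (nat_lit 0x101) (nat_lit 1) (p (nat_lit 0x119) (nat_lit 0) (p (nat_lit 0xd1) (nat_lit 0) (p (nat_lit 0x81) (nat_lit 0) (p (nat_lit 0x41) (nat_lit 1) (p (nat_lit 0x88078907089a) (nat_lit 0) (p (nat_lit 0x87870886861a) (nat_lit 0) (p (nat_lit 0x80000000070806078a) (nat_lit 0) (p (nat_lit 0x80000000068785850a)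 (nat_lit 0) (p (nat_lit 0x8587050682) (nat_lit 0) (p (nat_lit 0x8506848402) (nat_lit 0) (p (nat_lit 0x160014) (nat_lit 0) (p (nat_lit 0x160004) (nat_lit 0) (p (nat_lit 0x50612) (nat_lit 0) (p (nat_lit 0x40592) (nat_lit 0) (p (nat_lit 0x40492) (nat_lit 0) (p (nat_lit 0x30412) (nat_lit 0) (p (nat_lit 0x30212) (nat_lit 0) (p (nat_lit 0x20192) (nat_lit 0) (p (nat_lit 0x20092) (nat_lit 0) (p (nat_lit 0x10012) (nat_lit 0) pn)))))))))))))))))))))))))) :=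
  Cl.node (nat_lit 0x109) (nat_lit 2) (by decide +kernel) (ClAll.succ (ClAll.succ ClAll.zero s113) s114)

def n39 : Cl (O (nat_lit 2)) (R (nat_lit 104465))
    (p (nat_lit 0xb0014) (nat_lit 0) (p (nat_lit 0xb0004) (nat_lit 1) (p (nat_lit 0x20000c) (nat_lit 0) (p (nat_lit 0x89) (nat_lit 1) (p (nat_lit 0xc1) (nat_lit 1) (p (nat_lit 0x101) (nat_lit 1) (p (nat_lit 0x119) (nat_lit 0) (p (nat_lit 0xd1) (nat_lit 0) (p (nat_lit 0x81) (nat_lit 0) (p (nat_lit 0x41) (nat_lit 1) (p (nat_lit 0x88078907089a) (nat_lit 0) (p (nat_lit 0x87870886861a) (nat_lit 0) (p (nat_lit 0x80000000070806078a) (nat_lit 0) (p (nat_lit 0x80000000068785850a) (nat_lit 0) (p (nat_lit 0x8587050682) (nat_lit 0) (p (nat_lit 0x8506848402) (nat_lit 0) (p (nat_lit 0x160014) (nat_lit 0) (p (nat_lit 0x160004) (nat_lit 0) (p (nat_lit 0x50612) (nat_lit 0) (p (nat_lit 0x40592) (nat_lit 0) (p (nat_lit 0x40492) (nat_lit 0) (p (nat_lit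 0x30412) (nat_lit 0) (p (nat_lit 0x30212) (nat_lit 0) (p (nat_lit 0x20192) (nat_lit 0) (p (nat_lit 0x20092) (nat_lit 0) (p (nat_lit 0x10012) (nat_lit 0) pn)))))))))))))))))))))))))) :=
  Cl.node (nat_lit 0x2a82580000088987870a) (nat_lit 1) (by decide +kernel) (ClAll.succ ClAll.zero n26)

def n40 : Cl (O (nat_lit 2)) (R (nat_lit 104465))
    (p (nat_lit 0x119) (nat_lit 1) (p (nat_lit 0x20000c) (nat_lit 0) (p (nat_lit 0xc9) (nat_lit 0) (p (nat_lit 0x89) (nat_lit 1) (p (nat_lit 0x109) (nat_lit 1) (p (nat_lit 0x101) (nat_lit 0) (p (nat_lit 0x111) (nat_lit 0) (p (nat_lit 0xd1) (nat_lit 1) (p (nat_lit 0x81) (nat_lit 0) (p (nat_lit 0x41) (nat_lit 1) (p (nat_lit 0x88078907089a) (nat_lit 0) (p (nat_lit 0x87870886861a) (nat_lit 0) (p (nat_lit 0x80000000070806078a) (nat_lit 0) (p (nat_lit 0x80000000068785850a) (nat_lit 0) (p (nat_lit 0x8587050682) (nat_lit 0) (p (nat_lit 0x8506848402) (nat_lit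 0) (p (nat_lit 0x160014) (nat_lit 0) (p (nat_lit 0x160004) (nat_lit 0) (p (nat_lit 0x50612) (nat_lit 0) (p (nat_lit 0x40592) (nat_lit 0) (p (nat_lit 0x40492) (nat_lit 0) (p (nat_lit 0x30412) (nat_lit 0) (p (nat_lit 0x30212) (nat_lit 0) (p (nat_lit 0x20192) (nat_lit 0) (p (nat_lit 0x20092) (nat_lit 0) (p (nat_lit 0x10012) (nat_lit 0) pn)))))))))))))))))))))))))) :=
  Cl.node (nat_lit 0xb0004) (nat_lit 2) (by decide +kernel) (ClAll.succ (ClAll.succ ClAll.zero s137) s138)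

def n41 : Cl (O (nat_lit 2)) (R (nat_lit 104465))
    (p (nat_lit 0x81) (nat_lit 1) (p (nat_lit 0x20000c) (nat_lit 0) (p (nat_lit 0xc9) (nat_lit 1) (p (nat_lit 0x109) (nat_lit 1) (p (nat_lit 0x101) (nat_lit 0) (p (nat_lit 0x119) (nat_lit 0) (p (nat_lit 0xd1) (nat_lit 0) (p (nat_lit 0x89) (nat_lit 0) (p (nat_lit 0x41) (nat_lit 0) (p (nat_lit 0x88078907089a) (nat_lit 0) (p (nat_lit 0x87870886861a) (nat_lit 0) (p (nat_lit 0x80000000070806078a) (nat_lit 0) (p (nat_lit 0x80000000068785850a) (nat_lit 0) (p (nat_lit 0x8587050682) (nat_lit 0) (p (nat_lit 0x8506848402) (nat_lit 0) (p (nat_lit 0x160014) (nat_lit 0) (p (nat_lit 0x160004) (nat_lit 0) (p (nat_lit 0x50612) (nat_lit 0) (p (nat_lit 0x40592) (nat_lit 0) (p (nat_lit 0x40492) (nat_lit 0) (p (nat_lit 0x30412) (nat_lit 0) (p (nat_lit 0x30212) (nat_lit 0) (p (nat_lit 0x20192) (nat_lit 0) (p (nat_lit 0x20092) (nat_lit 0) (p (nat_lit 0x10012)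 (nat_lit 0) pn))))))))))))))))))))))))) :=
  Cl.node (nat_lit 0xb0004) (nat_lit 2) (by decide +kernel) (ClAll.succ (ClAll.succ ClAll.zero s3) s4)

def n42 : Cl (O (nat_lit 2)) (R (nat_lit 104465))
    (p (nat_lit 0x111) (nat_lit 0) (p (nat_lit 0x20000c) (nat_lit 0) (p (nat_lit 0xc9) (nat_lit 1) (p (nat_lit 0x81) (nat_lit 0) (p (nat_lit 0x101) (nat_lit 1) (p (nat_lit 0x119) (nat_lit 0) (p (nat_lit 0xd1) (nat_lit 0) (p (nat_lit 0x89) (nat_lit 0) (p (nat_lit 0x41) (nat_lit 0) (p (nat_lit 0x88078907089a) (nat_lit 0) (p (nat_lit 0x87870886861a) (nat_lit 0) (p (nat_lit 0x80000000070806078a) (nat_lit 0) (p (nat_lit 0x80000000068785850a) (nat_lit 0) (p (nat_lit 0x8587050682) (nat_lit 0) (p (nat_lit 0x8506848402) (nat_lit 0) (p (nat_lit 0x160014) (nat_lit 0) (p (nat_lit 0x160004) (nat_lit 0) (p (nat_lit 0x50612) (nat_lit 0) (p (nat_lit 0x40592) (nat_lit 0) (p (nat_lit 0x40492) (nat_lit 0)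 (p (nat_lit 0x30412) (nat_lit 0) (p (nat_lit 0x30212) (nat_lit 0) (p (nat_lit 0x20192) (nat_lit 0) (p (nat_lit 0x20092) (nat_lit 0) (p (nat_lit 0x10012) (nat_lit 0) pn))))))))))))))))))))))))) :=
  Cl.node (nat_lit 0xb0004) (nat_lit 2) (by decide +kernel) (ClAll.succ (ClAll.succ ClAll.zero n27) s10)

def n43 : Cl (O (nat_lit 2)) (R (nat_lit 104465))
    (p (nat_lit 0x20000c) (nat_lit 0) (p (nat_lit 0xc9) (nat_lit 1) (p (nat_lit 0xc1) (nat_lit 0) (p (nat_lit 0x81) (nat_lit 1) (p (nat_lit 0x101) (nat_lit 1) (p (nat_lit 0x119) (nat_lit 0) (p (nat_lit 0xd1) (nat_lit 0) (p (nat_lit 0x89) (nat_lit 0) (p (nat_lit 0x41) (nat_lit 0) (p (nat_lit 0x88078907089a) (nat_lit 0) (p (nat_lit 0x87870886861a) (nat_lit 0) (p (nat_lit 0x80000000070806078a) (nat_lit 0) (p (nat_lit 0x80000000068785850a) (nat_lit 0) (p (nat_lit 0x8587050682) (nat_lit 0) (p (nat_lit 0x8506848402) (nat_lit 0) (p (nat_lit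 0x160014) (nat_lit 0) (p (nat_lit 0x160004) (nat_lit 0) (p (nat_lit 0x50612) (nat_lit 0) (p (nat_lit 0x40592) (nat_lit 0) (p (nat_lit 0x40492) (nat_lit 0) (p (nat_lit 0x30412) (nat_lit 0) (p (nat_lit 0x30212) (nat_lit 0) (p (nat_lit 0x20192) (nat_lit 0) (p (nat_lit 0x20092) (nat_lit 0) (p (nat_lit 0x10012) (nat_lit 0) pn))))))))))))))))))))))))) :=
  Cl.node (nat_lit 0xb0004) (nat_lit 2) (by decide +kernel) (ClAll.succ (ClAll.succ ClAll.zero n28) s16)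

def n44 : Cl (O (nat_lit 2)) (R (nat_lit 104465))
    (p (nat_lit 0x20000c) (nat_lit 0) (p (nat_lit 0x109) (nat_lit 1) (p (nat_lit 0x101) (nat_lit 0) (p (nat_lit 0x81) (nat_lit 1) (p (nat_lit 0xc1) (nat_lit 1) (p (nat_lit 0x119) (nat_lit 1) (p (nat_lit 0xd1) (nat_lit 0) (p (nat_lit 0x89) (nat_lit 0) (p (nat_lit 0x41) (nat_lit 0) (p (nat_lit 0x88078907089a) (nat_lit 0) (p (nat_lit 0x87870886861a) (nat_lit 0) (p (nat_lit 0x80000000070806078a) (nat_lit 0) (p (nat_lit 0x80000000068785850a) (nat_lit 0) (p (nat_lit 0x8587050682) (nat_lit 0) (p (nat_lit 0x8506848402) (nat_lit 0) (p (nat_lit 0x160014) (nat_lit 0) (p (nat_lit 0x160004) (nat_lit 0) (p (nat_lit 0x50612) (nat_lit 0) (p (nat_lit 0x40592) (nat_lit 0) (p (nat_lit 0x40492) (nat_lit 0) (p (nat_lit 0x30412) (nat_lit 0) (p (nat_lit 0x30212) (nat_lit 0) (p (nat_lit 0x20192) (nat_lit 0) (p (nat_lit 0x20092) (nat_lit 0) (p (nat_lit 0x10012)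 (nat_lit 0) pn))))))))))))))))))))))))) :=
  Cl.node (nat_lit 0xb0004) (nat_lit 2) (by decide +kernel) (ClAll.succ (ClAll.succ ClAll.zero n29) s25)

def n45 : Cl (O (nat_lit 2)) (R (nat_lit 104465))
    (p (nat_lit 0xb0004) (nat_lit 0) (p (nat_lit 0xc1) (nat_lit 1) (p (nat_lit 0x20000c) (nat_lit 0) (p (nat_lit 0x109) (nat_lit 1) (p (nat_lit 0x101) (nat_lit 0) (p (nat_lit 0x111) (nat_lit 0) (p (nat_lit 0xd1) (nat_lit 1) (p (nat_lit 0x89) (nat_lit 0) (p (nat_lit 0x41) (nat_lit 0) (p (nat_lit 0x88078907089a) (nat_lit 0) (p (nat_lit 0x87870886861a) (nat_lit 0) (p (nat_lit 0x80000000070806078a) (nat_lit 0) (p (nat_lit 0x80000000068785850a) (nat_lit 0) (p (nat_lit 0x8587050682) (nat_lit 0) (p (nat_lit 0x8506848402) (nat_lit 0) (p (nat_lit 0x160014) (nat_lit 0) (p (nat_lit 0x160004) (nat_lit 0) (p (nat_lit 0x50612) (nat_lit 0) (p (nat_lit 0x40592) (nat_lit 0) (p (nat_lit 0x40492) (nat_lit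 0) (p (nat_lit 0x30412) (nat_lit 0) (p (nat_lit 0x30212) (nat_lit 0) (p (nat_lit 0x20192) (nat_lit 0) (p (nat_lit 0x20092) (nat_lit 0) (p (nat_lit 0x10012) (nat_lit 0) pn))))))))))))))))))))))))) :=
  Cl.node (nat_lit 0xb0014) (nat_lit 2) (by decide +kernel) (ClAll.succ (ClAll.succ ClAll.zero s30) s31)

def n46 : Cl (O (nat_lit 2)) (R (nat_lit 104465))
    (p (nat_lit 0x119) (nat_lit 0) (p (nat_lit 0x20000c) (nat_lit 0) (p (nat_lit 0xc1) (nat_lit 0) (p (nat_lit 0x81) (nat_lit 1) (p (nat_lit 0x101) (nat_lit 1) (p (nat_lit 0x111) (nat_lit 0) (p (nat_lit 0xd1) (nat_lit 1) (p (nat_lit 0x89) (nat_lit 0) (p (nat_lit 0x41) (nat_lit 0) (p (nat_lit 0x88078907089a) (nat_lit 0) (p (nat_lit 0x87870886861a) (nat_lit 0) (p (nat_lit 0x80000000070806078a) (nat_lit 0) (p (nat_lit 0x80000000068785850a) (nat_lit 0) (p (nat_lit 0x8587050682) (nat_lit 0) (p (nat_lit 0x8506848402) (nat_lit 0) (p (nat_lit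 0x160014) (nat_lit 0) (p (nat_lit 0x160004) (nat_lit 0) (p (nat_lit 0x50612) (nat_lit 0) (p (nat_lit 0x40592) (nat_lit 0) (p (nat_lit 0x40492) (nat_lit 0) (p (nat_lit 0x30412) (nat_lit 0) (p (nat_lit 0x30212) (nat_lit 0) (p (nat_lit 0x20192) (nat_lit 0) (p (nat_lit 0x20092) (nat_lit 0) (p (nat_lit 0x10012) (nat_lit 0) pn))))))))))))))))))))))))) :=
  Cl.node (nat_lit 0xb0004) (nat_lit 2) (by decide +kernel) (ClAll.succ (ClAll.succ ClAll.zero n30) s41)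

def n47 : Cl (O (nat_lit 2)) (R (nat_lit 104465))
    (p (nat_lit 0x20000c) (nat_lit 0) (p (nat_lit 0xd1) (nat_lit 1) (p (nat_lit 0x111) (nat_lit 1) (p (nat_lit 0x109) (nat_lit 0) (p (nat_lit 0x101) (nat_lit 0) (p (nat_lit 0x119) (nat_lit 0) (p (nat_lit 0xc9) (nat_lit 0) (p (nat_lit 0x89) (nat_lit 1) (p (nat_lit 0x41) (nat_lit 0) (p (nat_lit 0x88078907089a) (nat_lit 0) (p (nat_lit 0x87870886861a) (nat_lit 0) (p (nat_lit 0x80000000070806078a) (nat_lit 0) (p (nat_lit 0x80000000068785850a) (nat_lit 0) (p (nat_lit 0x8587050682) (nat_lit 0) (p (nat_lit 0x8506848402) (nat_lit 0) (p (nat_lit 0x160014) (nat_lit 0) (p (nat_lit 0x160004) (nat_lit 0) (p (nat_lit 0x50612) (nat_lit 0) (p (nat_lit 0x40592) (nat_lit 0) (p (nat_lit 0x40492) (nat_lit 0) (p (nat_lit 0x30412) (nat_lit 0) (p (nat_lit 0x30212) (nat_lit 0) (p (nat_lit 0x20192) (nat_lit 0) (p (nat_lit 0x20092) (nat_lit 0) (p (nat_lit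 0x10012) (nat_lit 0) pn))))))))))))))))))))))))) :=
  Cl.node (nat_lit 0xb0004) (nat_lit 2) (by decide +kernel) (ClAll.succ (ClAll.succ ClAll.zero s51) s52)

def n48 : Cl (O (nat_lit 2)) (R (nat_lit 104465))
    (p (nat_lit 0xb0004) (nat_lit 0) (p (nat_lit 0x20000c) (nat_lit 0) (p (nat_lit 0xd1) (nat_lit 0) (p (nat_lit 0x109) (nat_lit 1) (p (nat_lit 0x101) (nat_lit 0) (p (nat_lit 0x119) (nat_lit 0) (p (nat_lit 0xc9) (nat_lit 0) (p (nat_lit 0x89) (nat_lit 1) (p (nat_lit 0x41) (nat_lit 0) (p (nat_lit 0x88078907089a) (nat_lit 0) (p (nat_lit 0x87870886861a) (nat_lit 0) (p (nat_lit 0x80000000070806078a) (nat_lit 0) (p (nat_lit 0x80000000068785850a) (nat_lit 0) (p (nat_lit 0x8587050682) (nat_lit 0) (p (nat_lit 0x8506848402) (nat_lit 0) (p (nat_lit 0x160014) (nat_lit 0) (p (nat_lit 0x160004) (nat_lit 0) (p (nat_lit 0x50612) (nat_lit 0) (p (nat_lit 0x40592) (nat_lit 0) (p (nat_lit 0x40492)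 (nat_lit 0) (p (nat_lit 0x30412) (nat_lit 0) (p (nat_lit 0x30212) (nat_lit 0) (p (nat_lit 0x20192) (nat_lit 0) (p (nat_lit 0x20092) (nat_lit 0) (p (nat_lit 0x10012) (nat_lit 0) pn))))))))))))))))))))))))) :=
  Cl.node (nat_lit 0xb0014) (nat_lit 2) (by decide +kernel) (ClAll.succ (ClAll.succ ClAll.zero n31) s57)

def n49 : Cl (O (nat_lit 2)) (R (nat_lit 104465))
    (p (nat_lit 0xb0004) (nat_lit 0) (p (nat_lit 0x20000c) (nat_lit 0) (p (nat_lit 0xd1) (nat_lit 1) (p (nat_lit 0x109) (nat_lit 1) (p (nat_lit 0x101) (nat_lit 0) (p (nat_lit 0x119) (nat_lit 0) (p (nat_lit 0xc9) (nat_lit 0) (p (nat_lit 0x89) (nat_lit 1) (p (nat_lit 0x41) (nat_lit 0) (p (nat_lit 0x88078907089a) (nat_lit 0) (p (nat_lit 0x87870886861a) (nat_lit 0) (p (nat_lit 0x80000000070806078a) (nat_lit 0) (p (nat_lit 0x80000000068785850a) (nat_lit 0) (p (nat_lit 0x8587050682) (nat_lit 0) (p (nat_lit 0x8506848402) (nat_lit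 0) (p (nat_lit 0x160014) (nat_lit 0) (p (nat_lit 0x160004) (nat_lit 0) (p (nat_lit 0x50612) (nat_lit 0) (p (nat_lit 0x40592) (nat_lit 0) (p (nat_lit 0x40492) (nat_lit 0) (p (nat_lit 0x30412) (nat_lit 0) (p (nat_lit 0x30212) (nat_lit 0) (p (nat_lit 0x20192) (nat_lit 0) (p (nat_lit 0x20092) (nat_lit 0) (p (nat_lit 0x10012) (nat_lit 0) pn))))))))))))))))))))))))) :=
  Cl.node (nat_lit 0xb0014) (nat_lit 2) (by decide +kernel) (ClAll.succ (ClAll.succ ClAll.zero n32) n33)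

def n50 : Cl (O (nat_lit 2)) (R (nat_lit 104465))
    (p (nat_lit 0xb0004) (nat_lit 0) (p (nat_lit 0x20000c) (nat_lit 0) (p (nat_lit 0xd1) (nat_lit 0) (p (nat_lit 0xc1) (nat_lit 0) (p (nat_lit 0x101) (nat_lit 1) (p (nat_lit 0x119) (nat_lit 0) (p (nat_lit 0xc9) (nat_lit 0) (p (nat_lit 0x89) (nat_lit 1) (p (nat_lit 0x41) (nat_lit 0) (p (nat_lit 0x88078907089a) (nat_lit 0) (p (nat_lit 0x87870886861a) (nat_lit 0) (p (nat_lit 0x80000000070806078a) (nat_lit 0) (p (nat_lit 0x80000000068785850a) (nat_lit 0) (p (nat_lit 0x8587050682) (nat_lit 0) (p (nat_lit 0x8506848402) (nat_lit 0) (p (nat_lit 0x160014) (nat_lit 0) (p (nat_lit 0x160004) (nat_lit 0) (p (nat_lit 0x50612) (nat_lit 0) (p (nat_lit 0x40592) (nat_lit 0) (p (nat_lit 0x40492) (nat_lit 0) (p (nat_lit 0x30412) (nat_lit 0) (p (nat_lit 0x30212) (nat_lit 0) (p (nat_lit 0x20192) (nat_lit 0) (p (nat_lit 0x20092) (nat_lit 0) (p (nat_lit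 0x10012) (nat_lit 0) pn))))))))))))))))))))))))) :=
  Cl.node (nat_lit 0xb0014) (nat_lit 2) (by decide +kernel) (ClAll.succ (ClAll.succ ClAll.zero s72) s73)

def n51 : Cl (O (nat_lit 2)) (R (nat_lit 104465))
    (p (nat_lit 0xb0004) (nat_lit 0) (p (nat_lit 0x20000c) (nat_lit 0) (p (nat_lit 0xd1) (nat_lit 1) (p (nat_lit 0xc1) (nat_lit 0) (p (nat_lit 0x101) (nat_lit 1) (p (nat_lit 0x119) (nat_lit 0) (p (nat_lit 0xc9) (nat_lit 0) (p (nat_lit 0x89) (nat_lit 1) (p (nat_lit 0x41) (nat_lit 0) (p (nat_lit 0x88078907089a) (nat_lit 0) (p (nat_lit 0x87870886861a) (nat_lit 0) (p (nat_lit 0x80000000070806078a) (nat_lit 0) (p (nat_lit 0x80000000068785850a) (nat_lit 0) (p (nat_lit 0x8587050682) (nat_lit 0) (p (nat_lit 0x8506848402) (nat_lit 0) (p (nat_lit 0x160014) (nat_lit 0) (p (nat_lit 0x160004) (nat_lit 0) (p (nat_lit 0x50612) (nat_lit 0) (p (nat_lit 0x40592) (nat_lit 0) (p (nat_lit 0x40492)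 (nat_lit 0) (p (nat_lit 0x30412) (nat_lit 0) (p (nat_lit 0x30212) (nat_lit 0) (p (nat_lit 0x20192) (nat_lit 0) (p (nat_lit 0x20092) (nat_lit 0) (p (nat_lit 0x10012) (nat_lit 0) pn))))))))))))))))))))))))) :=
  Cl.node (nat_lit 0xb0014) (nat_lit 2) (by decide +kernel) (ClAll.succ (ClAll.succ ClAll.zero n34) n35)

def n52 : Cl (O (nat_lit 2)) (R (nat_lit 104465))
    (p (nat_lit 0xb0004) (nat_lit 0) (p (nat_lit 0x20000c) (nat_lit 0) (p (nat_lit 0x111) (nat_lit 1) (p (nat_lit 0xd1) (nat_lit 1) (p (nat_lit 0xc1) (nat_lit 0) (p (nat_lit 0x119) (nat_lit 1) (p (nat_lit 0xc9) (nat_lit 0) (p (nat_lit 0x89) (nat_lit 1) (p (nat_lit 0x41) (nat_lit 0) (p (nat_lit 0x88078907089a) (nat_lit 0) (p (nat_lit 0x87870886861a) (nat_lit 0) (p (nat_lit 0x80000000070806078a) (nat_lit 0) (p (nat_lit 0x80000000068785850a) (nat_lit 0) (p (nat_lit 0x8587050682) (nat_lit 0) (p (nat_lit 0x8506848402) (nat_lit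 0) (p (nat_lit 0x160014) (nat_lit 0) (p (nat_lit 0x160004) (nat_lit 0) (p (nat_lit 0x50612) (nat_lit 0) (p (nat_lit 0x40592) (nat_lit 0) (p (nat_lit 0x40492) (nat_lit 0) (p (nat_lit 0x30412) (nat_lit 0) (p (nat_lit 0x30212) (nat_lit 0) (p (nat_lit 0x20192) (nat_lit 0) (p (nat_lit 0x20092) (nat_lit 0) (p (nat_lit 0x10012) (nat_lit 0) pn))))))))))))))))))))))))) :=
  Cl.node (nat_lit 0xb0014) (nat_lit 2) (by decide +kernel) (ClAll.succ (ClAll.succ ClAll.zero s87) s88)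

def n53 : Cl (O (nat_lit 2)) (R (nat_lit 104465))
    (p (nat_lit 0xb0004) (nat_lit 0) (p (nat_lit 0x20000c) (nat_lit 0) (p (nat_lit 0x111) (nat_lit 1) (p (nat_lit 0x101) (nat_lit 0) (p (nat_lit 0xc1) (nat_lit 1) (p (nat_lit 0x119) (nat_lit 1) (p (nat_lit 0xc9) (nat_lit 0) (p (nat_lit 0x89) (nat_lit 1) (p (nat_lit 0x41) (nat_lit 0) (p (nat_lit 0x88078907089a) (nat_lit 0) (p (nat_lit 0x87870886861a) (nat_lit 0) (p (nat_lit 0x80000000070806078a) (nat_lit 0) (p (nat_lit 0x80000000068785850a) (nat_lit 0) (p (nat_lit 0x8587050682) (nat_lit 0) (p (nat_lit 0x8506848402) (nat_lit 0) (p (nat_lit 0x160014) (nat_lit 0) (p (nat_lit 0x160004) (nat_lit 0) (p (nat_lit 0x50612) (nat_lit 0) (p (nat_lit 0x40592) (nat_lit 0) (p (nat_lit 0x40492) (nat_lit 0) (p (nat_lit 0x30412) (nat_lit 0) (p (nat_lit 0x30212) (nat_lit 0) (p (nat_lit 0x20192) (nat_lit 0) (p (nat_lit 0x20092) (nat_lit 0) (p (nat_lit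 0x10012) (nat_lit 0) pn))))))))))))))))))))))))) :=
  Cl.node (nat_lit 0xb0014) (nat_lit 2) (by decide +kernel) (ClAll.succ (ClAll.succ ClAll.zero n36) n37)

def n54 : Cl (O (nat_lit 2)) (R (nat_lit 104465))
    (p (nat_lit 0xb0004) (nat_lit 0) (p (nat_lit 0x20000c) (nat_lit 0) (p (nat_lit 0x89) (nat_lit 1) (p (nat_lit 0xc1) (nat_lit 1) (p (nat_lit 0x101) (nat_lit 1) (p (nat_lit 0x119) (nat_lit 0) (p (nat_lit 0xd1) (nat_lit 0) (p (nat_lit 0x81) (nat_lit 0) (p (nat_lit 0x41) (nat_lit 1) (p (nat_lit 0x88078907089a) (nat_lit 0) (p (nat_lit 0x87870886861a) (nat_lit 0) (p (nat_lit 0x80000000070806078a) (nat_lit 0) (p (nat_lit 0x80000000068785850a) (nat_lit 0) (p (nat_lit 0x8587050682) (nat_lit 0) (p (nat_lit 0x8506848402) (nat_lit 0) (p (nat_lit 0x160014) (nat_lit 0) (p (nat_lit 0x160004) (nat_lit 0) (p (nat_lit 0x50612) (nat_lit 0) (p (nat_lit 0x40592) (nat_lit 0) (p (nat_lit 0x40492)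 (nat_lit 0) (p (nat_lit 0x30412) (nat_lit 0) (p (nat_lit 0x30212) (nat_lit 0) (p (nat_lit 0x20192) (nat_lit 0) (p (nat_lit 0x20092) (nat_lit 0) (p (nat_lit 0x10012) (nat_lit 0) pn))))))))))))))))))))))))) :=
  Cl.node (nat_lit 0xb0014) (nat_lit 2) (by decide +kernel) (ClAll.succ (ClAll.succ ClAll.zero n38) s115)

def n55 : Cl (O (nat_lit 2)) (R (nat_lit 104465))
    (p (nat_lit 0xb0004) (nat_lit 1) (p (nat_lit 0x20000c) (nat_lit 0) (p (nat_lit 0x89) (nat_lit 1) (p (nat_lit 0xc1) (nat_lit 1) (p (nat_lit 0x101) (nat_lit 1) (p (nat_lit 0x119) (nat_lit 0) (p (nat_lit 0xd1) (nat_lit 0) (p (nat_lit 0x81) (nat_lit 0) (p (nat_lit 0x41) (nat_lit 1) (p (nat_lit 0x88078907089a) (nat_lit 0) (p (nat_lit 0x87870886861a) (nat_lit 0) (p (nat_lit 0x80000000070806078a) (nat_lit 0) (p (nat_lit 0x80000000068785850a) (nat_lit 0) (p (nat_lit 0x8587050682) (nat_lit 0) (p (nat_lit 0x8506848402) (nat_lit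 0) (p (nat_lit 0x160014) (nat_lit 0) (p (nat_lit 0x160004) (nat_lit 0) (p (nat_lit 0x50612) (nat_lit 0) (p (nat_lit 0x40592) (nat_lit 0) (p (nat_lit 0x40492) (nat_lit 0) (p (nat_lit 0x30412) (nat_lit 0) (p (nat_lit 0x30212) (nat_lit 0) (p (nat_lit 0x20192) (nat_lit 0) (p (nat_lit 0x20092) (nat_lit 0) (p (nat_lit 0x10012) (nat_lit 0) pn))))))))))))))))))))))))) :=
  Cl.node (nat_lit 0xb0014) (nat_lit 2) (by decide +kernel) (ClAll.succ (ClAll.succ ClAll.zero n39) s118)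

def n56 : Cl (O (nat_lit 2)) (R (nat_lit 104465))
    (p (nat_lit 0x20000c) (nat_lit 0) (p (nat_lit 0x109) (nat_lit 1) (p (nat_lit 0x89) (nat_lit 1) (p (nat_lit 0x101) (nat_lit 0) (p (nat_lit 0xc1) (nat_lit 1) (p (nat_lit 0x119) (nat_lit 1) (p (nat_lit 0xd1) (nat_lit 0) (p (nat_lit 0x81) (nat_lit 0) (p (nat_lit 0x41) (nat_lit 1) (p (nat_lit 0x88078907089a) (nat_lit 0) (p (nat_lit 0x87870886861a) (nat_lit 0) (p (nat_lit 0x80000000070806078a) (nat_lit 0) (p (nat_lit 0x80000000068785850a) (nat_lit 0) (p (nat_lit 0x8587050682) (nat_lit 0) (p (nat_lit 0x8506848402) (nat_lit 0) (p (nat_lit 0x160014) (nat_lit 0) (p (nat_lit 0x160004) (nat_lit 0) (p (nat_lit 0x50612) (nat_lit 0) (p (nat_lit 0x40592) (nat_lit 0) (p (nat_lit 0x40492) (nat_lit 0) (p (nat_lit 0x30412) (nat_lit 0) (p (nat_lit 0x30212) (nat_lit 0) (p (nat_lit 0x20192) (nat_lit 0) (p (nat_lit 0x20092) (nat_lit 0) (p (nat_lit 0x10012)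 (nat_lit 0) pn))))))))))))))))))))))))) :=
  Cl.node (nat_lit 0xb0004) (nat_lit 2) (by decide +kernel) (ClAll.succ (ClAll.succ ClAll.zero s126) s127)

def n57 : Cl (O (nat_lit 2)) (R (nat_lit 104465))
    (p (nat_lit 0xb0004) (nat_lit 0) (p (nat_lit 0x20000c) (nat_lit 0) (p (nat_lit 0x89) (nat_lit 1) (p (nat_lit 0x101) (nat_lit 1) (p (nat_lit 0xc1) (nat_lit 1) (p (nat_lit 0x119) (nat_lit 1) (p (nat_lit 0xd1) (nat_lit 0) (p (nat_lit 0x81) (nat_lit 0) (p (nat_lit 0x41) (nat_lit 1) (p (nat_lit 0x88078907089a) (nat_lit 0) (p (nat_lit 0x87870886861a) (nat_lit 0) (p (nat_lit 0x80000000070806078a) (nat_lit 0) (p (nat_lit 0x80000000068785850a) (nat_lit 0) (p (nat_lit 0x8587050682) (nat_lit 0) (p (nat_lit 0x8506848402) (nat_lit 0) (p (nat_lit 0x160014) (nat_lit 0) (p (nat_lit 0x160004) (nat_lit 0) (p (nat_lit 0x50612) (nat_lit 0) (p (nat_lit 0x40592) (nat_lit 0) (p (nat_lit 0x40492) (nat_lit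 0) (p (nat_lit 0x30412) (nat_lit 0) (p (nat_lit 0x30212) (nat_lit 0) (p (nat_lit 0x20192) (nat_lit 0) (p (nat_lit 0x20092) (nat_lit 0) (p (nat_lit 0x10012) (nat_lit 0) pn))))))))))))))))))))))))) :=
  Cl.node (nat_lit 0xb0014) (nat_lit 2) (by decide +kernel) (ClAll.succ (ClAll.succ ClAll.zero s130) s131)

def n58 : Cl (O (nat_lit 2)) (R (nat_lit 104465))
    (p (nat_lit 0x20000c) (nat_lit 0) (p (nat_lit 0xc9) (nat_lit 0) (p (nat_lit 0x89) (nat_lit 1) (p (nat_lit 0x109) (nat_lit 1) (p (nat_lit 0x101) (nat_lit 0) (p (nat_lit 0x111) (nat_lit 0) (p (nat_lit 0xd1) (nat_lit 1) (p (nat_lit 0x81) (nat_lit 0) (p (nat_lit 0x41) (nat_lit 1) (p (nat_lit 0x88078907089a) (nat_lit 0) (p (nat_lit 0x87870886861a) (nat_lit 0) (p (nat_lit 0x80000000070806078a) (nat_lit 0) (p (nat_lit 0x80000000068785850a) (nat_lit 0) (p (nat_lit 0x8587050682) (nat_lit 0) (p (nat_lit 0x8506848402) (nat_lit 0) (p (nat_lit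 0x160014) (nat_lit 0) (p (nat_lit 0x160004) (nat_lit 0) (p (nat_lit 0x50612) (nat_lit 0) (p (nat_lit 0x40592) (nat_lit 0) (p (nat_lit 0x40492) (nat_lit 0) (p (nat_lit 0x30412) (nat_lit 0) (p (nat_lit 0x30212) (nat_lit 0) (p (nat_lit 0x20192) (nat_lit 0) (p (nat_lit 0x20092) (nat_lit 0) (p (nat_lit 0x10012) (nat_lit 0) pn))))))))))))))))))))))))) :=
  Cl.node (nat_lit 0x119) (nat_lit 2) (by decide +kernel) (ClAll.succ (ClAll.succ ClAll.zero s136) n40)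

def n59 : Cl (O (nat_lit 2)) (R (nat_lit 104465))
    (p (nat_lit 0xb0004) (nat_lit 0) (p (nat_lit 0x20000c) (nat_lit 0) (p (nat_lit 0xc9) (nat_lit 0) (p (nat_lit 0x89) (nat_lit 1) (p (nat_lit 0x101) (nat_lit 1) (p (nat_lit 0x111) (nat_lit 0) (p (nat_lit 0xd1) (nat_lit 1) (p (nat_lit 0x81) (nat_lit 0) (p (nat_lit 0x41) (nat_lit 1) (p (nat_lit 0x88078907089a) (nat_lit 0) (p (nat_lit 0x87870886861a) (nat_lit 0) (p (nat_lit 0x80000000070806078a) (nat_lit 0) (p (nat_lit 0x80000000068785850a) (nat_lit 0) (p (nat_lit 0x8587050682) (nat_lit 0) (p (nat_lit 0x8506848402) (nat_lit 0) (p (nat_lit 0x160014) (nat_lit 0) (p (nat_lit 0x160004) (nat_lit 0) (p (nat_lit 0x50612) (nat_lit 0) (p (nat_lit 0x40592) (nat_lit 0) (p (nat_lit 0x40492) (nat_lit 0) (p (nat_lit 0x30412) (nat_lit 0) (p (nat_lit 0x30212) (nat_lit 0) (p (nat_lit 0x20192) (nat_lit 0) (p (nat_lit 0x20092) (nat_lit 0) (p (nat_lit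 0x10012) (nat_lit 0) pn))))))))))))))))))))))))) :=
  Cl.node (nat_lit 0xb0014) (nat_lit 2) (by decide +kernel) (ClAll.succ (ClAll.succ ClAll.zero s145) s146)

def n60 : Cl (O (nat_lit 2)) (R (nat_lit 104465))
    (p (nat_lit 0x20000c) (nat_lit 0) (p (nat_lit 0xc9) (nat_lit 1) (p (nat_lit 0x109) (nat_lit 1) (p (nat_lit 0x101) (nat_lit 0) (p (nat_lit 0x119) (nat_lit 0) (p (nat_lit 0xd1) (nat_lit 0) (p (nat_lit 0x89) (nat_lit 0) (p (nat_lit 0x41) (nat_lit 0) (p (nat_lit 0x88078907089a) (nat_lit 0) (p (nat_lit 0x87870886861a) (nat_lit 0) (p (nat_lit 0x80000000070806078a) (nat_lit 0) (p (nat_lit 0x80000000068785850a) (nat_lit 0) (p (nat_lit 0x8587050682) (nat_lit 0) (p (nat_lit 0x8506848402) (nat_lit 0) (p (nat_lit 0x160014) (nat_lit 0) (p (nat_lit 0x160004) (nat_lit 0) (p (nat_lit 0x50612) (nat_lit 0) (p (nat_lit 0x40592) (nat_lit 0) (p (nat_lit 0x40492) (nat_lit 0) (p (nat_lit 0x30412)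 (nat_lit 0) (p (nat_lit 0x30212) (nat_lit 0) (p (nat_lit 0x20192) (nat_lit 0) (p (nat_lit 0x20092) (nat_lit 0) (p (nat_lit 0x10012) (nat_lit 0) pn)))))))))))))))))))))))) :=
  Cl.node (nat_lit 0x81) (nat_lit 2) (by decide +kernel) (ClAll.succ (ClAll.succ ClAll.zero s2) n41)

def n61 : Cl (O (nat_lit 2)) (R (nat_lit 104465))
    (p (nat_lit 0x20000c) (nat_lit 0) (p (nat_lit 0xc9) (nat_lit 1) (p (nat_lit 0x81) (nat_lit 0) (p (nat_lit 0x101) (nat_lit 1) (p (nat_lit 0x119) (nat_lit 0) (p (nat_lit 0xd1) (nat_lit 0) (p (nat_lit 0x89) (nat_lit 0) (p (nat_lit 0x41) (nat_lit 0) (p (nat_lit 0x88078907089a) (nat_lit 0) (p (nat_lit 0x87870886861a) (nat_lit 0) (p (nat_lit 0x80000000070806078a) (nat_lit 0) (p (nat_lit 0x80000000068785850a) (nat_lit 0) (p (nat_lit 0x8587050682) (nat_lit 0) (p (nat_lit 0x8506848402) (nat_lit 0) (p (nat_lit 0x160014) (nat_lit 0) (p (nat_lit 0x160004) (nat_lit 0)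 (p (nat_lit 0x50612) (nat_lit 0) (p (nat_lit 0x40592) (nat_lit 0) (p (nat_lit 0x40492) (nat_lit 0) (p (nat_lit 0x30412) (nat_lit 0) (p (nat_lit 0x30212) (nat_lit 0) (p (nat_lit 0x20192) (nat_lit 0) (p (nat_lit 0x20092) (nat_lit 0) (p (nat_lit 0x10012) (nat_lit 0) pn)))))))))))))))))))))))) :=
  Cl.node (nat_lit 0x111) (nat_lit 2) (by decide +kernel) (ClAll.succ (ClAll.succ ClAll.zero n42) s11)

def n62 : Cl (O (nat_lit 2)) (R (nat_lit 104465))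
    (p (nat_lit 0xc9) (nat_lit 1) (p (nat_lit 0xc1) (nat_lit 0) (p (nat_lit 0x81) (nat_lit 1) (p (nat_lit 0x101) (nat_lit 1) (p (nat_lit 0x119) (nat_lit 0) (p (nat_lit 0xd1) (nat_lit 0) (p (nat_lit 0x89) (nat_lit 0) (p (nat_lit 0x41) (nat_lit 0) (p (nat_lit 0x88078907089a) (nat_lit 0) (p (nat_lit 0x87870886861a) (nat_lit 0) (p (nat_lit 0x80000000070806078a) (nat_lit 0) (p (nat_lit 0x80000000068785850a) (nat_lit 0) (p (nat_lit 0x8587050682) (nat_lit 0) (p (nat_lit 0x8506848402) (nat_lit 0) (p (nat_lit 0x160014) (nat_lit 0) (p (nat_lit 0x160004) (nat_lit 0) (p (nat_lit 0x50612) (nat_lit 0) (p (nat_lit 0x40592) (nat_lit 0) (p (nat_lit 0x40492) (nat_lit 0) (p (nat_lit 0x30412) (nat_lit 0) (p (nat_lit 0x30212) (nat_lit 0) (p (nat_lit 0x20192) (nat_lit 0) (p (nat_lit 0x20092) (nat_lit 0) (p (nat_lit 0x10012) (nat_lit 0) pn)))))))))))))))))))))))) :=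
  Cl.node (nat_lit 0x20000c) (nat_lit 2) (by decide +kernel) (ClAll.succ (ClAll.succ ClAll.zero n43) s17)

def n63 : Cl (O (nat_lit 2)) (R (nat_lit 104465))
    (p (nat_lit 0x109) (nat_lit 1) (p (nat_lit 0x101) (nat_lit 0) (p (nat_lit 0x81) (nat_lit 1) (p (nat_lit 0xc1) (nat_lit 1) (p (nat_lit 0x119) (nat_lit 1) (p (nat_lit 0xd1) (nat_lit 0) (p (nat_lit 0x89) (nat_lit 0) (p (nat_lit 0x41) (nat_lit 0) (p (nat_lit 0x88078907089a) (nat_lit 0) (p (nat_lit 0x87870886861a) (nat_lit 0) (p (nat_lit 0x80000000070806078a) (nat_lit 0) (p (nat_lit 0x80000000068785850a) (nat_lit 0) (p (nat_lit 0x8587050682) (nat_lit 0) (p (nat_lit 0x8506848402) (nat_lit 0) (p (nat_lit 0x160014) (nat_lit 0) (p (nat_lit 0x160004) (nat_lit 0) (p (nat_lit 0x50612) (nat_lit 0) (p (nat_lit 0x40592) (nat_lit 0) (p (nat_lit 0x40492) (nat_lit 0) (p (nat_lit 0x30412) (nat_lit 0) (p (nat_lit 0x30212) (nat_lit 0) (p (nat_lit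 0x20192) (nat_lit 0) (p (nat_lit 0x20092) (nat_lit 0) (p (nat_lit 0x10012) (nat_lit 0) pn)))))))))))))))))))))))) :=
  Cl.node (nat_lit 0x20000c) (nat_lit 2) (by decide +kernel) (ClAll.succ (ClAll.succ ClAll.zero n44) s26)

def n64 : Cl (O (nat_lit 2)) (R (nat_lit 104465))
    (p (nat_lit 0xc1) (nat_lit 1) (p (nat_lit 0x20000c) (nat_lit 0) (p (nat_lit 0x109) (nat_lit 1) (p (nat_lit 0x101) (nat_lit 0) (p (nat_lit 0x111) (nat_lit 0) (p (nat_lit 0xd1) (nat_lit 1) (p (nat_lit 0x89) (nat_lit 0) (p (nat_lit 0x41) (nat_lit 0) (p (nat_lit 0x88078907089a) (nat_lit 0) (p (nat_lit 0x87870886861a) (nat_lit 0) (p (nat_lit 0x80000000070806078a) (nat_lit 0) (p (nat_lit 0x80000000068785850a) (nat_lit 0) (p (nat_lit 0x8587050682) (nat_lit 0) (p (nat_lit 0x8506848402) (nat_lit 0) (p (nat_lit 0x160014) (nat_lit 0) (p (nat_lit 0x160004) (nat_lit 0) (p (nat_lit 0x50612) (nat_lit 0) (p (nat_lit 0x40592)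 (nat_lit 0) (p (nat_lit 0x40492) (nat_lit 0) (p (nat_lit 0x30412) (nat_lit 0) (p (nat_lit 0x30212) (nat_lit 0) (p (nat_lit 0x20192) (nat_lit 0) (p (nat_lit 0x20092) (nat_lit 0) (p (nat_lit 0x10012) (nat_lit 0) pn)))))))))))))))))))))))) :=
  Cl.node (nat_lit 0xb0004) (nat_lit 2) (by decide +kernel) (ClAll.succ (ClAll.succ ClAll.zero n45) s32)

def n65 : Cl (O (nat_lit 2)) (R (nat_lit 104465))
    (p (nat_lit 0x119) (nat_lit 0) (p (nat_lit 0x20000c) (nat_lit 0) (p (nat_lit 0x81) (nat_lit 0) (p (nat_lit 0x101) (nat_lit 1) (p (nat_lit 0x111) (nat_lit 0) (p (nat_lit 0xd1) (nat_lit 1) (p (nat_lit 0x89) (nat_lit 0) (p (nat_lit 0x41) (nat_lit 0) (p (nat_lit 0x88078907089a) (nat_lit 0) (p (nat_lit 0x87870886861a) (nat_lit 0) (p (nat_lit 0x80000000070806078a) (nat_lit 0) (p (nat_lit 0x80000000068785850a) (nat_lit 0) (p (nat_lit 0x8587050682) (nat_lit 0) (p (nat_lit 0x8506848402) (nat_lit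 0) (p (nat_lit 0x160014) (nat_lit 0) (p (nat_lit 0x160004) (nat_lit 0) (p (nat_lit 0x50612) (nat_lit 0) (p (nat_lit 0x40592) (nat_lit 0) (p (nat_lit 0x40492) (nat_lit 0) (p (nat_lit 0x30412) (nat_lit 0) (p (nat_lit 0x30212) (nat_lit 0) (p (nat_lit 0x20192) (nat_lit 0) (p (nat_lit 0x20092) (nat_lit 0) (p (nat_lit 0x10012) (nat_lit 0) pn)))))))))))))))))))))))) :=
  Cl.node (nat_lit 0xb0004) (nat_lit 2) (by decide +kernel) (ClAll.succ (ClAll.succ ClAll.zero s34) s35)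

def n66 : Cl (O (nat_lit 2)) (R (nat_lit 104465))
    (p (nat_lit 0x20000c) (nat_lit 0) (p (nat_lit 0xc1) (nat_lit 0) (p (nat_lit 0x81) (nat_lit 1) (p (nat_lit 0x101) (nat_lit 1) (p (nat_lit 0x111) (nat_lit 0) (p (nat_lit 0xd1) (nat_lit 1) (p (nat_lit 0x89) (nat_lit 0) (p (nat_lit 0x41) (nat_lit 0) (p (nat_lit 0x88078907089a) (nat_lit 0) (p (nat_lit 0x87870886861a) (nat_lit 0) (p (nat_lit 0x80000000070806078a) (nat_lit 0) (p (nat_lit 0x80000000068785850a) (nat_lit 0) (p (nat_lit 0x8587050682) (nat_lit 0) (p (nat_lit 0x8506848402) (nat_lit 0) (p (nat_lit 0x160014) (nat_lit 0) (p (nat_lit 0x160004) (nat_lit 0) (p (nat_lit 0x50612) (nat_lit 0) (p (nat_lit 0x40592) (nat_lit 0) (p (nat_lit 0x40492) (nat_lit 0) (p (nat_lit 0x30412) (nat_lit 0) (p (nat_lit 0x30212) (nat_lit 0) (p (nat_lit 0x20192) (nat_lit 0) (p (nat_lit 0x20092) (nat_lit 0) (p (nat_lit 0x10012) (nat_lit 0) pn))))))))))))))))))))))))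 :=
  Cl.node (nat_lit 0x119) (nat_lit 2) (by decide +kernel) (ClAll.succ (ClAll.succ ClAll.zero n46) s42)

def n67 : Cl (O (nat_lit 2)) (R (nat_lit 104465))
    (p (nat_lit 0xd1) (nat_lit 1) (p (nat_lit 0x111) (nat_lit 1) (p (nat_lit 0x109) (nat_lit 0) (p (nat_lit 0x101) (nat_lit 0) (p (nat_lit 0x119) (nat_lit 0) (p (nat_lit 0xc9) (nat_lit 0) (p (nat_lit 0x89) (nat_lit 1) (p (nat_lit 0x41) (nat_lit 0) (p (nat_lit 0x88078907089a) (nat_lit 0) (p (nat_lit 0x87870886861a) (nat_lit 0) (p (nat_lit 0x80000000070806078a) (nat_lit 0) (p (nat_lit 0x80000000068785850a) (nat_lit 0) (p (nat_lit 0x8587050682) (nat_lit 0) (p (nat_lit 0x8506848402) (nat_lit 0) (p (nat_lit 0x160014) (nat_lit 0) (p (nat_lit 0x160004) (nat_lit 0) (p (nat_lit 0x50612) (nat_lit 0) (p (nat_lit 0x40592) (nat_lit 0) (p (nat_lit 0x40492) (nat_lit 0) (p (nat_lit 0x30412) (nat_lit 0) (p (nat_lit 0x30212) (nat_lit 0) (p (nat_lit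 0x20192) (nat_lit 0) (p (nat_lit 0x20092) (nat_lit 0) (p (nat_lit 0x10012) (nat_lit 0) pn)))))))))))))))))))))))) :=
  Cl.node (nat_lit 0x20000c) (nat_lit 2) (by decide +kernel) (ClAll.succ (ClAll.succ ClAll.zero n47) s53)

def n68 : Cl (O (nat_lit 2)) (R (nat_lit 104465))
    (p (nat_lit 0x20000c) (nat_lit 0) (p (nat_lit 0xd1) (nat_lit 0) (p (nat_lit 0x109) (nat_lit 1) (p (nat_lit 0x101) (nat_lit 0) (p (nat_lit 0x119) (nat_lit 0) (p (nat_lit 0xc9) (nat_lit 0) (p (nat_lit 0x89) (nat_lit 1) (p (nat_lit 0x41) (nat_lit 0) (p (nat_lit 0x88078907089a) (nat_lit 0) (p (nat_lit 0x87870886861a) (nat_lit 0) (p (nat_lit 0x80000000070806078a) (nat_lit 0) (p (nat_lit 0x80000000068785850a) (nat_lit 0) (p (nat_lit 0x8587050682) (nat_lit 0) (p (nat_lit 0x8506848402) (nat_lit 0) (p (nat_lit 0x160014) (nat_lit 0) (p (nat_lit 0x160004) (nat_lit 0) (p (nat_lit 0x50612) (nat_lit 0) (p (nat_lit 0x40592)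 (nat_lit 0) (p (nat_lit 0x40492) (nat_lit 0) (p (nat_lit 0x30412) (nat_lit 0) (p (nat_lit 0x30212) (nat_lit 0) (p (nat_lit 0x20192) (nat_lit 0) (p (nat_lit 0x20092) (nat_lit 0) (p (nat_lit 0x10012) (nat_lit 0) pn)))))))))))))))))))))))) :=
  Cl.node (nat_lit 0xb0004) (nat_lit 2) (by decide +kernel) (ClAll.succ (ClAll.succ ClAll.zero n48) s58)

def n69 : Cl (O (nat_lit 2)) (R (nat_lit 104465))
    (p (nat_lit 0x20000c) (nat_lit 0) (p (nat_lit 0xd1) (nat_lit 1) (p (nat_lit 0x109) (nat_lit 1) (p (nat_lit 0x101) (nat_lit 0) (p (nat_lit 0x119) (nat_lit 0) (p (nat_lit 0xc9) (nat_lit 0) (p (nat_lit 0x89) (nat_lit 1) (p (nat_lit 0x41) (nat_lit 0) (p (nat_lit 0x88078907089a) (nat_lit 0) (p (nat_lit 0x87870886861a) (nat_lit 0) (p (nat_lit 0x80000000070806078a) (nat_lit 0) (p (nat_lit 0x80000000068785850a) (nat_lit 0) (p (nat_lit 0x8587050682) (nat_lit 0) (p (nat_lit 0x8506848402) (nat_lit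 0) (p (nat_lit 0x160014) (nat_lit 0) (p (nat_lit 0x160004) (nat_lit 0) (p (nat_lit 0x50612) (nat_lit 0) (p (nat_lit 0x40592) (nat_lit 0) (p (nat_lit 0x40492) (nat_lit 0) (p (nat_lit 0x30412) (nat_lit 0) (p (nat_lit 0x30212) (nat_lit 0) (p (nat_lit 0x20192) (nat_lit 0) (p (nat_lit 0x20092) (nat_lit 0) (p (nat_lit 0x10012) (nat_lit 0) pn)))))))))))))))))))))))) :=
  Cl.node (nat_lit 0xb0004) (nat_lit 2) (by decide +kernel) (ClAll.succ (ClAll.succ ClAll.zero n49) s70)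

def n70 : Cl (O (nat_lit 2)) (R (nat_lit 104465))
    (p (nat_lit 0x20000c) (nat_lit 0) (p (nat_lit 0xd1) (nat_lit 0) (p (nat_lit 0xc1) (nat_lit 0) (p (nat_lit 0x101) (nat_lit 1) (p (nat_lit 0x119) (nat_lit 0) (p (nat_lit 0xc9) (nat_lit 0) (p (nat_lit 0x89) (nat_lit 1) (p (nat_lit 0x41) (nat_lit 0) (p (nat_lit 0x88078907089a) (nat_lit 0) (p (nat_lit 0x87870886861a) (nat_lit 0) (p (nat_lit 0x80000000070806078a) (nat_lit 0) (p (nat_lit 0x80000000068785850a) (nat_lit 0) (p (nat_lit 0x8587050682) (nat_lit 0) (p (nat_lit 0x8506848402) (nat_lit 0) (p (nat_lit 0x160014) (nat_lit 0) (p (nat_lit 0x160004) (nat_lit 0) (p (nat_lit 0x50612) (nat_lit 0) (p (nat_lit 0x40592) (nat_lit 0) (p (nat_lit 0x40492) (nat_lit 0) (p (nat_lit 0x30412) (nat_lit 0) (p (nat_lit 0x30212) (nat_lit 0) (p (nat_lit 0x20192) (nat_lit 0) (p (nat_lit 0x20092) (nat_lit 0) (p (nat_lit 0x10012) (nat_lit 0) pn))))))))))))))))))))))))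 :=
  Cl.node (nat_lit 0xb0004) (nat_lit 2) (by decide +kernel) (ClAll.succ (ClAll.succ ClAll.zero n50) s74)

def n71 : Cl (O (nat_lit 2)) (R (nat_lit 104465))
    (p (nat_lit 0x20000c) (nat_lit 0) (p (nat_lit 0xd1) (nat_lit 1) (p (nat_lit 0xc1) (nat_lit 0) (p (nat_lit 0x101) (nat_lit 1) (p (nat_lit 0x119) (nat_lit 0) (p (nat_lit 0xc9) (nat_lit 0) (p (nat_lit 0x89) (nat_lit 1) (p (nat_lit 0x41) (nat_lit 0) (p (nat_lit 0x88078907089a) (nat_lit 0) (p (nat_lit 0x87870886861a) (nat_lit 0) (p (nat_lit 0x80000000070806078a) (nat_lit 0) (p (nat_lit 0x80000000068785850a) (nat_lit 0) (p (nat_lit 0x8587050682) (nat_lit 0) (p (nat_lit 0x8506848402) (nat_lit 0) (p (nat_lit 0x160014) (nat_lit 0) (p (nat_lit 0x160004) (nat_lit 0) (p (nat_lit 0x50612) (nat_lit 0) (p (nat_lit 0x40592) (nat_lit 0) (p (nat_lit 0x40492) (nat_lit 0) (p (nat_lit 0x30412) (nat_lit 0) (p (nat_lit 0x30212) (nat_lit 0) (p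 (nat_lit 0x20192) (nat_lit 0) (p (nat_lit 0x20092) (nat_lit 0) (p (nat_lit 0x10012) (nat_lit 0) pn)))))))))))))))))))))))) :=
  Cl.node (nat_lit 0xb0004) (nat_lit 2) (by decide +kernel) (ClAll.succ (ClAll.succ ClAll.zero n51) s82)

def n72 : Cl (O (nat_lit 2)) (R (nat_lit 104465))
    (p (nat_lit 0x20000c) (nat_lit 0) (p (nat_lit 0x111) (nat_lit 1) (p (nat_lit 0xd1) (nat_lit 1) (p (nat_lit 0xc1) (nat_lit 0) (p (nat_lit 0x119) (nat_lit 1) (p (nat_lit 0xc9) (nat_lit 0) (p (nat_lit 0x89) (nat_lit 1) (p (nat_lit 0x41) (nat_lit 0) (p (nat_lit 0x88078907089a) (nat_lit 0) (p (nat_lit 0x87870886861a) (nat_lit 0) (p (nat_lit 0x80000000070806078a) (nat_lit 0) (p (nat_lit 0x80000000068785850a) (nat_lit 0) (p (nat_lit 0x8587050682) (nat_lit 0) (p (nat_lit 0x8506848402) (nat_lit 0) (p (nat_lit 0x160014) (nat_lit 0) (p (nat_lit 0x160004) (nat_lit 0) (p (nat_lit 0x50612) (nat_lit 0) (p (nat_lit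 0x40592) (nat_lit 0) (p (nat_lit 0x40492) (nat_lit 0) (p (nat_lit 0x30412) (nat_lit 0) (p (nat_lit 0x30212) (nat_lit 0) (p (nat_lit 0x20192) (nat_lit 0) (p (nat_lit 0x20092) (nat_lit 0) (p (nat_lit 0x10012) (nat_lit 0) pn)))))))))))))))))))))))) :=
  Cl.node (nat_lit 0xb0004) (nat_lit 2) (by decide +kernel) (ClAll.succ (ClAll.succ ClAll.zero n52) s89)

def n73 : Cl (O (nat_lit 2)) (R (nat_lit 104465))
    (p (nat_lit 0x20000c) (nat_lit 0) (p (nat_lit 0x111) (nat_lit 1) (p (nat_lit 0x101) (nat_lit 0) (p (nat_lit 0xc1) (nat_lit 1) (p (nat_lit 0x119) (nat_lit 1) (p (nat_lit 0xc9) (nat_lit 0) (p (nat_lit 0x89) (nat_lit 1) (p (nat_lit 0x41) (nat_lit 0) (p (nat_lit 0x88078907089a) (nat_lit 0) (p (nat_lit 0x87870886861a) (nat_lit 0) (p (nat_lit 0x80000000070806078a) (nat_lit 0) (p (nat_lit 0x80000000068785850a) (nat_lit 0) (p (nat_lit 0x8587050682) (nat_lit 0) (p (nat_lit 0x8506848402)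 (nat_lit 0) (p (nat_lit 0x160014) (nat_lit 0) (p (nat_lit 0x160004) (nat_lit 0) (p (nat_lit 0x50612) (nat_lit 0) (p (nat_lit 0x40592) (nat_lit 0) (p (nat_lit 0x40492) (nat_lit 0) (p (nat_lit 0x30412) (nat_lit 0) (p (nat_lit 0x30212) (nat_lit 0) (p (nat_lit 0x20192) (nat_lit 0) (p (nat_lit 0x20092) (nat_lit 0) (p (nat_lit 0x10012) (nat_lit 0) pn)))))))))))))))))))))))) :=
  Cl.node (nat_lit 0xb0004) (nat_lit 2) (by decide +kernel) (ClAll.succ (ClAll.succ ClAll.zero n53) s97)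

def n74 : Cl (O (nat_lit 2)) (R (nat_lit 104465))
    (p (nat_lit 0x20000c) (nat_lit 0) (p (nat_lit 0x89) (nat_lit 0) (p (nat_lit 0x109) (nat_lit 1) (p (nat_lit 0x101) (nat_lit 0) (p (nat_lit 0x119) (nat_lit 0) (p (nat_lit 0xd1) (nat_lit 0) (p (nat_lit 0x81) (nat_lit 0) (p (nat_lit 0x41) (nat_lit 1) (p (nat_lit 0x88078907089a) (nat_lit 0) (p (nat_lit 0x87870886861a) (nat_lit 0) (p (nat_lit 0x80000000070806078a) (nat_lit 0) (p (nat_lit 0x80000000068785850a) (nat_lit 0) (p (nat_lit 0x8587050682) (nat_lit 0) (p (nat_lit 0x8506848402) (nat_lit 0) (p (nat_lit 0x160014) (nat_lit 0) (p (nat_lit 0x160004) (nat_lit 0) (p (nat_lit 0x50612) (nat_lit 0) (p (nat_lit 0x40592) (nat_lit 0) (p (nat_lit 0x40492) (nat_lit 0) (p (nat_lit 0x30412) (nat_lit 0) (p (nat_lit 0x30212) (nat_lit 0) (p (nat_lit 0x20192) (nat_lit 0) (p (nat_lit 0x20092) (nat_lit 0) (p (nat_lit 0x10012) (nat_lit 0) pn))))))))))))))))))))))))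 :=
  Cl.node (nat_lit 0x111) (nat_lit 2) (by decide +kernel) (ClAll.succ (ClAll.succ ClAll.zero s105) s106)

def n75 : Cl (O (nat_lit 2)) (R (nat_lit 104465))
    (p (nat_lit 0x20000c) (nat_lit 0) (p (nat_lit 0x89) (nat_lit 1) (p (nat_lit 0xc1) (nat_lit 1) (p (nat_lit 0x101) (nat_lit 1) (p (nat_lit 0x119) (nat_lit 0) (p (nat_lit 0xd1) (nat_lit 0) (p (nat_lit 0x81) (nat_lit 0) (p (nat_lit 0x41) (nat_lit 1) (p (nat_lit 0x88078907089a) (nat_lit 0) (p (nat_lit 0x87870886861a) (nat_lit 0) (p (nat_lit 0x80000000070806078a) (nat_lit 0) (p (nat_lit 0x80000000068785850a) (nat_lit 0) (p (nat_lit 0x8587050682) (nat_lit 0) (p (nat_lit 0x8506848402) (nat_lit 0) (p (nat_lit 0x160014) (nat_lit 0) (p (nat_lit 0x160004) (nat_lit 0) (p (nat_lit 0x50612) (nat_lit 0) (p (nat_lit 0x40592) (nat_lit 0) (p (nat_lit 0x40492) (nat_lit 0) (p (nat_lit 0x30412) (nat_lit 0) (p (nat_lit 0x30212) (nat_lit 0) (p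 (nat_lit 0x20192) (nat_lit 0) (p (nat_lit 0x20092) (nat_lit 0) (p (nat_lit 0x10012) (nat_lit 0) pn)))))))))))))))))))))))) :=
  Cl.node (nat_lit 0xb0004) (nat_lit 2) (by decide +kernel) (ClAll.succ (ClAll.succ ClAll.zero n54) n55)

def n76 : Cl (O (nat_lit 2)) (R (nat_lit 104465))
    (p (nat_lit 0x109) (nat_lit 1) (p (nat_lit 0x89) (nat_lit 1) (p (nat_lit 0x101) (nat_lit 0) (p (nat_lit 0xc1) (nat_lit 1) (p (nat_lit 0x119) (nat_lit 1) (p (nat_lit 0xd1) (nat_lit 0) (p (nat_lit 0x81) (nat_lit 0) (p (nat_lit 0x41) (nat_lit 1) (p (nat_lit 0x88078907089a) (nat_lit 0) (p (nat_lit 0x87870886861a) (nat_lit 0) (p (nat_lit 0x80000000070806078a) (nat_lit 0) (p (nat_lit 0x80000000068785850a) (nat_lit 0) (p (nat_lit 0x8587050682) (nat_lit 0) (p (nat_lit 0x8506848402) (nat_lit 0) (p (nat_lit 0x160014) (nat_lit 0) (p (nat_lit 0x160004) (nat_lit 0) (p (nat_lit 0x50612) (nat_lit 0) (p (nat_lit 0x40592)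 (nat_lit 0) (p (nat_lit 0x40492) (nat_lit 0) (p (nat_lit 0x30412) (nat_lit 0) (p (nat_lit 0x30212) (nat_lit 0) (p (nat_lit 0x20192) (nat_lit 0) (p (nat_lit 0x20092) (nat_lit 0) (p (nat_lit 0x10012) (nat_lit 0) pn)))))))))))))))))))))))) :=
  Cl.node (nat_lit 0x20000c) (nat_lit 2) (by decide +kernel) (ClAll.succ (ClAll.succ ClAll.zero n56) s128)

def n77 : Cl (O (nat_lit 2)) (R (nat_lit 104465))
    (p (nat_lit 0x20000c) (nat_lit 0) (p (nat_lit 0x89) (nat_lit 1) (p (nat_lit 0x101) (nat_lit 1) (p (nat_lit 0xc1) (nat_lit 1) (p (nat_lit 0x119) (nat_lit 1) (p (nat_lit 0xd1) (nat_lit 0) (p (nat_lit 0x81) (nat_lit 0) (p (nat_lit 0x41) (nat_lit 1) (p (nat_lit 0x88078907089a) (nat_lit 0) (p (nat_lit 0x87870886861a) (nat_lit 0) (p (nat_lit 0x80000000070806078a) (nat_lit 0) (p (nat_lit 0x80000000068785850a) (nat_lit 0) (p (nat_lit 0x8587050682) (nat_lit 0) (p (nat_lit 0x8506848402) (nat_lit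 0) (p (nat_lit 0x160014) (nat_lit 0) (p (nat_lit 0x160004) (nat_lit 0) (p (nat_lit 0x50612) (nat_lit 0) (p (nat_lit 0x40592) (nat_lit 0) (p (nat_lit 0x40492) (nat_lit 0) (p (nat_lit 0x30412) (nat_lit 0) (p (nat_lit 0x30212) (nat_lit 0) (p (nat_lit 0x20192) (nat_lit 0) (p (nat_lit 0x20092) (nat_lit 0) (p (nat_lit 0x10012) (nat_lit 0) pn)))))))))))))))))))))))) :=
  Cl.node (nat_lit 0xb0004) (nat_lit 2) (by decide +kernel) (ClAll.succ (ClAll.succ ClAll.zero n57) s132)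

def n78 : Cl (O (nat_lit 2)) (R (nat_lit 104465))
    (p (nat_lit 0xc9) (nat_lit 0) (p (nat_lit 0x89) (nat_lit 1) (p (nat_lit 0x109) (nat_lit 1) (p (nat_lit 0x101) (nat_lit 0) (p (nat_lit 0x111) (nat_lit 0) (p (nat_lit 0xd1) (nat_lit 1) (p (nat_lit 0x81) (nat_lit 0) (p (nat_lit 0x41) (nat_lit 1) (p (nat_lit 0x88078907089a) (nat_lit 0) (p (nat_lit 0x87870886861a) (nat_lit 0) (p (nat_lit 0x80000000070806078a) (nat_lit 0) (p (nat_lit 0x80000000068785850a) (nat_lit 0) (p (nat_lit 0x8587050682) (nat_lit 0) (p (nat_lit 0x8506848402) (nat_lit 0) (p (nat_lit 0x160014) (nat_lit 0) (p (nat_lit 0x160004) (nat_lit 0) (p (nat_lit 0x50612) (nat_lit 0) (p (nat_lit 0x40592) (nat_lit 0) (p (nat_lit 0x40492) (nat_lit 0) (p (nat_lit 0x30412) (nat_lit 0) (p (nat_lit 0x30212) (nat_lit 0) (p (nat_lit 0x20192) (nat_lit 0) (p (nat_lit 0x20092) (nat_lit 0) (p (nat_lit 0x10012) (nat_lit 0) pn))))))))))))))))))))))))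 :=
  Cl.node (nat_lit 0x20000c) (nat_lit 2) (by decide +kernel) (ClAll.succ (ClAll.succ ClAll.zero n58) s139)

def n79 : Cl (O (nat_lit 2)) (R (nat_lit 104465))
    (p (nat_lit 0xb0004) (nat_lit 0) (p (nat_lit 0x20000c) (nat_lit 0) (p (nat_lit 0x89) (nat_lit 0) (p (nat_lit 0x101) (nat_lit 1) (p (nat_lit 0x111) (nat_lit 0) (p (nat_lit 0xd1) (nat_lit 1) (p (nat_lit 0x81) (nat_lit 0) (p (nat_lit 0x41) (nat_lit 1) (p (nat_lit 0x88078907089a) (nat_lit 0) (p (nat_lit 0x87870886861a) (nat_lit 0) (p (nat_lit 0x80000000070806078a) (nat_lit 0) (p (nat_lit 0x80000000068785850a) (nat_lit 0) (p (nat_lit 0x8587050682) (nat_lit 0) (p (nat_lit 0x8506848402) (nat_lit 0) (p (nat_lit 0x160014) (nat_lit 0) (p (nat_lit 0x160004) (nat_lit 0) (p (nat_lit 0x50612) (nat_lit 0) (p (nat_lit 0x40592) (nat_lit 0) (p (nat_lit 0x40492) (nat_lit 0) (p (nat_lit 0x30412) (nat_lit 0) (p (nat_lit 0x30212) (nat_lit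 0) (p (nat_lit 0x20192) (nat_lit 0) (p (nat_lit 0x20092) (nat_lit 0) (p (nat_lit 0x10012) (nat_lit 0) pn)))))))))))))))))))))))) :=
  Cl.node (nat_lit 0xb0014) (nat_lit 2) (by decide +kernel) (ClAll.succ (ClAll.succ ClAll.zero s141) s142)

def n80 : Cl (O (nat_lit 2)) (R (nat_lit 104465))
    (p (nat_lit 0x20000c) (nat_lit 0) (p (nat_lit 0xc9) (nat_lit 0) (p (nat_lit 0x89) (nat_lit 1) (p (nat_lit 0x101) (nat_lit 1) (p (nat_lit 0x111) (nat_lit 0) (p (nat_lit 0xd1) (nat_lit 1) (p (nat_lit 0x81) (nat_lit 0) (p (nat_lit 0x41) (nat_lit 1) (p (nat_lit 0x88078907089a) (nat_lit 0) (p (nat_lit 0x87870886861a) (nat_lit 0) (p (nat_lit 0x80000000070806078a) (nat_lit 0) (p (nat_lit 0x80000000068785850a) (nat_lit 0) (p (nat_lit 0x8587050682) (nat_lit 0) (p (nat_lit 0x8506848402) (nat_lit 0) (p (nat_lit 0x160014) (nat_lit 0) (p (nat_lit 0x160004) (nat_lit 0) (p (nat_lit 0x50612) (nat_lit 0) (p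 (nat_lit 0x40592) (nat_lit 0) (p (nat_lit 0x40492) (nat_lit 0) (p (nat_lit 0x30412) (nat_lit 0) (p (nat_lit 0x30212) (nat_lit 0) (p (nat_lit 0x20192) (nat_lit 0) (p (nat_lit 0x20092) (nat_lit 0) (p (nat_lit 0x10012) (nat_lit 0) pn)))))))))))))))))))))))) :=
  Cl.node (nat_lit 0xb0004) (nat_lit 2) (by decide +kernel) (ClAll.succ (ClAll.succ ClAll.zero n59) s147)

def n81 : Cl (O (nat_lit 2)) (R (nat_lit 104465))
    (p (nat_lit 0x20000c) (nat_lit 0) (p (nat_lit 0xd1) (nat_lit 0) (p (nat_lit 0xc9) (nat_lit 0) (p (nat_lit 0x101) (nat_lit 1) (p (nat_lit 0x119) (nat_lit 0) (p (nat_lit 0xc1) (nat_lit 0) (p (nat_lit 0x81) (nat_lit 1) (p (nat_lit 0x41) (nat_lit 1) (p (nat_lit 0x88078907089a) (nat_lit 0) (p (nat_lit 0x87870886861a) (nat_lit 0) (p (nat_lit 0x80000000070806078a) (nat_lit 0) (p (nat_lit 0x80000000068785850a) (nat_lit 0) (p (nat_lit 0x8587050682) (nat_lit 0) (p (nat_lit 0x8506848402)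 (nat_lit 0) (p (nat_lit 0x160014) (nat_lit 0) (p (nat_lit 0x160004) (nat_lit 0) (p (nat_lit 0x50612) (nat_lit 0) (p (nat_lit 0x40592) (nat_lit 0) (p (nat_lit 0x40492) (nat_lit 0) (p (nat_lit 0x30412) (nat_lit 0) (p (nat_lit 0x30212) (nat_lit 0) (p (nat_lit 0x20192) (nat_lit 0) (p (nat_lit 0x20092) (nat_lit 0) (p (nat_lit 0x10012) (nat_lit 0) pn)))))))))))))))))))))))) :=
  Cl.node (nat_lit 0xb0004) (nat_lit 2) (by decide +kernel) (ClAll.succ (ClAll.succ ClAll.zero s160) s161)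

def n82 : Cl (O (nat_lit 2)) (R (nat_lit 104465))
    (p (nat_lit 0x20000c) (nat_lit 0) (p (nat_lit 0xd1) (nat_lit 1) (p (nat_lit 0xc9) (nat_lit 0) (p (nat_lit 0x101) (nat_lit 1) (p (nat_lit 0x119) (nat_lit 0) (p (nat_lit 0xc1) (nat_lit 0) (p (nat_lit 0x81) (nat_lit 1) (p (nat_lit 0x41) (nat_lit 1) (p (nat_lit 0x88078907089a) (nat_lit 0) (p (nat_lit 0x87870886861a) (nat_lit 0) (p (nat_lit 0x80000000070806078a) (nat_lit 0) (p (nat_lit 0x80000000068785850a) (nat_lit 0) (p (nat_lit 0x8587050682) (nat_lit 0) (p (nat_lit 0x8506848402) (nat_lit 0) (p (nat_lit 0x160014) (nat_lit 0) (p (nat_lit 0x160004) (nat_lit 0) (p (nat_lit 0x50612) (nat_lit 0) (p (nat_lit 0x40592) (nat_lit 0) (p (nat_lit 0x40492) (nat_lit 0) (p (nat_lit 0x30412) (nat_lit 0) (p (nat_lit 0x30212) (nat_lit 0) (p (nat_lit 0x20192) (nat_lit 0) (p (nat_lit 0x20092) (nat_lit 0) (p (nat_lit 0x10012) (nat_lit 0) pn))))))))))))))))))))))))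 :=
  Cl.node (nat_lit 0xb0004) (nat_lit 2) (by decide +kernel) (ClAll.succ (ClAll.succ ClAll.zero s163) s164)

def n83 : Cl (O (nat_lit 2)) (R (nat_lit 104465))
    (p (nat_lit 0x20000c) (nat_lit 0) (p (nat_lit 0x111) (nat_lit 1) (p (nat_lit 0x109) (nat_lit 0) (p (nat_lit 0xc9) (nat_lit 1) (p (nat_lit 0x119) (nat_lit 1) (p (nat_lit 0xc1) (nat_lit 0) (p (nat_lit 0x81) (nat_lit 1) (p (nat_lit 0x41) (nat_lit 1) (p (nat_lit 0x88078907089a) (nat_lit 0) (p (nat_lit 0x87870886861a) (nat_lit 0) (p (nat_lit 0x80000000070806078a) (nat_lit 0) (p (nat_lit 0x80000000068785850a) (nat_lit 0) (p (nat_lit 0x8587050682) (nat_lit 0) (p (nat_lit 0x8506848402) (nat_lit 0) (p (nat_lit 0x160014) (nat_lit 0) (p (nat_lit 0x160004) (nat_lit 0) (p (nat_lit 0x50612) (nat_lit 0) (p (nat_lit 0x40592) (nat_lit 0) (p (nat_lit 0x40492) (nat_lit 0) (p (nat_lit 0x30412) (nat_lit 0) (p (nat_lit 0x30212) (nat_lit 0)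 (p (nat_lit 0x20192) (nat_lit 0) (p (nat_lit 0x20092) (nat_lit 0) (p (nat_lit 0x10012) (nat_lit 0) pn)))))))))))))))))))))))) :=
  Cl.node (nat_lit 0xb0004) (nat_lit 2) (by decide +kernel) (ClAll.succ (ClAll.succ ClAll.zero s169) s170)

def n84 : Cl (O (nat_lit 2)) (R (nat_lit 104465))
    (p (nat_lit 0xc9) (nat_lit 1) (p (nat_lit 0x109) (nat_lit 1) (p (nat_lit 0x101) (nat_lit 0) (p (nat_lit 0x119) (nat_lit 0) (p (nat_lit 0xd1) (nat_lit 0) (p (nat_lit 0x89) (nat_lit 0) (p (nat_lit 0x41) (nat_lit 0) (p (nat_lit 0x88078907089a) (nat_lit 0) (p (nat_lit 0x87870886861a) (nat_lit 0) (p (nat_lit 0x80000000070806078a) (nat_lit 0) (p (nat_lit 0x80000000068785850a) (nat_lit 0) (p (nat_lit 0x8587050682) (nat_lit 0) (p (nat_lit 0x8506848402) (nat_lit 0) (p (nat_lit 0x160014) (nat_lit 0) (p (nat_lit 0x160004) (nat_lit 0) (p (nat_lit 0x50612) (nat_lit 0) (p (nat_lit 0x40592) (nat_lit 0) (p (nat_lit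 0x40492) (nat_lit 0) (p (nat_lit 0x30412) (nat_lit 0) (p (nat_lit 0x30212) (nat_lit 0) (p (nat_lit 0x20192) (nat_lit 0) (p (nat_lit 0x20092) (nat_lit 0) (p (nat_lit 0x10012) (nat_lit 0) pn))))))))))))))))))))))) :=
  Cl.node (nat_lit 0x20000c) (nat_lit 2) (by decide +kernel) (ClAll.succ (ClAll.succ ClAll.zero n60) s5)

def n85 : Cl (O (nat_lit 2)) (R (nat_lit 104465))
    (p (nat_lit 0xc9) (nat_lit 1) (p (nat_lit 0x81) (nat_lit 0) (p (nat_lit 0x101) (nat_lit 1) (p (nat_lit 0x119) (nat_lit 0) (p (nat_lit 0xd1) (nat_lit 0) (p (nat_lit 0x89) (nat_lit 0) (p (nat_lit 0x41) (nat_lit 0) (p (nat_lit 0x88078907089a) (nat_lit 0) (p (nat_lit 0x87870886861a) (nat_lit 0) (p (nat_lit 0x80000000070806078a) (nat_lit 0) (p (nat_lit 0x80000000068785850a) (nat_lit 0) (p (nat_lit 0x8587050682) (nat_lit 0) (p (nat_lit 0x8506848402) (nat_lit 0) (p (nat_lit 0x160014) (nat_lit 0) (p (nat_lit 0x160004) (nat_lit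 0) (p (nat_lit 0x50612) (nat_lit 0) (p (nat_lit 0x40592) (nat_lit 0) (p (nat_lit 0x40492) (nat_lit 0) (p (nat_lit 0x30412) (nat_lit 0) (p (nat_lit 0x30212) (nat_lit 0) (p (nat_lit 0x20192) (nat_lit 0) (p (nat_lit 0x20092) (nat_lit 0) (p (nat_lit 0x10012) (nat_lit 0) pn))))))))))))))))))))))) :=
  Cl.node (nat_lit 0x20000c) (nat_lit 2) (by decide +kernel) (ClAll.succ (ClAll.succ ClAll.zero n61) s12)

def n86 : Cl (O (nat_lit 2)) (R (nat_lit 104465))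
    (p (nat_lit 0xc1) (nat_lit 0) (p (nat_lit 0x81) (nat_lit 1) (p (nat_lit 0x101) (nat_lit 1) (p (nat_lit 0x119) (nat_lit 0) (p (nat_lit 0xd1) (nat_lit 0) (p (nat_lit 0x89) (nat_lit 0) (p (nat_lit 0x41) (nat_lit 0) (p (nat_lit 0x88078907089a) (nat_lit 0) (p (nat_lit 0x87870886861a) (nat_lit 0) (p (nat_lit 0x80000000070806078a) (nat_lit 0) (p (nat_lit 0x80000000068785850a) (nat_lit 0) (p (nat_lit 0x8587050682) (nat_lit 0) (p (nat_lit 0x8506848402) (nat_lit 0) (p (nat_lit 0x160014) (nat_lit 0) (p (nat_lit 0x160004) (nat_lit 0) (p (nat_lit 0x50612) (nat_lit 0) (p (nat_lit 0x40592) (nat_lit 0) (p (nat_lit 0x40492) (nat_lit 0) (p (nat_lit 0x30412) (nat_lit 0) (p (nat_lit 0x30212) (nat_lit 0) (p (nat_lit 0x20192) (nat_lit 0) (p (nat_lit 0x20092) (nat_lit 0) (p (nat_lit 0x10012) (nat_lit 0) pn))))))))))))))))))))))) :=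
  Cl.node (nat_lit 0xc9) (nat_lit 2) (by decide +kernel) (ClAll.succ (ClAll.succ ClAll.zero s13) n62)

def n87 : Cl (O (nat_lit 2)) (R (nat_lit 104465))
    (p (nat_lit 0x101) (nat_lit 0) (p (nat_lit 0x81) (nat_lit 1) (p (nat_lit 0xc1) (nat_lit 1) (p (nat_lit 0x119) (nat_lit 1) (p (nat_lit 0xd1) (nat_lit 0) (p (nat_lit 0x89) (nat_lit 0) (p (nat_lit 0x41) (nat_lit 0) (p (nat_lit 0x88078907089a) (nat_lit 0) (p (nat_lit 0x87870886861a) (nat_lit 0) (p (nat_lit 0x80000000070806078a) (nat_lit 0) (p (nat_lit 0x80000000068785850a) (nat_lit 0) (p (nat_lit 0x8587050682) (nat_lit 0) (p (nat_lit 0x8506848402) (nat_lit 0) (p (nat_lit 0x160014) (nat_lit 0) (p (nat_lit 0x160004) (nat_lit 0) (p (nat_lit 0x50612) (nat_lit 0) (p (nat_lit 0x40592) (nat_lit 0) (p (nat_lit 0x40492) (nat_lit 0) (p (nat_lit 0x30412) (nat_lit 0) (p (nat_lit 0x30212) (nat_lit 0) (p (nat_lit 0x20192) (nat_lit 0) (p (nat_lit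 0x20092) (nat_lit 0) (p (nat_lit 0x10012) (nat_lit 0) pn))))))))))))))))))))))) :=
  Cl.node (nat_lit 0x109) (nat_lit 2) (by decide +kernel) (ClAll.succ (ClAll.succ ClAll.zero s22) n63)

def n88 : Cl (O (nat_lit 2)) (R (nat_lit 104465))
    (p (nat_lit 0x20000c) (nat_lit 0) (p (nat_lit 0x109) (nat_lit 1) (p (nat_lit 0x101) (nat_lit 0) (p (nat_lit 0x111) (nat_lit 0) (p (nat_lit 0xd1) (nat_lit 1) (p (nat_lit 0x89) (nat_lit 0) (p (nat_lit 0x41) (nat_lit 0) (p (nat_lit 0x88078907089a) (nat_lit 0) (p (nat_lit 0x87870886861a) (nat_lit 0) (p (nat_lit 0x80000000070806078a) (nat_lit 0) (p (nat_lit 0x80000000068785850a) (nat_lit 0) (p (nat_lit 0x8587050682) (nat_lit 0) (p (nat_lit 0x8506848402) (nat_lit 0) (p (nat_lit 0x160014) (nat_lit 0) (p (nat_lit 0x160004) (nat_lit 0) (p (nat_lit 0x50612) (nat_lit 0) (p (nat_lit 0x40592) (nat_lit 0) (p (nat_lit 0x40492) (nat_lit 0) (p (nat_lit 0x30412)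 (nat_lit 0) (p (nat_lit 0x30212) (nat_lit 0) (p (nat_lit 0x20192) (nat_lit 0) (p (nat_lit 0x20092) (nat_lit 0) (p (nat_lit 0x10012) (nat_lit 0) pn))))))))))))))))))))))) :=
  Cl.node (nat_lit 0xc1) (nat_lit 2) (by decide +kernel) (ClAll.succ (ClAll.succ ClAll.zero s29) n64)

def n89 : Cl (O (nat_lit 2)) (R (nat_lit 104465))
    (p (nat_lit 0x20000c) (nat_lit 0) (p (nat_lit 0x81) (nat_lit 0) (p (nat_lit 0x101) (nat_lit 1) (p (nat_lit 0x111) (nat_lit 0) (p (nat_lit 0xd1) (nat_lit 1) (p (nat_lit 0x89) (nat_lit 0) (p (nat_lit 0x41) (nat_lit 0) (p (nat_lit 0x88078907089a) (nat_lit 0) (p (nat_lit 0x87870886861a) (nat_lit 0) (p (nat_lit 0x80000000070806078a) (nat_lit 0) (p (nat_lit 0x80000000068785850a) (nat_lit 0) (p (nat_lit 0x8587050682) (nat_lit 0) (p (nat_lit 0x8506848402) (nat_lit 0) (p (nat_lit 0x160014) (nat_lit 0) (p (nat_lit 0x160004) (nat_lit 0) (p (nat_lit 0x50612) (nat_lit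 0) (p (nat_lit 0x40592) (nat_lit 0) (p (nat_lit 0x40492) (nat_lit 0) (p (nat_lit 0x30412) (nat_lit 0) (p (nat_lit 0x30212) (nat_lit 0) (p (nat_lit 0x20192) (nat_lit 0) (p (nat_lit 0x20092) (nat_lit 0) (p (nat_lit 0x10012) (nat_lit 0) pn))))))))))))))))))))))) :=
  Cl.node (nat_lit 0x119) (nat_lit 2) (by decide +kernel) (ClAll.succ (ClAll.succ ClAll.zero n65) s36)

def n90 : Cl (O (nat_lit 2)) (R (nat_lit 104465))
    (p (nat_lit 0xc1) (nat_lit 0) (p (nat_lit 0x81) (nat_lit 1) (p (nat_lit 0x101) (nat_lit 1) (p (nat_lit 0x111) (nat_lit 0) (p (nat_lit 0xd1) (nat_lit 1) (p (nat_lit 0x89) (nat_lit 0) (p (nat_lit 0x41) (nat_lit 0) (p (nat_lit 0x88078907089a) (nat_lit 0) (p (nat_lit 0x87870886861a) (nat_lit 0) (p (nat_lit 0x80000000070806078a) (nat_lit 0) (p (nat_lit 0x80000000068785850a) (nat_lit 0) (p (nat_lit 0x8587050682) (nat_lit 0) (p (nat_lit 0x8506848402) (nat_lit 0) (p (nat_lit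 0x160014) (nat_lit 0) (p (nat_lit 0x160004) (nat_lit 0) (p (nat_lit 0x50612) (nat_lit 0) (p (nat_lit 0x40592) (nat_lit 0) (p (nat_lit 0x40492) (nat_lit 0) (p (nat_lit 0x30412) (nat_lit 0) (p (nat_lit 0x30212) (nat_lit 0) (p (nat_lit 0x20192) (nat_lit 0) (p (nat_lit 0x20092) (nat_lit 0) (p (nat_lit 0x10012) (nat_lit 0) pn))))))))))))))))))))))) :=
  Cl.node (nat_lit 0x20000c) (nat_lit 2) (by decide +kernel) (ClAll.succ (ClAll.succ ClAll.zero n66) s43)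

def n91 : Cl (O (nat_lit 2)) (R (nat_lit 104465))
    (p (nat_lit 0x111) (nat_lit 1) (p (nat_lit 0x109) (nat_lit 0) (p (nat_lit 0x101) (nat_lit 0) (p (nat_lit 0x119) (nat_lit 0) (p (nat_lit 0xc9) (nat_lit 0) (p (nat_lit 0x89) (nat_lit 1) (p (nat_lit 0x41) (nat_lit 0) (p (nat_lit 0x88078907089a) (nat_lit 0) (p (nat_lit 0x87870886861a) (nat_lit 0) (p (nat_lit 0x80000000070806078a) (nat_lit 0) (p (nat_lit 0x80000000068785850a) (nat_lit 0) (p (nat_lit 0x8587050682) (nat_lit 0) (p (nat_lit 0x8506848402) (nat_lit 0) (p (nat_lit 0x160014) (nat_lit 0) (p (nat_lit 0x160004) (nat_lit 0) (p (nat_lit 0x50612) (nat_lit 0) (p (nat_lit 0x40592) (nat_lit 0) (p (nat_lit 0x40492) (nat_lit 0) (p (nat_lit 0x30412) (nat_lit 0) (p (nat_lit 0x30212) (nat_lit 0) (p (nat_lit 0x20192) (nat_lit 0) (p (nat_lit 0x20092) (nat_lit 0) (p (nat_lit 0x10012) (nat_lit 0) pn))))))))))))))))))))))) :=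
  Cl.node (nat_lit 0xd1) (nat_lit 2) (by decide +kernel) (ClAll.succ (ClAll.succ ClAll.zero s50) n67)

def n92 : Cl (O (nat_lit 2)) (R (nat_lit 104465))
    (p (nat_lit 0xd1) (nat_lit 0) (p (nat_lit 0x109) (nat_lit 1) (p (nat_lit 0x101) (nat_lit 0) (p (nat_lit 0x119) (nat_lit 0) (p (nat_lit 0xc9) (nat_lit 0) (p (nat_lit 0x89) (nat_lit 1) (p (nat_lit 0x41) (nat_lit 0) (p (nat_lit 0x88078907089a) (nat_lit 0) (p (nat_lit 0x87870886861a) (nat_lit 0) (p (nat_lit 0x80000000070806078a) (nat_lit 0) (p (nat_lit 0x80000000068785850a) (nat_lit 0) (p (nat_lit 0x8587050682) (nat_lit 0) (p (nat_lit 0x8506848402) (nat_lit 0) (p (nat_lit 0x160014) (nat_lit 0) (p (nat_lit 0x160004) (nat_lit 0) (p (nat_lit 0x50612) (nat_lit 0) (p (nat_lit 0x40592) (nat_lit 0) (p (nat_lit 0x40492) (nat_lit 0) (p (nat_lit 0x30412) (nat_lit 0) (p (nat_lit 0x30212) (nat_lit 0) (p (nat_lit 0x20192) (nat_lit 0) (p (nat_lit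 0x20092) (nat_lit 0) (p (nat_lit 0x10012) (nat_lit 0) pn))))))))))))))))))))))) :=
  Cl.node (nat_lit 0x20000c) (nat_lit 2) (by decide +kernel) (ClAll.succ (ClAll.succ ClAll.zero n68) s59)

def n93 : Cl (O (nat_lit 2)) (R (nat_lit 104465))
    (p (nat_lit 0xd1) (nat_lit 1) (p (nat_lit 0x109) (nat_lit 1) (p (nat_lit 0x101) (nat_lit 0) (p (nat_lit 0x119) (nat_lit 0) (p (nat_lit 0xc9) (nat_lit 0) (p (nat_lit 0x89) (nat_lit 1) (p (nat_lit 0x41) (nat_lit 0) (p (nat_lit 0x88078907089a) (nat_lit 0) (p (nat_lit 0x87870886861a) (nat_lit 0) (p (nat_lit 0x80000000070806078a) (nat_lit 0) (p (nat_lit 0x80000000068785850a) (nat_lit 0) (p (nat_lit 0x8587050682) (nat_lit 0) (p (nat_lit 0x8506848402) (nat_lit 0) (p (nat_lit 0x160014) (nat_lit 0) (p (nat_lit 0x160004) (nat_lit 0) (p (nat_lit 0x50612) (nat_lit 0) (p (nat_lit 0x40592) (nat_lit 0) (p (nat_lit 0x40492) (nat_lit 0) (p (nat_lit 0x30412)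 (nat_lit 0) (p (nat_lit 0x30212) (nat_lit 0) (p (nat_lit 0x20192) (nat_lit 0) (p (nat_lit 0x20092) (nat_lit 0) (p (nat_lit 0x10012) (nat_lit 0) pn))))))))))))))))))))))) :=
  Cl.node (nat_lit 0x20000c) (nat_lit 2) (by decide +kernel) (ClAll.succ (ClAll.succ ClAll.zero n69) s71)

def n94 : Cl (O (nat_lit 2)) (R (nat_lit 104465))
    (p (nat_lit 0xd1) (nat_lit 0) (p (nat_lit 0xc1) (nat_lit 0) (p (nat_lit 0x101) (nat_lit 1) (p (nat_lit 0x119) (nat_lit 0) (p (nat_lit 0xc9) (nat_lit 0) (p (nat_lit 0x89) (nat_lit 1) (p (nat_lit 0x41) (nat_lit 0) (p (nat_lit 0x88078907089a) (nat_lit 0) (p (nat_lit 0x87870886861a) (nat_lit 0) (p (nat_lit 0x80000000070806078a) (nat_lit 0) (p (nat_lit 0x80000000068785850a) (nat_lit 0) (p (nat_lit 0x8587050682) (nat_lit 0) (p (nat_lit 0x8506848402) (nat_lit 0) (p (nat_lit 0x160014) (nat_lit 0) (p (nat_lit 0x160004) (nat_lit 0) (p (nat_lit 0x50612) (nat_lit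 0) (p (nat_lit 0x40592) (nat_lit 0) (p (nat_lit 0x40492) (nat_lit 0) (p (nat_lit 0x30412) (nat_lit 0) (p (nat_lit 0x30212) (nat_lit 0) (p (nat_lit 0x20192) (nat_lit 0) (p (nat_lit 0x20092) (nat_lit 0) (p (nat_lit 0x10012) (nat_lit 0) pn))))))))))))))))))))))) :=
  Cl.node (nat_lit 0x20000c) (nat_lit 2) (by decide +kernel) (ClAll.succ (ClAll.succ ClAll.zero n70) s75)

def n95 : Cl (O (nat_lit 2)) (R (nat_lit 104465))
    (p (nat_lit 0xd1) (nat_lit 1) (p (nat_lit 0xc1) (nat_lit 0) (p (nat_lit 0x101) (nat_lit 1) (p (nat_lit 0x119) (nat_lit 0) (p (nat_lit 0xc9) (nat_lit 0) (p (nat_lit 0x89) (nat_lit 1) (p (nat_lit 0x41) (nat_lit 0) (p (nat_lit 0x88078907089a) (nat_lit 0) (p (nat_lit 0x87870886861a) (nat_lit 0) (p (nat_lit 0x80000000070806078a) (nat_lit 0) (p (nat_lit 0x80000000068785850a) (nat_lit 0) (p (nat_lit 0x8587050682) (nat_lit 0) (p (nat_lit 0x8506848402) (nat_lit 0) (p (nat_lit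 0x160014) (nat_lit 0) (p (nat_lit 0x160004) (nat_lit 0) (p (nat_lit 0x50612) (nat_lit 0) (p (nat_lit 0x40592) (nat_lit 0) (p (nat_lit 0x40492) (nat_lit 0) (p (nat_lit 0x30412) (nat_lit 0) (p (nat_lit 0x30212) (nat_lit 0) (p (nat_lit 0x20192) (nat_lit 0) (p (nat_lit 0x20092) (nat_lit 0) (p (nat_lit 0x10012) (nat_lit 0) pn))))))))))))))))))))))) :=
  Cl.node (nat_lit 0x20000c) (nat_lit 2) (by decide +kernel) (ClAll.succ (ClAll.succ ClAll.zero n71) s83)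

def n96 : Cl (O (nat_lit 2)) (R (nat_lit 104465))
    (p (nat_lit 0x111) (nat_lit 1) (p (nat_lit 0xd1) (nat_lit 1) (p (nat_lit 0xc1) (nat_lit 0) (p (nat_lit 0x119) (nat_lit 1) (p (nat_lit 0xc9) (nat_lit 0) (p (nat_lit 0x89) (nat_lit 1) (p (nat_lit 0x41) (nat_lit 0) (p (nat_lit 0x88078907089a) (nat_lit 0) (p (nat_lit 0x87870886861a) (nat_lit 0) (p (nat_lit 0x80000000070806078a) (nat_lit 0) (p (nat_lit 0x80000000068785850a) (nat_lit 0) (p (nat_lit 0x8587050682) (nat_lit 0) (p (nat_lit 0x8506848402) (nat_lit 0) (p (nat_lit 0x160014) (nat_lit 0) (p (nat_lit 0x160004) (nat_lit 0) (p (nat_lit 0x50612) (nat_lit 0) (p (nat_lit 0x40592) (nat_lit 0) (p (nat_lit 0x40492) (nat_lit 0) (p (nat_lit 0x30412) (nat_lit 0) (p (nat_lit 0x30212) (nat_lit 0) (p (nat_lit 0x20192) (nat_lit 0) (p (nat_lit 0x20092) (nat_lit 0) (p (nat_lit 0x10012) (nat_lit 0) pn))))))))))))))))))))))) :=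
  Cl.node (nat_lit 0x20000c) (nat_lit 2) (by decide +kernel) (ClAll.succ (ClAll.succ ClAll.zero n72) s90)

def n97 : Cl (O (nat_lit 2)) (R (nat_lit 104465))
    (p (nat_lit 0x111) (nat_lit 0) (p (nat_lit 0x101) (nat_lit 0) (p (nat_lit 0xc1) (nat_lit 1) (p (nat_lit 0x119) (nat_lit 1) (p (nat_lit 0xc9) (nat_lit 0) (p (nat_lit 0x89) (nat_lit 1) (p (nat_lit 0x41) (nat_lit 0) (p (nat_lit 0x88078907089a) (nat_lit 0) (p (nat_lit 0x87870886861a) (nat_lit 0) (p (nat_lit 0x80000000070806078a) (nat_lit 0) (p (nat_lit 0x80000000068785850a) (nat_lit 0) (p (nat_lit 0x8587050682) (nat_lit 0) (p (nat_lit 0x8506848402) (nat_lit 0) (p (nat_lit 0x160014) (nat_lit 0) (p (nat_lit 0x160004) (nat_lit 0) (p (nat_lit 0x50612) (nat_lit 0) (p (nat_lit 0x40592) (nat_lit 0) (p (nat_lit 0x40492) (nat_lit 0) (p (nat_lit 0x30412) (nat_lit 0) (p (nat_lit 0x30212) (nat_lit 0) (p (nat_lit 0x20192) (nat_lit 0) (p (nat_lit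 0x20092) (nat_lit 0) (p (nat_lit 0x10012) (nat_lit 0) pn))))))))))))))))))))))) :=
  Cl.node (nat_lit 0x20000c) (nat_lit 2) (by decide +kernel) (ClAll.succ (ClAll.succ ClAll.zero s91) s92)

def n98 : Cl (O (nat_lit 2)) (R (nat_lit 104465))
    (p (nat_lit 0x111) (nat_lit 1) (p (nat_lit 0x101) (nat_lit 0) (p (nat_lit 0xc1) (nat_lit 1) (p (nat_lit 0x119) (nat_lit 1) (p (nat_lit 0xc9) (nat_lit 0) (p (nat_lit 0x89) (nat_lit 1) (p (nat_lit 0x41) (nat_lit 0) (p (nat_lit 0x88078907089a) (nat_lit 0) (p (nat_lit 0x87870886861a) (nat_lit 0) (p (nat_lit 0x80000000070806078a) (nat_lit 0) (p (nat_lit 0x80000000068785850a) (nat_lit 0) (p (nat_lit 0x8587050682) (nat_lit 0) (p (nat_lit 0x8506848402) (nat_lit 0) (p (nat_lit 0x160014) (nat_lit 0) (p (nat_lit 0x160004) (nat_lit 0) (p (nat_lit 0x50612) (nat_lit 0) (p (nat_lit 0x40592) (nat_lit 0) (p (nat_lit 0x40492) (nat_lit 0) (p (nat_lit 0x30412)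 (nat_lit 0) (p (nat_lit 0x30212) (nat_lit 0) (p (nat_lit 0x20192) (nat_lit 0) (p (nat_lit 0x20092) (nat_lit 0) (p (nat_lit 0x10012) (nat_lit 0) pn))))))))))))))))))))))) :=
  Cl.node (nat_lit 0x20000c) (nat_lit 2) (by decide +kernel) (ClAll.succ (ClAll.succ ClAll.zero n73) s98)

def n99 : Cl (O (nat_lit 2)) (R (nat_lit 104465))
    (p (nat_lit 0x89) (nat_lit 0) (p (nat_lit 0x109) (nat_lit 1) (p (nat_lit 0x101) (nat_lit 0) (p (nat_lit 0x119) (nat_lit 0) (p (nat_lit 0xd1) (nat_lit 0) (p (nat_lit 0x81) (nat_lit 0) (p (nat_lit 0x41) (nat_lit 1) (p (nat_lit 0x88078907089a) (nat_lit 0) (p (nat_lit 0x87870886861a) (nat_lit 0) (p (nat_lit 0x80000000070806078a) (nat_lit 0) (p (nat_lit 0x80000000068785850a) (nat_lit 0) (p (nat_lit 0x8587050682) (nat_lit 0) (p (nat_lit 0x8506848402) (nat_lit 0) (p (nat_lit 0x160014) (nat_lit 0) (p (nat_lit 0x160004) (nat_lit 0) (p (nat_lit 0x50612) (nat_lit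 0) (p (nat_lit 0x40592) (nat_lit 0) (p (nat_lit 0x40492) (nat_lit 0) (p (nat_lit 0x30412) (nat_lit 0) (p (nat_lit 0x30212) (nat_lit 0) (p (nat_lit 0x20192) (nat_lit 0) (p (nat_lit 0x20092) (nat_lit 0) (p (nat_lit 0x10012) (nat_lit 0) pn))))))))))))))))))))))) :=
  Cl.node (nat_lit 0x20000c) (nat_lit 2) (by decide +kernel) (ClAll.succ (ClAll.succ ClAll.zero n74) s107)

def n100 : Cl (O (nat_lit 2)) (R (nat_lit 104465))
    (p (nat_lit 0x89) (nat_lit 1) (p (nat_lit 0xc1) (nat_lit 0) (p (nat_lit 0x101) (nat_lit 1) (p (nat_lit 0x119) (nat_lit 0) (p (nat_lit 0xd1) (nat_lit 0) (p (nat_lit 0x81) (nat_lit 0) (p (nat_lit 0x41) (nat_lit 1) (p (nat_lit 0x88078907089a) (nat_lit 0) (p (nat_lit 0x87870886861a) (nat_lit 0) (p (nat_lit 0x80000000070806078a) (nat_lit 0) (p (nat_lit 0x80000000068785850a) (nat_lit 0) (p (nat_lit 0x8587050682) (nat_lit 0) (p (nat_lit 0x8506848402) (nat_lit 0) (p (nat_lit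 0x160014) (nat_lit 0) (p (nat_lit 0x160004) (nat_lit 0) (p (nat_lit 0x50612) (nat_lit 0) (p (nat_lit 0x40592) (nat_lit 0) (p (nat_lit 0x40492) (nat_lit 0) (p (nat_lit 0x30412) (nat_lit 0) (p (nat_lit 0x30212) (nat_lit 0) (p (nat_lit 0x20192) (nat_lit 0) (p (nat_lit 0x20092) (nat_lit 0) (p (nat_lit 0x10012) (nat_lit 0) pn))))))))))))))))))))))) :=
  Cl.node (nat_lit 0xc9) (nat_lit 2) (by decide +kernel) (ClAll.succ (ClAll.succ ClAll.zero s110) s111)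

def n101 : Cl (O (nat_lit 2)) (R (nat_lit 104465))
    (p (nat_lit 0x89) (nat_lit 1) (p (nat_lit 0xc1) (nat_lit 1) (p (nat_lit 0x101) (nat_lit 1) (p (nat_lit 0x119) (nat_lit 0) (p (nat_lit 0xd1) (nat_lit 0) (p (nat_lit 0x81) (nat_lit 0) (p (nat_lit 0x41) (nat_lit 1) (p (nat_lit 0x88078907089a) (nat_lit 0) (p (nat_lit 0x87870886861a) (nat_lit 0) (p (nat_lit 0x80000000070806078a) (nat_lit 0) (p (nat_lit 0x80000000068785850a) (nat_lit 0) (p (nat_lit 0x8587050682) (nat_lit 0) (p (nat_lit 0x8506848402) (nat_lit 0) (p (nat_lit 0x160014) (nat_lit 0) (p (nat_lit 0x160004) (nat_lit 0) (p (nat_lit 0x50612) (nat_lit 0) (p (nat_lit 0x40592) (nat_lit 0) (p (nat_lit 0x40492) (nat_lit 0) (p (nat_lit 0x30412) (nat_lit 0) (p (nat_lit 0x30212) (nat_lit 0) (p (nat_lit 0x20192) (nat_lit 0) (p (nat_lit 0x20092) (nat_lit 0) (p (nat_lit 0x10012) (nat_lit 0) pn))))))))))))))))))))))) :=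
  Cl.node (nat_lit 0x20000c) (nat_lit 2) (by decide +kernel) (ClAll.succ (ClAll.succ ClAll.zero n75) s119)

def n102 : Cl (O (nat_lit 2)) (R (nat_lit 104465))
    (p (nat_lit 0x89) (nat_lit 1) (p (nat_lit 0xc9) (nat_lit 1) (p (nat_lit 0xc1) (nat_lit 0) (p (nat_lit 0x119) (nat_lit 1) (p (nat_lit 0xd1) (nat_lit 0) (p (nat_lit 0x81) (nat_lit 0) (p (nat_lit 0x41) (nat_lit 1) (p (nat_lit 0x88078907089a) (nat_lit 0) (p (nat_lit 0x87870886861a) (nat_lit 0) (p (nat_lit 0x80000000070806078a) (nat_lit 0) (p (nat_lit 0x80000000068785850a) (nat_lit 0) (p (nat_lit 0x8587050682) (nat_lit 0) (p (nat_lit 0x8506848402) (nat_lit 0) (p (nat_lit 0x160014) (nat_lit 0) (p (nat_lit 0x160004) (nat_lit 0) (p (nat_lit 0x50612) (nat_lit 0) (p (nat_lit 0x40592) (nat_lit 0) (p (nat_lit 0x40492) (nat_lit 0) (p (nat_lit 0x30412) (nat_lit 0) (p (nat_lit 0x30212) (nat_lit 0) (p (nat_lit 0x20192) (nat_lit 0) (p (nat_lit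 0x20092) (nat_lit 0) (p (nat_lit 0x10012) (nat_lit 0) pn))))))))))))))))))))))) :=
  Cl.node (nat_lit 0x109) (nat_lit 2) (by decide +kernel) (ClAll.succ (ClAll.succ ClAll.zero s122) s123)

def n103 : Cl (O (nat_lit 2)) (R (nat_lit 104465))
    (p (nat_lit 0x89) (nat_lit 1) (p (nat_lit 0x101) (nat_lit 0) (p (nat_lit 0xc1) (nat_lit 1) (p (nat_lit 0x119) (nat_lit 1) (p (nat_lit 0xd1) (nat_lit 0) (p (nat_lit 0x81) (nat_lit 0) (p (nat_lit 0x41) (nat_lit 1) (p (nat_lit 0x88078907089a) (nat_lit 0) (p (nat_lit 0x87870886861a) (nat_lit 0) (p (nat_lit 0x80000000070806078a) (nat_lit 0) (p (nat_lit 0x80000000068785850a) (nat_lit 0) (p (nat_lit 0x8587050682) (nat_lit 0) (p (nat_lit 0x8506848402) (nat_lit 0) (p (nat_lit 0x160014) (nat_lit 0) (p (nat_lit 0x160004) (nat_lit 0) (p (nat_lit 0x50612) (nat_lit 0) (p (nat_lit 0x40592) (nat_lit 0) (p (nat_lit 0x40492) (nat_lit 0) (p (nat_lit 0x30412)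 (nat_lit 0) (p (nat_lit 0x30212) (nat_lit 0) (p (nat_lit 0x20192) (nat_lit 0) (p (nat_lit 0x20092) (nat_lit 0) (p (nat_lit 0x10012) (nat_lit 0) pn))))))))))))))))))))))) :=
  Cl.node (nat_lit 0x109) (nat_lit 2) (by decide +kernel) (ClAll.succ (ClAll.succ ClAll.zero s125) n76)

def n104 : Cl (O (nat_lit 2)) (R (nat_lit 104465))
    (p (nat_lit 0x89) (nat_lit 1) (p (nat_lit 0x101) (nat_lit 1) (p (nat_lit 0xc1) (nat_lit 1) (p (nat_lit 0x119) (nat_lit 1) (p (nat_lit 0xd1) (nat_lit 0) (p (nat_lit 0x81) (nat_lit 0) (p (nat_lit 0x41) (nat_lit 1) (p (nat_lit 0x88078907089a) (nat_lit 0) (p (nat_lit 0x87870886861a) (nat_lit 0) (p (nat_lit 0x80000000070806078a) (nat_lit 0) (p (nat_lit 0x80000000068785850a) (nat_lit 0) (p (nat_lit 0x8587050682) (nat_lit 0) (p (nat_lit 0x8506848402) (nat_lit 0) (p (nat_lit 0x160014) (nat_lit 0) (p (nat_lit 0x160004) (nat_lit 0) (p (nat_lit 0x50612) (nat_lit 0)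 (p (nat_lit 0x40592) (nat_lit 0) (p (nat_lit 0x40492) (nat_lit 0) (p (nat_lit 0x30412) (nat_lit 0) (p (nat_lit 0x30212) (nat_lit 0) (p (nat_lit 0x20192) (nat_lit 0) (p (nat_lit 0x20092) (nat_lit 0) (p (nat_lit 0x10012) (nat_lit 0) pn))))))))))))))))))))))) :=
  Cl.node (nat_lit 0x20000c) (nat_lit 2) (by decide +kernel) (ClAll.succ (ClAll.succ ClAll.zero n77) s133)

def n105 : Cl (O (nat_lit 2)) (R (nat_lit 104465))
    (p (nat_lit 0x89) (nat_lit 1) (p (nat_lit 0x109) (nat_lit 1) (p (nat_lit 0x101) (nat_lit 0) (p (nat_lit 0x111) (nat_lit 0) (p (nat_lit 0xd1) (nat_lit 1) (p (nat_lit 0x81) (nat_lit 0) (p (nat_lit 0x41) (nat_lit 1) (p (nat_lit 0x88078907089a) (nat_lit 0) (p (nat_lit 0x87870886861a) (nat_lit 0) (p (nat_lit 0x80000000070806078a) (nat_lit 0) (p (nat_lit 0x80000000068785850a) (nat_lit 0) (p (nat_lit 0x8587050682) (nat_lit 0) (p (nat_lit 0x8506848402) (nat_lit 0) (p (nat_lit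 0x160014) (nat_lit 0) (p (nat_lit 0x160004) (nat_lit 0) (p (nat_lit 0x50612) (nat_lit 0) (p (nat_lit 0x40592) (nat_lit 0) (p (nat_lit 0x40492) (nat_lit 0) (p (nat_lit 0x30412) (nat_lit 0) (p (nat_lit 0x30212) (nat_lit 0) (p (nat_lit 0x20192) (nat_lit 0) (p (nat_lit 0x20092) (nat_lit 0) (p (nat_lit 0x10012) (nat_lit 0) pn))))))))))))))))))))))) :=
  Cl.node (nat_lit 0xc9) (nat_lit 2) (by decide +kernel) (ClAll.succ (ClAll.succ ClAll.zero n78) s140)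

def n106 : Cl (O (nat_lit 2)) (R (nat_lit 104465))
    (p (nat_lit 0x20000c) (nat_lit 0) (p (nat_lit 0x89) (nat_lit 0) (p (nat_lit 0x101) (nat_lit 1) (p (nat_lit 0x111) (nat_lit 0) (p (nat_lit 0xd1) (nat_lit 1) (p (nat_lit 0x81) (nat_lit 0) (p (nat_lit 0x41) (nat_lit 1) (p (nat_lit 0x88078907089a) (nat_lit 0) (p (nat_lit 0x87870886861a) (nat_lit 0) (p (nat_lit 0x80000000070806078a) (nat_lit 0) (p (nat_lit 0x80000000068785850a) (nat_lit 0) (p (nat_lit 0x8587050682) (nat_lit 0) (p (nat_lit 0x8506848402) (nat_lit 0) (p (nat_lit 0x160014) (nat_lit 0) (p (nat_lit 0x160004) (nat_lit 0) (p (nat_lit 0x50612) (nat_lit 0) (p (nat_lit 0x40592) (nat_lit 0) (p (nat_lit 0x40492) (nat_lit 0) (p (nat_lit 0x30412) (nat_lit 0) (p (nat_lit 0x30212) (nat_lit 0) (p (nat_lit 0x20192) (nat_lit 0) (p (nat_lit 0x20092) (nat_lit 0) (p (nat_lit 0x10012) (nat_lit 0) pn))))))))))))))))))))))) :=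
  Cl.node (nat_lit 0xb0004) (nat_lit 2) (by decide +kernel) (ClAll.succ (ClAll.succ ClAll.zero n79) s143)

def n107 : Cl (O (nat_lit 2)) (R (nat_lit 104465))
    (p (nat_lit 0xc9) (nat_lit 0) (p (nat_lit 0x89) (nat_lit 1) (p (nat_lit 0x101) (nat_lit 1) (p (nat_lit 0x111) (nat_lit 0) (p (nat_lit 0xd1) (nat_lit 1) (p (nat_lit 0x81) (nat_lit 0) (p (nat_lit 0x41) (nat_lit 1) (p (nat_lit 0x88078907089a) (nat_lit 0) (p (nat_lit 0x87870886861a) (nat_lit 0) (p (nat_lit 0x80000000070806078a) (nat_lit 0) (p (nat_lit 0x80000000068785850a) (nat_lit 0) (p (nat_lit 0x8587050682) (nat_lit 0) (p (nat_lit 0x8506848402) (nat_lit 0) (p (nat_lit 0x160014) (nat_lit 0) (p (nat_lit 0x160004) (nat_lit 0) (p (nat_lit 0x50612) (nat_lit 0) (p (nat_lit 0x40592) (nat_lit 0) (p (nat_lit 0x40492) (nat_lit 0) (p (nat_lit 0x30412) (nat_lit 0) (p (nat_lit 0x30212) (nat_lit 0) (p (nat_lit 0x20192) (nat_lit 0) (p (nat_lit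 0x20092) (nat_lit 0) (p (nat_lit 0x10012) (nat_lit 0) pn))))))))))))))))))))))) :=
  Cl.node (nat_lit 0x20000c) (nat_lit 2) (by decide +kernel) (ClAll.succ (ClAll.succ ClAll.zero n80) s148)

def n108 : Cl (O (nat_lit 2)) (R (nat_lit 104465))
    (p (nat_lit 0x109) (nat_lit 0) (p (nat_lit 0xc9) (nat_lit 1) (p (nat_lit 0x89) (nat_lit 1) (p (nat_lit 0x111) (nat_lit 1) (p (nat_lit 0xd1) (nat_lit 1) (p (nat_lit 0x81) (nat_lit 0) (p (nat_lit 0x41) (nat_lit 1) (p (nat_lit 0x88078907089a) (nat_lit 0) (p (nat_lit 0x87870886861a) (nat_lit 0) (p (nat_lit 0x80000000070806078a) (nat_lit 0) (p (nat_lit 0x80000000068785850a) (nat_lit 0) (p (nat_lit 0x8587050682) (nat_lit 0) (p (nat_lit 0x8506848402) (nat_lit 0) (p (nat_lit 0x160014) (nat_lit 0) (p (nat_lit 0x160004) (nat_lit 0) (p (nat_lit 0x50612) (nat_lit 0) (p (nat_lit 0x40592) (nat_lit 0) (p (nat_lit 0x40492) (nat_lit 0) (p (nat_lit 0x30412)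 (nat_lit 0) (p (nat_lit 0x30212) (nat_lit 0) (p (nat_lit 0x20192) (nat_lit 0) (p (nat_lit 0x20092) (nat_lit 0) (p (nat_lit 0x10012) (nat_lit 0) pn))))))))))))))))))))))) :=
  Cl.node (nat_lit 0x20000c) (nat_lit 2) (by decide +kernel) (ClAll.succ (ClAll.succ ClAll.zero s152) s153)

def n109 : Cl (O (nat_lit 2)) (R (nat_lit 104465))
    (p (nat_lit 0x111) (nat_lit 1) (p (nat_lit 0x109) (nat_lit 0) (p (nat_lit 0x101) (nat_lit 0) (p (nat_lit 0x119) (nat_lit 0) (p (nat_lit 0xc1) (nat_lit 0) (p (nat_lit 0x81) (nat_lit 1) (p (nat_lit 0x41) (nat_lit 1) (p (nat_lit 0x88078907089a) (nat_lit 0) (p (nat_lit 0x87870886861a) (nat_lit 0) (p (nat_lit 0x80000000070806078a) (nat_lit 0) (p (nat_lit 0x80000000068785850a) (nat_lit 0) (p (nat_lit 0x8587050682) (nat_lit 0) (p (nat_lit 0x8506848402) (nat_lit 0) (p (nat_lit 0x160014) (nat_lit 0) (p (nat_lit 0x160004) (nat_lit 0) (p (nat_lit 0x50612) (nat_lit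 0) (p (nat_lit 0x40592) (nat_lit 0) (p (nat_lit 0x40492) (nat_lit 0) (p (nat_lit 0x30412) (nat_lit 0) (p (nat_lit 0x30212) (nat_lit 0) (p (nat_lit 0x20192) (nat_lit 0) (p (nat_lit 0x20092) (nat_lit 0) (p (nat_lit 0x10012) (nat_lit 0) pn))))))))))))))))))))))) :=
  Cl.node (nat_lit 0xd1) (nat_lit 2) (by decide +kernel) (ClAll.succ (ClAll.succ ClAll.zero s156) s157)

def n110 : Cl (O (nat_lit 2)) (R (nat_lit 104465))
    (p (nat_lit 0xd1) (nat_lit 0) (p (nat_lit 0xc9) (nat_lit 0) (p (nat_lit 0x101) (nat_lit 1) (p (nat_lit 0x119) (nat_lit 0) (p (nat_lit 0xc1) (nat_lit 0) (p (nat_lit 0x81) (nat_lit 1) (p (nat_lit 0x41) (nat_lit 1) (p (nat_lit 0x88078907089a) (nat_lit 0) (p (nat_lit 0x87870886861a) (nat_lit 0) (p (nat_lit 0x80000000070806078a) (nat_lit 0) (p (nat_lit 0x80000000068785850a) (nat_lit 0) (p (nat_lit 0x8587050682) (nat_lit 0) (p (nat_lit 0x8506848402) (nat_lit 0) (p (nat_lit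 0x160014) (nat_lit 0) (p (nat_lit 0x160004) (nat_lit 0) (p (nat_lit 0x50612) (nat_lit 0) (p (nat_lit 0x40592) (nat_lit 0) (p (nat_lit 0x40492) (nat_lit 0) (p (nat_lit 0x30412) (nat_lit 0) (p (nat_lit 0x30212) (nat_lit 0) (p (nat_lit 0x20192) (nat_lit 0) (p (nat_lit 0x20092) (nat_lit 0) (p (nat_lit 0x10012) (nat_lit 0) pn))))))))))))))))))))))) :=
  Cl.node (nat_lit 0x20000c) (nat_lit 2) (by decide +kernel) (ClAll.succ (ClAll.succ ClAll.zero n81) s162)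

def n111 : Cl (O (nat_lit 2)) (R (nat_lit 104465))
    (p (nat_lit 0xd1) (nat_lit 1) (p (nat_lit 0xc9) (nat_lit 0) (p (nat_lit 0x101) (nat_lit 1) (p (nat_lit 0x119) (nat_lit 0) (p (nat_lit 0xc1) (nat_lit 0) (p (nat_lit 0x81) (nat_lit 1) (p (nat_lit 0x41) (nat_lit 1) (p (nat_lit 0x88078907089a) (nat_lit 0) (p (nat_lit 0x87870886861a) (nat_lit 0) (p (nat_lit 0x80000000070806078a) (nat_lit 0) (p (nat_lit 0x80000000068785850a) (nat_lit 0) (p (nat_lit 0x8587050682) (nat_lit 0) (p (nat_lit 0x8506848402) (nat_lit 0) (p (nat_lit 0x160014) (nat_lit 0) (p (nat_lit 0x160004) (nat_lit 0) (p (nat_lit 0x50612) (nat_lit 0) (p (nat_lit 0x40592) (nat_lit 0) (p (nat_lit 0x40492) (nat_lit 0) (p (nat_lit 0x30412) (nat_lit 0) (p (nat_lit 0x30212) (nat_lit 0) (p (nat_lit 0x20192) (nat_lit 0) (p (nat_lit 0x20092) (nat_lit 0) (p (nat_lit 0x10012) (nat_lit 0) pn))))))))))))))))))))))) :=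
  Cl.node (nat_lit 0x20000c) (nat_lit 2) (by decide +kernel) (ClAll.succ (ClAll.succ ClAll.zero n82) s165)

def n112 : Cl (O (nat_lit 2)) (R (nat_lit 104465))
    (p (nat_lit 0x111) (nat_lit 1) (p (nat_lit 0x109) (nat_lit 0) (p (nat_lit 0xc9) (nat_lit 1) (p (nat_lit 0x119) (nat_lit 1) (p (nat_lit 0xc1) (nat_lit 0) (p (nat_lit 0x81) (nat_lit 1) (p (nat_lit 0x41) (nat_lit 1) (p (nat_lit 0x88078907089a) (nat_lit 0) (p (nat_lit 0x87870886861a) (nat_lit 0) (p (nat_lit 0x80000000070806078a) (nat_lit 0) (p (nat_lit 0x80000000068785850a) (nat_lit 0) (p (nat_lit 0x8587050682) (nat_lit 0) (p (nat_lit 0x8506848402) (nat_lit 0) (p (nat_lit 0x160014) (nat_lit 0) (p (nat_lit 0x160004) (nat_lit 0) (p (nat_lit 0x50612) (nat_lit 0) (p (nat_lit 0x40592) (nat_lit 0) (p (nat_lit 0x40492) (nat_lit 0) (p (nat_lit 0x30412) (nat_lit 0) (p (nat_lit 0x30212) (nat_lit 0) (p (nat_lit 0x20192) (nat_lit 0) (p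 (nat_lit 0x20092) (nat_lit 0) (p (nat_lit 0x10012) (nat_lit 0) pn))))))))))))))))))))))) :=
  Cl.node (nat_lit 0x20000c) (nat_lit 2) (by decide +kernel) (ClAll.succ (ClAll.succ ClAll.zero n83) s171)

def n113 : Cl (O (nat_lit 2)) (R (nat_lit 104465))
    (p (nat_lit 0x109) (nat_lit 1) (p (nat_lit 0x101) (nat_lit 0) (p (nat_lit 0x119) (nat_lit 0) (p (nat_lit 0xd1) (nat_lit 0) (p (nat_lit 0x89) (nat_lit 0) (p (nat_lit 0x41) (nat_lit 0) (p (nat_lit 0x88078907089a) (nat_lit 0) (p (nat_lit 0x87870886861a) (nat_lit 0) (p (nat_lit 0x80000000070806078a) (nat_lit 0) (p (nat_lit 0x80000000068785850a) (nat_lit 0) (p (nat_lit 0x8587050682) (nat_lit 0) (p (nat_lit 0x8506848402) (nat_lit 0) (p (nat_lit 0x160014) (nat_lit 0) (p (nat_lit 0x160004) (nat_lit 0) (p (nat_lit 0x50612) (nat_lit 0) (p (nat_lit 0x40592) (nat_lit 0) (p (nat_lit 0x40492) (nat_lit 0) (p (nat_lit 0x30412) (nat_lit 0) (p (nat_lit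 0x30212) (nat_lit 0) (p (nat_lit 0x20192) (nat_lit 0) (p (nat_lit 0x20092) (nat_lit 0) (p (nat_lit 0x10012) (nat_lit 0) pn)))))))))))))))))))))) :=
  Cl.node (nat_lit 0xc9) (nat_lit 2) (by decide +kernel) (ClAll.succ (ClAll.succ ClAll.zero s1) n84)

def n114 : Cl (O (nat_lit 2)) (R (nat_lit 104465))
    (p (nat_lit 0x81) (nat_lit 0) (p (nat_lit 0x101) (nat_lit 1) (p (nat_lit 0x119) (nat_lit 0) (p (nat_lit 0xd1) (nat_lit 0) (p (nat_lit 0x89) (nat_lit 0) (p (nat_lit 0x41) (nat_lit 0) (p (nat_lit 0x88078907089a) (nat_lit 0) (p (nat_lit 0x87870886861a) (nat_lit 0) (p (nat_lit 0x80000000070806078a) (nat_lit 0) (p (nat_lit 0x80000000068785850a) (nat_lit 0) (p (nat_lit 0x8587050682) (nat_lit 0) (p (nat_lit 0x8506848402) (nat_lit 0) (p (nat_lit 0x160014) (nat_lit 0) (p (nat_lit 0x160004) (nat_lit 0) (p (nat_lit 0x50612) (nat_lit 0) (p (nat_lit 0x40592) (nat_lit 0) (p (nat_lit 0x40492) (nat_lit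 0) (p (nat_lit 0x30412) (nat_lit 0) (p (nat_lit 0x30212) (nat_lit 0) (p (nat_lit 0x20192) (nat_lit 0) (p (nat_lit 0x20092) (nat_lit 0) (p (nat_lit 0x10012) (nat_lit 0) pn)))))))))))))))))))))) :=
  Cl.node (nat_lit 0xc9) (nat_lit 2) (by decide +kernel) (ClAll.succ (ClAll.succ ClAll.zero s6) n85)

def n115 : Cl (O (nat_lit 2)) (R (nat_lit 104465))
    (p (nat_lit 0x81) (nat_lit 1) (p (nat_lit 0x101) (nat_lit 1) (p (nat_lit 0x119) (nat_lit 0) (p (nat_lit 0xd1) (nat_lit 0) (p (nat_lit 0x89) (nat_lit 0) (p (nat_lit 0x41) (nat_lit 0) (p (nat_lit 0x88078907089a) (nat_lit 0) (p (nat_lit 0x87870886861a) (nat_lit 0) (p (nat_lit 0x80000000070806078a) (nat_lit 0) (p (nat_lit 0x80000000068785850a) (nat_lit 0) (p (nat_lit 0x8587050682) (nat_lit 0) (p (nat_lit 0x8506848402) (nat_lit 0) (p (nat_lit 0x160014) (nat_lit 0) (p (nat_lit 0x160004) (nat_lit 0) (p (nat_lit 0x50612) (nat_lit 0) (p (nat_lit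 0x40592) (nat_lit 0) (p (nat_lit 0x40492) (nat_lit 0) (p (nat_lit 0x30412) (nat_lit 0) (p (nat_lit 0x30212) (nat_lit 0) (p (nat_lit 0x20192) (nat_lit 0) (p (nat_lit 0x20092) (nat_lit 0) (p (nat_lit 0x10012) (nat_lit 0) pn)))))))))))))))))))))) :=
  Cl.node (nat_lit 0xc1) (nat_lit 2) (by decide +kernel) (ClAll.succ (ClAll.succ ClAll.zero n86) s18)

def n116 : Cl (O (nat_lit 2)) (R (nat_lit 104465))
    (p (nat_lit 0x81) (nat_lit 1) (p (nat_lit 0xc1) (nat_lit 1) (p (nat_lit 0x119) (nat_lit 1) (p (nat_lit 0xd1) (nat_lit 0) (p (nat_lit 0x89) (nat_lit 0) (p (nat_lit 0x41) (nat_lit 0) (p (nat_lit 0x88078907089a) (nat_lit 0) (p (nat_lit 0x87870886861a) (nat_lit 0) (p (nat_lit 0x80000000070806078a) (nat_lit 0) (p (nat_lit 0x80000000068785850a) (nat_lit 0) (p (nat_lit 0x8587050682) (nat_lit 0) (p (nat_lit 0x8506848402) (nat_lit 0) (p (nat_lit 0x160014) (nat_lit 0) (p (nat_lit 0x160004) (nat_lit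 0) (p (nat_lit 0x50612) (nat_lit 0) (p (nat_lit 0x40592) (nat_lit 0) (p (nat_lit 0x40492) (nat_lit 0) (p (nat_lit 0x30412) (nat_lit 0) (p (nat_lit 0x30212) (nat_lit 0) (p (nat_lit 0x20192) (nat_lit 0) (p (nat_lit 0x20092) (nat_lit 0) (p (nat_lit 0x10012) (nat_lit 0) pn)))))))))))))))))))))) :=
  Cl.node (nat_lit 0x101) (nat_lit 2) (by decide +kernel) (ClAll.succ (ClAll.succ ClAll.zero n87) s27)

def n117 : Cl (O (nat_lit 2)) (R (nat_lit 104465))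
    (p (nat_lit 0x109) (nat_lit 1) (p (nat_lit 0x101) (nat_lit 0) (p (nat_lit 0x111) (nat_lit 0) (p (nat_lit 0xd1) (nat_lit 1) (p (nat_lit 0x89) (nat_lit 0) (p (nat_lit 0x41) (nat_lit 0) (p (nat_lit 0x88078907089a) (nat_lit 0) (p (nat_lit 0x87870886861a) (nat_lit 0) (p (nat_lit 0x80000000070806078a) (nat_lit 0) (p (nat_lit 0x80000000068785850a) (nat_lit 0) (p (nat_lit 0x8587050682) (nat_lit 0) (p (nat_lit 0x8506848402) (nat_lit 0) (p (nat_lit 0x160014) (nat_lit 0) (p (nat_lit 0x160004) (nat_lit 0) (p (nat_lit 0x50612) (nat_lit 0) (p (nat_lit 0x40592) (nat_lit 0) (p (nat_lit 0x40492) (nat_lit 0) (p (nat_lit 0x30412) (nat_lit 0) (p (nat_lit 0x30212) (nat_lit 0) (p (nat_lit 0x20192) (nat_lit 0) (p (nat_lit 0x20092) (nat_lit 0) (p (nat_lit 0x10012) (nat_lit 0) pn)))))))))))))))))))))) :=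
  Cl.node (nat_lit 0x20000c) (nat_lit 2) (by decide +kernel) (ClAll.succ (ClAll.succ ClAll.zero n88) s33)

def n118 : Cl (O (nat_lit 2)) (R (nat_lit 104465))
    (p (nat_lit 0x81) (nat_lit 0) (p (nat_lit 0x101) (nat_lit 1) (p (nat_lit 0x111) (nat_lit 0) (p (nat_lit 0xd1) (nat_lit 1) (p (nat_lit 0x89) (nat_lit 0) (p (nat_lit 0x41) (nat_lit 0) (p (nat_lit 0x88078907089a) (nat_lit 0) (p (nat_lit 0x87870886861a) (nat_lit 0) (p (nat_lit 0x80000000070806078a) (nat_lit 0) (p (nat_lit 0x80000000068785850a) (nat_lit 0) (p (nat_lit 0x8587050682) (nat_lit 0) (p (nat_lit 0x8506848402) (nat_lit 0) (p (nat_lit 0x160014) (nat_lit 0) (p (nat_lit 0x160004) (nat_lit 0) (p (nat_lit 0x50612) (nat_lit 0) (p (nat_lit 0x40592) (nat_lit 0) (p (nat_lit 0x40492) (nat_lit 0) (p (nat_lit 0x30412) (nat_lit 0) (p (nat_lit 0x30212) (nat_lit 0) (p (nat_lit 0x20192) (nat_lit 0) (p (nat_lit 0x20092) (nat_lit 0) (p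 (nat_lit 0x10012) (nat_lit 0) pn)))))))))))))))))))))) :=
  Cl.node (nat_lit 0x20000c) (nat_lit 2) (by decide +kernel) (ClAll.succ (ClAll.succ ClAll.zero n89) s37)

def n119 : Cl (O (nat_lit 2)) (R (nat_lit 104465))
    (p (nat_lit 0x81) (nat_lit 1) (p (nat_lit 0x101) (nat_lit 1) (p (nat_lit 0x111) (nat_lit 0) (p (nat_lit 0xd1) (nat_lit 1) (p (nat_lit 0x89) (nat_lit 0) (p (nat_lit 0x41) (nat_lit 0) (p (nat_lit 0x88078907089a) (nat_lit 0) (p (nat_lit 0x87870886861a) (nat_lit 0) (p (nat_lit 0x80000000070806078a) (nat_lit 0) (p (nat_lit 0x80000000068785850a) (nat_lit 0) (p (nat_lit 0x8587050682) (nat_lit 0) (p (nat_lit 0x8506848402) (nat_lit 0) (p (nat_lit 0x160014) (nat_lit 0) (p (nat_lit 0x160004) (nat_lit 0) (p (nat_lit 0x50612) (nat_lit 0) (p (nat_lit 0x40592) (nat_lit 0) (p (nat_lit 0x40492) (nat_lit 0) (p (nat_lit 0x30412) (nat_lit 0) (p (nat_lit 0x30212) (nat_lit 0) (p (nat_lit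 0x20192) (nat_lit 0) (p (nat_lit 0x20092) (nat_lit 0) (p (nat_lit 0x10012) (nat_lit 0) pn)))))))))))))))))))))) :=
  Cl.node (nat_lit 0xc1) (nat_lit 2) (by decide +kernel) (ClAll.succ (ClAll.succ ClAll.zero n90) s44)

def n120 : Cl (O (nat_lit 2)) (R (nat_lit 104465))
    (p (nat_lit 0xc1) (nat_lit 1) (p (nat_lit 0x81) (nat_lit 1) (p (nat_lit 0x111) (nat_lit 1) (p (nat_lit 0xd1) (nat_lit 1) (p (nat_lit 0x89) (nat_lit 0) (p (nat_lit 0x41) (nat_lit 0) (p (nat_lit 0x88078907089a) (nat_lit 0) (p (nat_lit 0x87870886861a) (nat_lit 0) (p (nat_lit 0x80000000070806078a) (nat_lit 0) (p (nat_lit 0x80000000068785850a) (nat_lit 0) (p (nat_lit 0x8587050682) (nat_lit 0) (p (nat_lit 0x8506848402) (nat_lit 0) (p (nat_lit 0x160014) (nat_lit 0) (p (nat_lit 0x160004) (nat_lit 0) (p (nat_lit 0x50612) (nat_lit 0) (p (nat_lit 0x40592) (nat_lit 0) (p (nat_lit 0x40492) (nat_lit 0) (p (nat_lit 0x30412) (nat_lit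 0) (p (nat_lit 0x30212) (nat_lit 0) (p (nat_lit 0x20192) (nat_lit 0) (p (nat_lit 0x20092) (nat_lit 0) (p (nat_lit 0x10012) (nat_lit 0) pn)))))))))))))))))))))) :=
  Cl.node (nat_lit 0x101) (nat_lit 2) (by decide +kernel) (ClAll.succ (ClAll.succ ClAll.zero s47) s48)

def n121 : Cl (O (nat_lit 2)) (R (nat_lit 104465))
    (p (nat_lit 0x109) (nat_lit 0) (p (nat_lit 0x101) (nat_lit 0) (p (nat_lit 0x119) (nat_lit 0) (p (nat_lit 0xc9) (nat_lit 0) (p (nat_lit 0x89) (nat_lit 1) (p (nat_lit 0x41) (nat_lit 0) (p (nat_lit 0x88078907089a) (nat_lit 0) (p (nat_lit 0x87870886861a) (nat_lit 0) (p (nat_lit 0x80000000070806078a) (nat_lit 0) (p (nat_lit 0x80000000068785850a) (nat_lit 0) (p (nat_lit 0x8587050682) (nat_lit 0) (p (nat_lit 0x8506848402) (nat_lit 0) (p (nat_lit 0x160014) (nat_lit 0) (p (nat_lit 0x160004) (nat_lit 0) (p (nat_lit 0x50612) (nat_lit 0) (p (nat_lit 0x40592) (nat_lit 0) (p (nat_lit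 0x40492) (nat_lit 0) (p (nat_lit 0x30412) (nat_lit 0) (p (nat_lit 0x30212) (nat_lit 0) (p (nat_lit 0x20192) (nat_lit 0) (p (nat_lit 0x20092) (nat_lit 0) (p (nat_lit 0x10012) (nat_lit 0) pn)))))))))))))))))))))) :=
  Cl.node (nat_lit 0x111) (nat_lit 2) (by decide +kernel) (ClAll.succ (ClAll.succ ClAll.zero s49) n91)

def n122 : Cl (O (nat_lit 2)) (R (nat_lit 104465))
    (p (nat_lit 0x109) (nat_lit 1) (p (nat_lit 0x101) (nat_lit 0) (p (nat_lit 0x119) (nat_lit 0) (p (nat_lit 0xc9) (nat_lit 0) (p (nat_lit 0x89) (nat_lit 1) (p (nat_lit 0x41) (nat_lit 0) (p (nat_lit 0x88078907089a) (nat_lit 0) (p (nat_lit 0x87870886861a) (nat_lit 0) (p (nat_lit 0x80000000070806078a) (nat_lit 0) (p (nat_lit 0x80000000068785850a) (nat_lit 0) (p (nat_lit 0x8587050682) (nat_lit 0) (p (nat_lit 0x8506848402) (nat_lit 0) (p (nat_lit 0x160014) (nat_lit 0) (p (nat_lit 0x160004) (nat_lit 0) (p (nat_lit 0x50612)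 (nat_lit 0) (p (nat_lit 0x40592) (nat_lit 0) (p (nat_lit 0x40492) (nat_lit 0) (p (nat_lit 0x30412) (nat_lit 0) (p (nat_lit 0x30212) (nat_lit 0) (p (nat_lit 0x20192) (nat_lit 0) (p (nat_lit 0x20092) (nat_lit 0) (p (nat_lit 0x10012) (nat_lit 0) pn)))))))))))))))))))))) :=
  Cl.node (nat_lit 0xd1) (nat_lit 2) (by decide +kernel) (ClAll.succ (ClAll.succ ClAll.zero n92) n93)

def n123 : Cl (O (nat_lit 2)) (R (nat_lit 104465))
    (p (nat_lit 0xc1) (nat_lit 0) (p (nat_lit 0x101) (nat_lit 1) (p (nat_lit 0x119) (nat_lit 0) (p (nat_lit 0xc9) (nat_lit 0) (p (nat_lit 0x89) (nat_lit 1) (p (nat_lit 0x41) (nat_lit 0) (p (nat_lit 0x88078907089a) (nat_lit 0) (p (nat_lit 0x87870886861a) (nat_lit 0) (p (nat_lit 0x80000000070806078a) (nat_lit 0) (p (nat_lit 0x80000000068785850a) (nat_lit 0) (p (nat_lit 0x8587050682) (nat_lit 0) (p (nat_lit 0x8506848402) (nat_lit 0) (p (nat_lit 0x160014) (nat_lit 0)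 (p (nat_lit 0x160004) (nat_lit 0) (p (nat_lit 0x50612) (nat_lit 0) (p (nat_lit 0x40592) (nat_lit 0) (p (nat_lit 0x40492) (nat_lit 0) (p (nat_lit 0x30412) (nat_lit 0) (p (nat_lit 0x30212) (nat_lit 0) (p (nat_lit 0x20192) (nat_lit 0) (p (nat_lit 0x20092) (nat_lit 0) (p (nat_lit 0x10012) (nat_lit 0) pn)))))))))))))))))))))) :=
  Cl.node (nat_lit 0xd1) (nat_lit 2) (by decide +kernel) (ClAll.succ (ClAll.succ ClAll.zero n94) n95)

def n124 : Cl (O (nat_lit 2)) (R (nat_lit 104465))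
    (p (nat_lit 0xd1) (nat_lit 1) (p (nat_lit 0xc1) (nat_lit 0) (p (nat_lit 0x119) (nat_lit 1) (p (nat_lit 0xc9) (nat_lit 0) (p (nat_lit 0x89) (nat_lit 1) (p (nat_lit 0x41) (nat_lit 0) (p (nat_lit 0x88078907089a) (nat_lit 0) (p (nat_lit 0x87870886861a) (nat_lit 0) (p (nat_lit 0x80000000070806078a) (nat_lit 0) (p (nat_lit 0x80000000068785850a) (nat_lit 0) (p (nat_lit 0x8587050682) (nat_lit 0) (p (nat_lit 0x8506848402) (nat_lit 0) (p (nat_lit 0x160014) (nat_lit 0) (p (nat_lit 0x160004) (nat_lit 0) (p (nat_lit 0x50612) (nat_lit 0) (p (nat_lit 0x40592) (nat_lit 0) (p (nat_lit 0x40492) (nat_lit 0) (p (nat_lit 0x30412) (nat_lit 0) (p (nat_lit 0x30212) (nat_lit 0) (p (nat_lit 0x20192) (nat_lit 0) (p (nat_lit 0x20092) (nat_lit 0) (p (nat_lit 0x10012) (nat_lit 0) pn)))))))))))))))))))))) :=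
  Cl.node (nat_lit 0x111) (nat_lit 2) (by decide +kernel) (ClAll.succ (ClAll.succ ClAll.zero s86) n96)

def n125 : Cl (O (nat_lit 2)) (R (nat_lit 104465))
    (p (nat_lit 0x101) (nat_lit 0) (p (nat_lit 0xc1) (nat_lit 1) (p (nat_lit 0x119) (nat_lit 1) (p (nat_lit 0xc9) (nat_lit 0) (p (nat_lit 0x89) (nat_lit 1) (p (nat_lit 0x41) (nat_lit 0) (p (nat_lit 0x88078907089a) (nat_lit 0) (p (nat_lit 0x87870886861a) (nat_lit 0) (p (nat_lit 0x80000000070806078a) (nat_lit 0) (p (nat_lit 0x80000000068785850a) (nat_lit 0) (p (nat_lit 0x8587050682) (nat_lit 0) (p (nat_lit 0x8506848402) (nat_lit 0) (p (nat_lit 0x160014) (nat_lit 0) (p (nat_lit 0x160004) (nat_lit 0) (p (nat_lit 0x50612) (nat_lit 0) (p (nat_lit 0x40592) (nat_lit 0) (p (nat_lit 0x40492) (nat_lit 0) (p (nat_lit 0x30412) (nat_lit 0) (p (nat_lit 0x30212) (nat_lit 0) (p (nat_lit 0x20192) (nat_lit 0) (p (nat_lit 0x20092) (nat_lit 0) (p (nat_lit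 0x10012) (nat_lit 0) pn)))))))))))))))))))))) :=
  Cl.node (nat_lit 0x111) (nat_lit 2) (by decide +kernel) (ClAll.succ (ClAll.succ ClAll.zero n97) n98)

def n126 : Cl (O (nat_lit 2)) (R (nat_lit 104465))
    (p (nat_lit 0x109) (nat_lit 1) (p (nat_lit 0x101) (nat_lit 0) (p (nat_lit 0x119) (nat_lit 0) (p (nat_lit 0xd1) (nat_lit 0) (p (nat_lit 0x81) (nat_lit 0) (p (nat_lit 0x41) (nat_lit 1) (p (nat_lit 0x88078907089a) (nat_lit 0) (p (nat_lit 0x87870886861a) (nat_lit 0) (p (nat_lit 0x80000000070806078a) (nat_lit 0) (p (nat_lit 0x80000000068785850a) (nat_lit 0) (p (nat_lit 0x8587050682) (nat_lit 0) (p (nat_lit 0x8506848402) (nat_lit 0) (p (nat_lit 0x160014) (nat_lit 0) (p (nat_lit 0x160004) (nat_lit 0) (p (nat_lit 0x50612) (nat_lit 0) (p (nat_lit 0x40592) (nat_lit 0) (p (nat_lit 0x40492) (nat_lit 0) (p (nat_lit 0x30412) (nat_lit 0) (p (nat_lit 0x30212) (nat_lit 0) (p (nat_lit 0x20192)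 (nat_lit 0) (p (nat_lit 0x20092) (nat_lit 0) (p (nat_lit 0x10012) (nat_lit 0) pn)))))))))))))))))))))) :=
  Cl.node (nat_lit 0x89) (nat_lit 2) (by decide +kernel) (ClAll.succ (ClAll.succ ClAll.zero n99) s108)

def n127 : Cl (O (nat_lit 2)) (R (nat_lit 104465))
    (p (nat_lit 0xc1) (nat_lit 0) (p (nat_lit 0x101) (nat_lit 1) (p (nat_lit 0x119) (nat_lit 0) (p (nat_lit 0xd1) (nat_lit 0) (p (nat_lit 0x81) (nat_lit 0) (p (nat_lit 0x41) (nat_lit 1) (p (nat_lit 0x88078907089a) (nat_lit 0) (p (nat_lit 0x87870886861a) (nat_lit 0) (p (nat_lit 0x80000000070806078a) (nat_lit 0) (p (nat_lit 0x80000000068785850a) (nat_lit 0) (p (nat_lit 0x8587050682) (nat_lit 0) (p (nat_lit 0x8506848402) (nat_lit 0) (p (nat_lit 0x160014) (nat_lit 0) (p (nat_lit 0x160004) (nat_lit 0) (p (nat_lit 0x50612) (nat_lit 0) (p (nat_lit 0x40592) (nat_lit 0) (p (nat_lit 0x40492) (nat_lit 0) (p (nat_lit 0x30412) (nat_lit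 0) (p (nat_lit 0x30212) (nat_lit 0) (p (nat_lit 0x20192) (nat_lit 0) (p (nat_lit 0x20092) (nat_lit 0) (p (nat_lit 0x10012) (nat_lit 0) pn)))))))))))))))))))))) :=
  Cl.node (nat_lit 0x89) (nat_lit 2) (by decide +kernel) (ClAll.succ (ClAll.succ ClAll.zero s109) n100)

def n128 : Cl (O (nat_lit 2)) (R (nat_lit 104465))
    (p (nat_lit 0xc1) (nat_lit 1) (p (nat_lit 0x101) (nat_lit 1) (p (nat_lit 0x119) (nat_lit 0) (p (nat_lit 0xd1) (nat_lit 0) (p (nat_lit 0x81) (nat_lit 0) (p (nat_lit 0x41) (nat_lit 1) (p (nat_lit 0x88078907089a) (nat_lit 0) (p (nat_lit 0x87870886861a) (nat_lit 0) (p (nat_lit 0x80000000070806078a) (nat_lit 0) (p (nat_lit 0x80000000068785850a) (nat_lit 0) (p (nat_lit 0x8587050682) (nat_lit 0) (p (nat_lit 0x8506848402) (nat_lit 0) (p (nat_lit 0x160014) (nat_lit 0) (p (nat_lit 0x160004) (nat_lit 0) (p (nat_lit 0x50612) (nat_lit 0) (p (nat_lit 0x40592) (nat_lit 0) (p (nat_lit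 0x40492) (nat_lit 0) (p (nat_lit 0x30412) (nat_lit 0) (p (nat_lit 0x30212) (nat_lit 0) (p (nat_lit 0x20192) (nat_lit 0) (p (nat_lit 0x20092) (nat_lit 0) (p (nat_lit 0x10012) (nat_lit 0) pn)))))))))))))))))))))) :=
  Cl.node (nat_lit 0x89) (nat_lit 2) (by decide +kernel) (ClAll.succ (ClAll.succ ClAll.zero s112) n101)

def n129 : Cl (O (nat_lit 2)) (R (nat_lit 104465))
    (p (nat_lit 0xc9) (nat_lit 1) (p (nat_lit 0xc1) (nat_lit 0) (p (nat_lit 0x119) (nat_lit 1) (p (nat_lit 0xd1) (nat_lit 0) (p (nat_lit 0x81) (nat_lit 0) (p (nat_lit 0x41) (nat_lit 1) (p (nat_lit 0x88078907089a) (nat_lit 0) (p (nat_lit 0x87870886861a) (nat_lit 0) (p (nat_lit 0x80000000070806078a) (nat_lit 0) (p (nat_lit 0x80000000068785850a) (nat_lit 0) (p (nat_lit 0x8587050682) (nat_lit 0) (p (nat_lit 0x8506848402) (nat_lit 0) (p (nat_lit 0x160014) (nat_lit 0) (p (nat_lit 0x160004) (nat_lit 0) (p (nat_lit 0x50612)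 (nat_lit 0) (p (nat_lit 0x40592) (nat_lit 0) (p (nat_lit 0x40492) (nat_lit 0) (p (nat_lit 0x30412) (nat_lit 0) (p (nat_lit 0x30212) (nat_lit 0) (p (nat_lit 0x20192) (nat_lit 0) (p (nat_lit 0x20092) (nat_lit 0) (p (nat_lit 0x10012) (nat_lit 0) pn)))))))))))))))))))))) :=
  Cl.node (nat_lit 0x89) (nat_lit 2) (by decide +kernel) (ClAll.succ (ClAll.succ ClAll.zero s121) n102)

def n130 : Cl (O (nat_lit 2)) (R (nat_lit 104465))
    (p (nat_lit 0x101) (nat_lit 0) (p (nat_lit 0xc1) (nat_lit 1) (p (nat_lit 0x119) (nat_lit 1) (p (nat_lit 0xd1) (nat_lit 0) (p (nat_lit 0x81) (nat_lit 0) (p (nat_lit 0x41) (nat_lit 1) (p (nat_lit 0x88078907089a) (nat_lit 0) (p (nat_lit 0x87870886861a) (nat_lit 0) (p (nat_lit 0x80000000070806078a) (nat_lit 0) (p (nat_lit 0x80000000068785850a) (nat_lit 0) (p (nat_lit 0x8587050682) (nat_lit 0) (p (nat_lit 0x8506848402) (nat_lit 0) (p (nat_lit 0x160014) (nat_lit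 0) (p (nat_lit 0x160004) (nat_lit 0) (p (nat_lit 0x50612) (nat_lit 0) (p (nat_lit 0x40592) (nat_lit 0) (p (nat_lit 0x40492) (nat_lit 0) (p (nat_lit 0x30412) (nat_lit 0) (p (nat_lit 0x30212) (nat_lit 0) (p (nat_lit 0x20192) (nat_lit 0) (p (nat_lit 0x20092) (nat_lit 0) (p (nat_lit 0x10012) (nat_lit 0) pn)))))))))))))))))))))) :=
  Cl.node (nat_lit 0x89) (nat_lit 2) (by decide +kernel) (ClAll.succ (ClAll.succ ClAll.zero s124) n103)

def n131 : Cl (O (nat_lit 2)) (R (nat_lit 104465))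
    (p (nat_lit 0x101) (nat_lit 1) (p (nat_lit 0xc1) (nat_lit 1) (p (nat_lit 0x119) (nat_lit 1) (p (nat_lit 0xd1) (nat_lit 0) (p (nat_lit 0x81) (nat_lit 0) (p (nat_lit 0x41) (nat_lit 1) (p (nat_lit 0x88078907089a) (nat_lit 0) (p (nat_lit 0x87870886861a) (nat_lit 0) (p (nat_lit 0x80000000070806078a) (nat_lit 0) (p (nat_lit 0x80000000068785850a) (nat_lit 0) (p (nat_lit 0x8587050682) (nat_lit 0) (p (nat_lit 0x8506848402) (nat_lit 0) (p (nat_lit 0x160014) (nat_lit 0) (p (nat_lit 0x160004) (nat_lit 0) (p (nat_lit 0x50612) (nat_lit 0) (p (nat_lit 0x40592) (nat_lit 0) (p (nat_lit 0x40492) (nat_lit 0) (p (nat_lit 0x30412) (nat_lit 0) (p (nat_lit 0x30212) (nat_lit 0) (p (nat_lit 0x20192) (nat_lit 0) (p (nat_lit 0x20092) (nat_lit 0) (p (nat_lit 0x10012) (nat_lit 0) pn)))))))))))))))))))))) :=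
  Cl.node (nat_lit 0x89) (nat_lit 2) (by decide +kernel) (ClAll.succ (ClAll.succ ClAll.zero s129) n104)

def n132 : Cl (O (nat_lit 2)) (R (nat_lit 104465))
    (p (nat_lit 0x109) (nat_lit 1) (p (nat_lit 0x101) (nat_lit 0) (p (nat_lit 0x111) (nat_lit 0) (p (nat_lit 0xd1) (nat_lit 1) (p (nat_lit 0x81) (nat_lit 0) (p (nat_lit 0x41) (nat_lit 1) (p (nat_lit 0x88078907089a) (nat_lit 0) (p (nat_lit 0x87870886861a) (nat_lit 0) (p (nat_lit 0x80000000070806078a) (nat_lit 0) (p (nat_lit 0x80000000068785850a) (nat_lit 0) (p (nat_lit 0x8587050682) (nat_lit 0) (p (nat_lit 0x8506848402) (nat_lit 0) (p (nat_lit 0x160014) (nat_lit 0) (p (nat_lit 0x160004) (nat_lit 0) (p (nat_lit 0x50612) (nat_lit 0) (p (nat_lit 0x40592) (nat_lit 0) (p (nat_lit 0x40492) (nat_lit 0) (p (nat_lit 0x30412) (nat_lit 0) (p (nat_lit 0x30212) (nat_lit 0) (p (nat_lit 0x20192) (nat_lit 0) (p (nat_lit 0x20092) (nat_lit 0) (p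 (nat_lit 0x10012) (nat_lit 0) pn)))))))))))))))))))))) :=
  Cl.node (nat_lit 0x89) (nat_lit 2) (by decide +kernel) (ClAll.succ (ClAll.succ ClAll.zero s135) n105)

def n133 : Cl (O (nat_lit 2)) (R (nat_lit 104465))
    (p (nat_lit 0x89) (nat_lit 0) (p (nat_lit 0x101) (nat_lit 1) (p (nat_lit 0x111) (nat_lit 0) (p (nat_lit 0xd1) (nat_lit 1) (p (nat_lit 0x81) (nat_lit 0) (p (nat_lit 0x41) (nat_lit 1) (p (nat_lit 0x88078907089a) (nat_lit 0) (p (nat_lit 0x87870886861a) (nat_lit 0) (p (nat_lit 0x80000000070806078a) (nat_lit 0) (p (nat_lit 0x80000000068785850a) (nat_lit 0) (p (nat_lit 0x8587050682) (nat_lit 0) (p (nat_lit 0x8506848402) (nat_lit 0) (p (nat_lit 0x160014) (nat_lit 0) (p (nat_lit 0x160004) (nat_lit 0) (p (nat_lit 0x50612) (nat_lit 0) (p (nat_lit 0x40592) (nat_lit 0) (p (nat_lit 0x40492) (nat_lit 0) (p (nat_lit 0x30412) (nat_lit 0) (p (nat_lit 0x30212) (nat_lit 0) (p (nat_lit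 0x20192) (nat_lit 0) (p (nat_lit 0x20092) (nat_lit 0) (p (nat_lit 0x10012) (nat_lit 0) pn)))))))))))))))))))))) :=
  Cl.node (nat_lit 0x20000c) (nat_lit 2) (by decide +kernel) (ClAll.succ (ClAll.succ ClAll.zero n106) s144)

def n134 : Cl (O (nat_lit 2)) (R (nat_lit 104465))
    (p (nat_lit 0x89) (nat_lit 1) (p (nat_lit 0x101) (nat_lit 1) (p (nat_lit 0x111) (nat_lit 0) (p (nat_lit 0xd1) (nat_lit 1) (p (nat_lit 0x81) (nat_lit 0) (p (nat_lit 0x41) (nat_lit 1) (p (nat_lit 0x88078907089a) (nat_lit 0) (p (nat_lit 0x87870886861a) (nat_lit 0) (p (nat_lit 0x80000000070806078a) (nat_lit 0) (p (nat_lit 0x80000000068785850a) (nat_lit 0) (p (nat_lit 0x8587050682) (nat_lit 0) (p (nat_lit 0x8506848402) (nat_lit 0) (p (nat_lit 0x160014) (nat_lit 0) (p (nat_lit 0x160004) (nat_lit 0) (p (nat_lit 0x50612) (nat_lit 0) (p (nat_lit 0x40592) (nat_lit 0) (p (nat_lit 0x40492) (nat_lit 0) (p (nat_lit 0x30412)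 (nat_lit 0) (p (nat_lit 0x30212) (nat_lit 0) (p (nat_lit 0x20192) (nat_lit 0) (p (nat_lit 0x20092) (nat_lit 0) (p (nat_lit 0x10012) (nat_lit 0) pn)))))))))))))))))))))) :=
  Cl.node (nat_lit 0xc9) (nat_lit 2) (by decide +kernel) (ClAll.succ (ClAll.succ ClAll.zero n107) s149)

def n135 : Cl (O (nat_lit 2)) (R (nat_lit 104465))
    (p (nat_lit 0xc9) (nat_lit 1) (p (nat_lit 0x89) (nat_lit 1) (p (nat_lit 0x111) (nat_lit 1) (p (nat_lit 0xd1) (nat_lit 1) (p (nat_lit 0x81) (nat_lit 0) (p (nat_lit 0x41) (nat_lit 1) (p (nat_lit 0x88078907089a) (nat_lit 0) (p (nat_lit 0x87870886861a) (nat_lit 0) (p (nat_lit 0x80000000070806078a) (nat_lit 0) (p (nat_lit 0x80000000068785850a) (nat_lit 0) (p (nat_lit 0x8587050682) (nat_lit 0) (p (nat_lit 0x8506848402) (nat_lit 0) (p (nat_lit 0x160014) (nat_lit 0) (p (nat_lit 0x160004) (nat_lit 0) (p (nat_lit 0x50612) (nat_lit 0) (p (nat_lit 0x40592) (nat_lit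 0) (p (nat_lit 0x40492) (nat_lit 0) (p (nat_lit 0x30412) (nat_lit 0) (p (nat_lit 0x30212) (nat_lit 0) (p (nat_lit 0x20192) (nat_lit 0) (p (nat_lit 0x20092) (nat_lit 0) (p (nat_lit 0x10012) (nat_lit 0) pn)))))))))))))))))))))) :=
  Cl.node (nat_lit 0x109) (nat_lit 2) (by decide +kernel) (ClAll.succ (ClAll.succ ClAll.zero n108) s154)

def n136 : Cl (O (nat_lit 2)) (R (nat_lit 104465))
    (p (nat_lit 0x109) (nat_lit 0) (p (nat_lit 0x101) (nat_lit 0) (p (nat_lit 0x119) (nat_lit 0) (p (nat_lit 0xc1) (nat_lit 0) (p (nat_lit 0x81) (nat_lit 1) (p (nat_lit 0x41) (nat_lit 1) (p (nat_lit 0x88078907089a) (nat_lit 0) (p (nat_lit 0x87870886861a) (nat_lit 0) (p (nat_lit 0x80000000070806078a) (nat_lit 0) (p (nat_lit 0x80000000068785850a) (nat_lit 0) (p (nat_lit 0x8587050682) (nat_lit 0) (p (nat_lit 0x8506848402) (nat_lit 0) (p (nat_lit 0x160014) (nat_lit 0) (p (nat_lit 0x160004) (nat_lit 0) (p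 (nat_lit 0x50612) (nat_lit 0) (p (nat_lit 0x40592) (nat_lit 0) (p (nat_lit 0x40492) (nat_lit 0) (p (nat_lit 0x30412) (nat_lit 0) (p (nat_lit 0x30212) (nat_lit 0) (p (nat_lit 0x20192) (nat_lit 0) (p (nat_lit 0x20092) (nat_lit 0) (p (nat_lit 0x10012) (nat_lit 0) pn)))))))))))))))))))))) :=
  Cl.node (nat_lit 0x111) (nat_lit 2) (by decide +kernel) (ClAll.succ (ClAll.succ ClAll.zero s155) n109)

def n137 : Cl (O (nat_lit 2)) (R (nat_lit 104465))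
    (p (nat_lit 0x109) (nat_lit 1) (p (nat_lit 0x101) (nat_lit 0) (p (nat_lit 0x119) (nat_lit 0) (p (nat_lit 0xc1) (nat_lit 0) (p (nat_lit 0x81) (nat_lit 1) (p (nat_lit 0x41) (nat_lit 1) (p (nat_lit 0x88078907089a) (nat_lit 0) (p (nat_lit 0x87870886861a) (nat_lit 0) (p (nat_lit 0x80000000070806078a) (nat_lit 0) (p (nat_lit 0x80000000068785850a) (nat_lit 0) (p (nat_lit 0x8587050682) (nat_lit 0) (p (nat_lit 0x8506848402) (nat_lit 0) (p (nat_lit 0x160014) (nat_lit 0) (p (nat_lit 0x160004) (nat_lit 0) (p (nat_lit 0x50612) (nat_lit 0) (p (nat_lit 0x40592) (nat_lit 0) (p (nat_lit 0x40492) (nat_lit 0) (p (nat_lit 0x30412) (nat_lit 0) (p (nat_lit 0x30212) (nat_lit 0) (p (nat_lit 0x20192) (nat_lit 0) (p (nat_lit 0x20092) (nat_lit 0) (p (nat_lit 0x10012) (nat_lit 0) pn)))))))))))))))))))))) :=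
  Cl.node (nat_lit 0xc9) (nat_lit 2) (by decide +kernel) (ClAll.succ (ClAll.succ ClAll.zero s158) s159)

def n138 : Cl (O (nat_lit 2)) (R (nat_lit 104465))
    (p (nat_lit 0xc9) (nat_lit 0) (p (nat_lit 0x101) (nat_lit 1) (p (nat_lit 0x119) (nat_lit 0) (p (nat_lit 0xc1) (nat_lit 0) (p (nat_lit 0x81) (nat_lit 1) (p (nat_lit 0x41) (nat_lit 1) (p (nat_lit 0x88078907089a) (nat_lit 0) (p (nat_lit 0x87870886861a) (nat_lit 0) (p (nat_lit 0x80000000070806078a) (nat_lit 0) (p (nat_lit 0x80000000068785850a) (nat_lit 0) (p (nat_lit 0x8587050682) (nat_lit 0) (p (nat_lit 0x8506848402) (nat_lit 0) (p (nat_lit 0x160014) (nat_lit 0) (p (nat_lit 0x160004) (nat_lit 0) (p (nat_lit 0x50612) (nat_lit 0) (p (nat_lit 0x40592) (nat_lit 0) (p (nat_lit 0x40492) (nat_lit 0) (p (nat_lit 0x30412) (nat_lit 0) (p (nat_lit 0x30212) (nat_lit 0) (p (nat_lit 0x20192) (nat_lit 0) (p (nat_lit 0x20092) (nat_lit 0) (p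 (nat_lit 0x10012) (nat_lit 0) pn)))))))))))))))))))))) :=
  Cl.node (nat_lit 0xd1) (nat_lit 2) (by decide +kernel) (ClAll.succ (ClAll.succ ClAll.zero n110) n111)

def n139 : Cl (O (nat_lit 2)) (R (nat_lit 104465))
    (p (nat_lit 0x109) (nat_lit 0) (p (nat_lit 0xc9) (nat_lit 1) (p (nat_lit 0x119) (nat_lit 1) (p (nat_lit 0xc1) (nat_lit 0) (p (nat_lit 0x81) (nat_lit 1) (p (nat_lit 0x41) (nat_lit 1) (p (nat_lit 0x88078907089a) (nat_lit 0) (p (nat_lit 0x87870886861a) (nat_lit 0) (p (nat_lit 0x80000000070806078a) (nat_lit 0) (p (nat_lit 0x80000000068785850a) (nat_lit 0) (p (nat_lit 0x8587050682) (nat_lit 0) (p (nat_lit 0x8506848402) (nat_lit 0) (p (nat_lit 0x160014) (nat_lit 0) (p (nat_lit 0x160004) (nat_lit 0) (p (nat_lit 0x50612) (nat_lit 0) (p (nat_lit 0x40592) (nat_lit 0) (p (nat_lit 0x40492) (nat_lit 0) (p (nat_lit 0x30412) (nat_lit 0) (p (nat_lit 0x30212) (nat_lit 0) (p (nat_lit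 0x20192) (nat_lit 0) (p (nat_lit 0x20092) (nat_lit 0) (p (nat_lit 0x10012) (nat_lit 0) pn)))))))))))))))))))))) :=
  Cl.node (nat_lit 0x111) (nat_lit 2) (by decide +kernel) (ClAll.succ (ClAll.succ ClAll.zero s168) n112)

def n140 : Cl (O (nat_lit 2)) (R (nat_lit 104465))
    (p (nat_lit 0x101) (nat_lit 0) (p (nat_lit 0x119) (nat_lit 0) (p (nat_lit 0xd1) (nat_lit 0) (p (nat_lit 0x89) (nat_lit 0) (p (nat_lit 0x41) (nat_lit 0) (p (nat_lit 0x88078907089a) (nat_lit 0) (p (nat_lit 0x87870886861a) (nat_lit 0) (p (nat_lit 0x80000000070806078a) (nat_lit 0) (p (nat_lit 0x80000000068785850a) (nat_lit 0) (p (nat_lit 0x8587050682) (nat_lit 0) (p (nat_lit 0x8506848402) (nat_lit 0) (p (nat_lit 0x160014) (nat_lit 0) (p (nat_lit 0x160004) (nat_lit 0) (p (nat_lit 0x50612) (nat_lit 0) (p (nat_lit 0x40592) (nat_lit 0) (p (nat_lit 0x40492) (nat_lit 0) (p (nat_lit 0x30412) (nat_lit 0) (p (nat_lit 0x30212)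 (nat_lit 0) (p (nat_lit 0x20192) (nat_lit 0) (p (nat_lit 0x20092) (nat_lit 0) (p (nat_lit 0x10012) (nat_lit 0) pn))))))))))))))))))))) :=
  Cl.node (nat_lit 0x109) (nat_lit 2) (by decide +kernel) (ClAll.succ (ClAll.succ ClAll.zero s0) n113)

def n141 : Cl (O (nat_lit 2)) (R (nat_lit 104465))
    (p (nat_lit 0x101) (nat_lit 1) (p (nat_lit 0x119) (nat_lit 0) (p (nat_lit 0xd1) (nat_lit 0) (p (nat_lit 0x89) (nat_lit 0) (p (nat_lit 0x41) (nat_lit 0) (p (nat_lit 0x88078907089a) (nat_lit 0) (p (nat_lit 0x87870886861a) (nat_lit 0) (p (nat_lit 0x80000000070806078a) (nat_lit 0) (p (nat_lit 0x80000000068785850a) (nat_lit 0) (p (nat_lit 0x8587050682) (nat_lit 0) (p (nat_lit 0x8506848402) (nat_lit 0) (p (nat_lit 0x160014) (nat_lit 0) (p (nat_lit 0x160004) (nat_lit 0) (p (nat_lit 0x50612) (nat_lit 0) (p (nat_lit 0x40592) (nat_lit 0) (p (nat_lit 0x40492) (nat_lit 0) (p (nat_lit 0x30412) (nat_lit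 0) (p (nat_lit 0x30212) (nat_lit 0) (p (nat_lit 0x20192) (nat_lit 0) (p (nat_lit 0x20092) (nat_lit 0) (p (nat_lit 0x10012) (nat_lit 0) pn))))))))))))))))))))) :=
  Cl.node (nat_lit 0x81) (nat_lit 2) (by decide +kernel) (ClAll.succ (ClAll.succ ClAll.zero n114) n115)

def n142 : Cl (O (nat_lit 2)) (R (nat_lit 104465))
    (p (nat_lit 0xc1) (nat_lit 0) (p (nat_lit 0x119) (nat_lit 1) (p (nat_lit 0xd1) (nat_lit 0) (p (nat_lit 0x89) (nat_lit 0) (p (nat_lit 0x41) (nat_lit 0) (p (nat_lit 0x88078907089a) (nat_lit 0) (p (nat_lit 0x87870886861a) (nat_lit 0) (p (nat_lit 0x80000000070806078a) (nat_lit 0) (p (nat_lit 0x80000000068785850a) (nat_lit 0) (p (nat_lit 0x8587050682) (nat_lit 0) (p (nat_lit 0x8506848402) (nat_lit 0) (p (nat_lit 0x160014) (nat_lit 0) (p (nat_lit 0x160004) (nat_lit 0) (p (nat_lit 0x50612) (nat_lit 0) (p (nat_lit 0x40592) (nat_lit 0) (p (nat_lit 0x40492) (nat_lit 0) (p (nat_lit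 0x30412) (nat_lit 0) (p (nat_lit 0x30212) (nat_lit 0) (p (nat_lit 0x20192) (nat_lit 0) (p (nat_lit 0x20092) (nat_lit 0) (p (nat_lit 0x10012) (nat_lit 0) pn))))))))))))))))))))) :=
  Cl.node (nat_lit 0xc9) (nat_lit 2) (by decide +kernel) (ClAll.succ (ClAll.succ ClAll.zero s19) s20)

def n143 : Cl (O (nat_lit 2)) (R (nat_lit 104465))
    (p (nat_lit 0xc1) (nat_lit 1) (p (nat_lit 0x119) (nat_lit 1) (p (nat_lit 0xd1) (nat_lit 0) (p (nat_lit 0x89) (nat_lit 0) (p (nat_lit 0x41) (nat_lit 0) (p (nat_lit 0x88078907089a) (nat_lit 0) (p (nat_lit 0x87870886861a) (nat_lit 0) (p (nat_lit 0x80000000070806078a) (nat_lit 0) (p (nat_lit 0x80000000068785850a) (nat_lit 0) (p (nat_lit 0x8587050682) (nat_lit 0) (p (nat_lit 0x8506848402) (nat_lit 0) (p (nat_lit 0x160014) (nat_lit 0) (p (nat_lit 0x160004) (nat_lit 0) (p (nat_lit 0x50612) (nat_lit 0) (p (nat_lit 0x40592) (nat_lit 0) (p (nat_lit 0x40492)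 (nat_lit 0) (p (nat_lit 0x30412) (nat_lit 0) (p (nat_lit 0x30212) (nat_lit 0) (p (nat_lit 0x20192) (nat_lit 0) (p (nat_lit 0x20092) (nat_lit 0) (p (nat_lit 0x10012) (nat_lit 0) pn))))))))))))))))))))) :=
  Cl.node (nat_lit 0x81) (nat_lit 2) (by decide +kernel) (ClAll.succ (ClAll.succ ClAll.zero s21) n116)

def n144 : Cl (O (nat_lit 2)) (R (nat_lit 104465))
    (p (nat_lit 0x101) (nat_lit 0) (p (nat_lit 0x111) (nat_lit 0) (p (nat_lit 0xd1) (nat_lit 1) (p (nat_lit 0x89) (nat_lit 0) (p (nat_lit 0x41) (nat_lit 0) (p (nat_lit 0x88078907089a) (nat_lit 0) (p (nat_lit 0x87870886861a) (nat_lit 0) (p (nat_lit 0x80000000070806078a) (nat_lit 0) (p (nat_lit 0x80000000068785850a) (nat_lit 0) (p (nat_lit 0x8587050682) (nat_lit 0) (p (nat_lit 0x8506848402) (nat_lit 0) (p (nat_lit 0x160014) (nat_lit 0) (p (nat_lit 0x160004) (nat_lit 0) (p (nat_lit 0x50612) (nat_lit 0) (p (nat_lit 0x40592) (nat_lit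 0) (p (nat_lit 0x40492) (nat_lit 0) (p (nat_lit 0x30412) (nat_lit 0) (p (nat_lit 0x30212) (nat_lit 0) (p (nat_lit 0x20192) (nat_lit 0) (p (nat_lit 0x20092) (nat_lit 0) (p (nat_lit 0x10012) (nat_lit 0) pn))))))))))))))))))))) :=
  Cl.node (nat_lit 0x109) (nat_lit 2) (by decide +kernel) (ClAll.succ (ClAll.succ ClAll.zero s28) n117)

def n145 : Cl (O (nat_lit 2)) (R (nat_lit 104465))
    (p (nat_lit 0x101) (nat_lit 1) (p (nat_lit 0x111) (nat_lit 0) (p (nat_lit 0xd1) (nat_lit 1) (p (nat_lit 0x89) (nat_lit 0) (p (nat_lit 0x41) (nat_lit 0) (p (nat_lit 0x88078907089a) (nat_lit 0) (p (nat_lit 0x87870886861a) (nat_lit 0) (p (nat_lit 0x80000000070806078a) (nat_lit 0) (p (nat_lit 0x80000000068785850a) (nat_lit 0) (p (nat_lit 0x8587050682) (nat_lit 0) (p (nat_lit 0x8506848402) (nat_lit 0) (p (nat_lit 0x160014) (nat_lit 0) (p (nat_lit 0x160004) (nat_lit 0) (p (nat_lit 0x50612) (nat_lit 0) (p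 (nat_lit 0x40592) (nat_lit 0) (p (nat_lit 0x40492) (nat_lit 0) (p (nat_lit 0x30412) (nat_lit 0) (p (nat_lit 0x30212) (nat_lit 0) (p (nat_lit 0x20192) (nat_lit 0) (p (nat_lit 0x20092) (nat_lit 0) (p (nat_lit 0x10012) (nat_lit 0) pn))))))))))))))))))))) :=
  Cl.node (nat_lit 0x81) (nat_lit 2) (by decide +kernel) (ClAll.succ (ClAll.succ ClAll.zero n118) n119)

def n146 : Cl (O (nat_lit 2)) (R (nat_lit 104465))
    (p (nat_lit 0x81) (nat_lit 1) (p (nat_lit 0x111) (nat_lit 1) (p (nat_lit 0xd1) (nat_lit 1) (p (nat_lit 0x89) (nat_lit 0) (p (nat_lit 0x41) (nat_lit 0) (p (nat_lit 0x88078907089a) (nat_lit 0) (p (nat_lit 0x87870886861a) (nat_lit 0) (p (nat_lit 0x80000000070806078a) (nat_lit 0) (p (nat_lit 0x80000000068785850a) (nat_lit 0) (p (nat_lit 0x8587050682) (nat_lit 0) (p (nat_lit 0x8506848402) (nat_lit 0) (p (nat_lit 0x160014) (nat_lit 0) (p (nat_lit 0x160004) (nat_lit 0) (p (nat_lit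 0x50612) (nat_lit 0) (p (nat_lit 0x40592) (nat_lit 0) (p (nat_lit 0x40492) (nat_lit 0) (p (nat_lit 0x30412) (nat_lit 0) (p (nat_lit 0x30212) (nat_lit 0) (p (nat_lit 0x20192) (nat_lit 0) (p (nat_lit 0x20092) (nat_lit 0) (p (nat_lit 0x10012) (nat_lit 0) pn))))))))))))))))))))) :=
  Cl.node (nat_lit 0xc1) (nat_lit 2) (by decide +kernel) (ClAll.succ (ClAll.succ ClAll.zero s46) n120)

def n147 : Cl (O (nat_lit 2)) (R (nat_lit 104465))
    (p (nat_lit 0x101) (nat_lit 0) (p (nat_lit 0x119) (nat_lit 0) (p (nat_lit 0xc9) (nat_lit 0) (p (nat_lit 0x89) (nat_lit 1) (p (nat_lit 0x41) (nat_lit 0) (p (nat_lit 0x88078907089a) (nat_lit 0) (p (nat_lit 0x87870886861a) (nat_lit 0) (p (nat_lit 0x80000000070806078a) (nat_lit 0) (p (nat_lit 0x80000000068785850a) (nat_lit 0) (p (nat_lit 0x8587050682) (nat_lit 0) (p (nat_lit 0x8506848402) (nat_lit 0) (p (nat_lit 0x160014) (nat_lit 0) (p (nat_lit 0x160004)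 (nat_lit 0) (p (nat_lit 0x50612) (nat_lit 0) (p (nat_lit 0x40592) (nat_lit 0) (p (nat_lit 0x40492) (nat_lit 0) (p (nat_lit 0x30412) (nat_lit 0) (p (nat_lit 0x30212) (nat_lit 0) (p (nat_lit 0x20192) (nat_lit 0) (p (nat_lit 0x20092) (nat_lit 0) (p (nat_lit 0x10012) (nat_lit 0) pn))))))))))))))))))))) :=
  Cl.node (nat_lit 0x109) (nat_lit 2) (by decide +kernel) (ClAll.succ (ClAll.succ ClAll.zero n121) n122)

def n148 : Cl (O (nat_lit 2)) (R (nat_lit 104465))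
    (p (nat_lit 0x101) (nat_lit 1) (p (nat_lit 0x119) (nat_lit 0) (p (nat_lit 0xc9) (nat_lit 0) (p (nat_lit 0x89) (nat_lit 1) (p (nat_lit 0x41) (nat_lit 0) (p (nat_lit 0x88078907089a) (nat_lit 0) (p (nat_lit 0x87870886861a) (nat_lit 0) (p (nat_lit 0x80000000070806078a) (nat_lit 0) (p (nat_lit 0x80000000068785850a) (nat_lit 0) (p (nat_lit 0x8587050682) (nat_lit 0) (p (nat_lit 0x8506848402) (nat_lit 0) (p (nat_lit 0x160014) (nat_lit 0) (p (nat_lit 0x160004) (nat_lit 0) (p (nat_lit 0x50612) (nat_lit 0) (p (nat_lit 0x40592) (nat_lit 0) (p (nat_lit 0x40492) (nat_lit 0) (p (nat_lit 0x30412) (nat_lit 0) (p (nat_lit 0x30212) (nat_lit 0) (p (nat_lit 0x20192) (nat_lit 0) (p (nat_lit 0x20092) (nat_lit 0) (p (nat_lit 0x10012) (nat_lit 0) pn))))))))))))))))))))) :=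
  Cl.node (nat_lit 0xc1) (nat_lit 2) (by decide +kernel) (ClAll.succ (ClAll.succ ClAll.zero n123) s84)

def n149 : Cl (O (nat_lit 2)) (R (nat_lit 104465))
    (p (nat_lit 0xc1) (nat_lit 0) (p (nat_lit 0x119) (nat_lit 1) (p (nat_lit 0xc9) (nat_lit 0) (p (nat_lit 0x89) (nat_lit 1) (p (nat_lit 0x41) (nat_lit 0) (p (nat_lit 0x88078907089a) (nat_lit 0) (p (nat_lit 0x87870886861a) (nat_lit 0) (p (nat_lit 0x80000000070806078a) (nat_lit 0) (p (nat_lit 0x80000000068785850a) (nat_lit 0) (p (nat_lit 0x8587050682) (nat_lit 0) (p (nat_lit 0x8506848402) (nat_lit 0) (p (nat_lit 0x160014) (nat_lit 0) (p (nat_lit 0x160004) (nat_lit 0) (p (nat_lit 0x50612) (nat_lit 0) (p (nat_lit 0x40592) (nat_lit 0) (p (nat_lit 0x40492) (nat_lit 0) (p (nat_lit 0x30412) (nat_lit 0) (p (nat_lit 0x30212) (nat_lit 0) (p (nat_lit 0x20192) (nat_lit 0) (p (nat_lit 0x20092) (nat_lit 0) (p (nat_lit 0x10012) (nat_lit 0) pn)))))))))))))))))))))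 :=
  Cl.node (nat_lit 0xd1) (nat_lit 2) (by decide +kernel) (ClAll.succ (ClAll.succ ClAll.zero s85) n124)

def n150 : Cl (O (nat_lit 2)) (R (nat_lit 104465))
    (p (nat_lit 0xc1) (nat_lit 1) (p (nat_lit 0x119) (nat_lit 1) (p (nat_lit 0xc9) (nat_lit 0) (p (nat_lit 0x89) (nat_lit 1) (p (nat_lit 0x41) (nat_lit 0) (p (nat_lit 0x88078907089a) (nat_lit 0) (p (nat_lit 0x87870886861a) (nat_lit 0) (p (nat_lit 0x80000000070806078a) (nat_lit 0) (p (nat_lit 0x80000000068785850a) (nat_lit 0) (p (nat_lit 0x8587050682) (nat_lit 0) (p (nat_lit 0x8506848402) (nat_lit 0) (p (nat_lit 0x160014) (nat_lit 0) (p (nat_lit 0x160004) (nat_lit 0) (p (nat_lit 0x50612) (nat_lit 0) (p (nat_lit 0x40592) (nat_lit 0) (p (nat_lit 0x40492) (nat_lit 0) (p (nat_lit 0x30412) (nat_lit 0) (p (nat_lit 0x30212) (nat_lit 0) (p (nat_lit 0x20192) (nat_lit 0) (p (nat_lit 0x20092) (nat_lit 0) (p (nat_lit 0x10012) (nat_lit 0)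 pn))))))))))))))))))))) :=
  Cl.node (nat_lit 0x101) (nat_lit 2) (by decide +kernel) (ClAll.succ (ClAll.succ ClAll.zero n125) s99)

def n151 : Cl (O (nat_lit 2)) (R (nat_lit 104465))
    (p (nat_lit 0x101) (nat_lit 0) (p (nat_lit 0x109) (nat_lit 0) (p (nat_lit 0xc9) (nat_lit 1) (p (nat_lit 0x89) (nat_lit 1) (p (nat_lit 0x41) (nat_lit 0) (p (nat_lit 0x88078907089a) (nat_lit 0) (p (nat_lit 0x87870886861a) (nat_lit 0) (p (nat_lit 0x80000000070806078a) (nat_lit 0) (p (nat_lit 0x80000000068785850a) (nat_lit 0) (p (nat_lit 0x8587050682) (nat_lit 0) (p (nat_lit 0x8506848402) (nat_lit 0) (p (nat_lit 0x160014) (nat_lit 0) (p (nat_lit 0x160004) (nat_lit 0) (p (nat_lit 0x50612) (nat_lit 0) (p (nat_lit 0x40592) (nat_lit 0) (p (nat_lit 0x40492) (nat_lit 0) (p (nat_lit 0x30412) (nat_lit 0) (p (nat_lit 0x30212) (nat_lit 0) (p (nat_lit 0x20192) (nat_lit 0) (p (nat_lit 0x20092) (nat_lit 0) (p (nat_lit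 0x10012) (nat_lit 0) pn))))))))))))))))))))) :=
  Cl.node (nat_lit 0x111) (nat_lit 2) (by decide +kernel) (ClAll.succ (ClAll.succ ClAll.zero s100) s101)

def n152 : Cl (O (nat_lit 2)) (R (nat_lit 104465))
    (p (nat_lit 0x101) (nat_lit 0) (p (nat_lit 0x119) (nat_lit 0) (p (nat_lit 0xd1) (nat_lit 0) (p (nat_lit 0x81) (nat_lit 0) (p (nat_lit 0x41) (nat_lit 1) (p (nat_lit 0x88078907089a) (nat_lit 0) (p (nat_lit 0x87870886861a) (nat_lit 0) (p (nat_lit 0x80000000070806078a) (nat_lit 0) (p (nat_lit 0x80000000068785850a) (nat_lit 0) (p (nat_lit 0x8587050682) (nat_lit 0) (p (nat_lit 0x8506848402) (nat_lit 0) (p (nat_lit 0x160014) (nat_lit 0) (p (nat_lit 0x160004) (nat_lit 0) (p (nat_lit 0x50612) (nat_lit 0) (p (nat_lit 0x40592) (nat_lit 0) (p (nat_lit 0x40492) (nat_lit 0) (p (nat_lit 0x30412) (nat_lit 0) (p (nat_lit 0x30212) (nat_lit 0) (p (nat_lit 0x20192) (nat_lit 0) (p (nat_lit 0x20092)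 (nat_lit 0) (p (nat_lit 0x10012) (nat_lit 0) pn))))))))))))))))))))) :=
  Cl.node (nat_lit 0x109) (nat_lit 2) (by decide +kernel) (ClAll.succ (ClAll.succ ClAll.zero s104) n126)

def n153 : Cl (O (nat_lit 2)) (R (nat_lit 104465))
    (p (nat_lit 0x101) (nat_lit 1) (p (nat_lit 0x119) (nat_lit 0) (p (nat_lit 0xd1) (nat_lit 0) (p (nat_lit 0x81) (nat_lit 0) (p (nat_lit 0x41) (nat_lit 1) (p (nat_lit 0x88078907089a) (nat_lit 0) (p (nat_lit 0x87870886861a) (nat_lit 0) (p (nat_lit 0x80000000070806078a) (nat_lit 0) (p (nat_lit 0x80000000068785850a) (nat_lit 0) (p (nat_lit 0x8587050682) (nat_lit 0) (p (nat_lit 0x8506848402) (nat_lit 0) (p (nat_lit 0x160014) (nat_lit 0) (p (nat_lit 0x160004) (nat_lit 0) (p (nat_lit 0x50612) (nat_lit 0) (p (nat_lit 0x40592) (nat_lit 0) (p (nat_lit 0x40492) (nat_lit 0) (p (nat_lit 0x30412) (nat_lit 0) (p (nat_lit 0x30212) (nat_lit 0) (p (nat_lit 0x20192) (nat_lit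 0) (p (nat_lit 0x20092) (nat_lit 0) (p (nat_lit 0x10012) (nat_lit 0) pn))))))))))))))))))))) :=
  Cl.node (nat_lit 0xc1) (nat_lit 2) (by decide +kernel) (ClAll.succ (ClAll.succ ClAll.zero n127) n128)

def n154 : Cl (O (nat_lit 2)) (R (nat_lit 104465))
    (p (nat_lit 0xc1) (nat_lit 0) (p (nat_lit 0x119) (nat_lit 1) (p (nat_lit 0xd1) (nat_lit 0) (p (nat_lit 0x81) (nat_lit 0) (p (nat_lit 0x41) (nat_lit 1) (p (nat_lit 0x88078907089a) (nat_lit 0) (p (nat_lit 0x87870886861a) (nat_lit 0) (p (nat_lit 0x80000000070806078a) (nat_lit 0) (p (nat_lit 0x80000000068785850a) (nat_lit 0) (p (nat_lit 0x8587050682) (nat_lit 0) (p (nat_lit 0x8506848402) (nat_lit 0) (p (nat_lit 0x160014) (nat_lit 0) (p (nat_lit 0x160004) (nat_lit 0) (p (nat_lit 0x50612) (nat_lit 0) (p (nat_lit 0x40592) (nat_lit 0) (p (nat_lit 0x40492) (nat_lit 0) (p (nat_lit 0x30412) (nat_lit 0) (p (nat_lit 0x30212) (nat_lit 0) (p (nat_lit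 0x20192) (nat_lit 0) (p (nat_lit 0x20092) (nat_lit 0) (p (nat_lit 0x10012) (nat_lit 0) pn))))))))))))))))))))) :=
  Cl.node (nat_lit 0xc9) (nat_lit 2) (by decide +kernel) (ClAll.succ (ClAll.succ ClAll.zero s120) n129)

def n155 : Cl (O (nat_lit 2)) (R (nat_lit 104465))
    (p (nat_lit 0xc1) (nat_lit 1) (p (nat_lit 0x119) (nat_lit 1) (p (nat_lit 0xd1) (nat_lit 0) (p (nat_lit 0x81) (nat_lit 0) (p (nat_lit 0x41) (nat_lit 1) (p (nat_lit 0x88078907089a) (nat_lit 0) (p (nat_lit 0x87870886861a) (nat_lit 0) (p (nat_lit 0x80000000070806078a) (nat_lit 0) (p (nat_lit 0x80000000068785850a) (nat_lit 0) (p (nat_lit 0x8587050682) (nat_lit 0) (p (nat_lit 0x8506848402) (nat_lit 0) (p (nat_lit 0x160014) (nat_lit 0) (p (nat_lit 0x160004) (nat_lit 0) (p (nat_lit 0x50612) (nat_lit 0) (p (nat_lit 0x40592) (nat_lit 0) (p (nat_lit 0x40492) (nat_lit 0) (p (nat_lit 0x30412) (nat_lit 0) (p (nat_lit 0x30212)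 (nat_lit 0) (p (nat_lit 0x20192) (nat_lit 0) (p (nat_lit 0x20092) (nat_lit 0) (p (nat_lit 0x10012) (nat_lit 0) pn))))))))))))))))))))) :=
  Cl.node (nat_lit 0x101) (nat_lit 2) (by decide +kernel) (ClAll.succ (ClAll.succ ClAll.zero n130) n131)

def n156 : Cl (O (nat_lit 2)) (R (nat_lit 104465))
    (p (nat_lit 0x101) (nat_lit 0) (p (nat_lit 0x111) (nat_lit 0) (p (nat_lit 0xd1) (nat_lit 1) (p (nat_lit 0x81) (nat_lit 0) (p (nat_lit 0x41) (nat_lit 1) (p (nat_lit 0x88078907089a) (nat_lit 0) (p (nat_lit 0x87870886861a) (nat_lit 0) (p (nat_lit 0x80000000070806078a) (nat_lit 0) (p (nat_lit 0x80000000068785850a) (nat_lit 0) (p (nat_lit 0x8587050682) (nat_lit 0) (p (nat_lit 0x8506848402) (nat_lit 0) (p (nat_lit 0x160014) (nat_lit 0) (p (nat_lit 0x160004) (nat_lit 0) (p (nat_lit 0x50612) (nat_lit 0) (p (nat_lit 0x40592) (nat_lit 0) (p (nat_lit 0x40492) (nat_lit 0) (p (nat_lit 0x30412) (nat_lit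 0) (p (nat_lit 0x30212) (nat_lit 0) (p (nat_lit 0x20192) (nat_lit 0) (p (nat_lit 0x20092) (nat_lit 0) (p (nat_lit 0x10012) (nat_lit 0) pn))))))))))))))))))))) :=
  Cl.node (nat_lit 0x109) (nat_lit 2) (by decide +kernel) (ClAll.succ (ClAll.succ ClAll.zero s134) n132)

def n157 : Cl (O (nat_lit 2)) (R (nat_lit 104465))
    (p (nat_lit 0x101) (nat_lit 1) (p (nat_lit 0x111) (nat_lit 0) (p (nat_lit 0xd1) (nat_lit 1) (p (nat_lit 0x81) (nat_lit 0) (p (nat_lit 0x41) (nat_lit 1) (p (nat_lit 0x88078907089a) (nat_lit 0) (p (nat_lit 0x87870886861a) (nat_lit 0) (p (nat_lit 0x80000000070806078a) (nat_lit 0) (p (nat_lit 0x80000000068785850a) (nat_lit 0) (p (nat_lit 0x8587050682) (nat_lit 0) (p (nat_lit 0x8506848402) (nat_lit 0) (p (nat_lit 0x160014) (nat_lit 0) (p (nat_lit 0x160004) (nat_lit 0) (p (nat_lit 0x50612) (nat_lit 0) (p (nat_lit 0x40592) (nat_lit 0) (p (nat_lit 0x40492) (nat_lit 0) (p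 (nat_lit 0x30412) (nat_lit 0) (p (nat_lit 0x30212) (nat_lit 0) (p (nat_lit 0x20192) (nat_lit 0) (p (nat_lit 0x20092) (nat_lit 0) (p (nat_lit 0x10012) (nat_lit 0) pn))))))))))))))))))))) :=
  Cl.node (nat_lit 0x89) (nat_lit 2) (by decide +kernel) (ClAll.succ (ClAll.succ ClAll.zero n133) n134)

def n158 : Cl (O (nat_lit 2)) (R (nat_lit 104465))
    (p (nat_lit 0x89) (nat_lit 1) (p (nat_lit 0x111) (nat_lit 1) (p (nat_lit 0xd1) (nat_lit 1) (p (nat_lit 0x81) (nat_lit 0) (p (nat_lit 0x41) (nat_lit 1) (p (nat_lit 0x88078907089a) (nat_lit 0) (p (nat_lit 0x87870886861a) (nat_lit 0) (p (nat_lit 0x80000000070806078a) (nat_lit 0) (p (nat_lit 0x80000000068785850a) (nat_lit 0) (p (nat_lit 0x8587050682) (nat_lit 0) (p (nat_lit 0x8506848402) (nat_lit 0) (p (nat_lit 0x160014) (nat_lit 0) (p (nat_lit 0x160004) (nat_lit 0) (p (nat_lit 0x50612) (nat_lit 0) (p (nat_lit 0x40592) (nat_lit 0) (p (nat_lit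 0x40492) (nat_lit 0) (p (nat_lit 0x30412) (nat_lit 0) (p (nat_lit 0x30212) (nat_lit 0) (p (nat_lit 0x20192) (nat_lit 0) (p (nat_lit 0x20092) (nat_lit 0) (p (nat_lit 0x10012) (nat_lit 0) pn))))))))))))))))))))) :=
  Cl.node (nat_lit 0xc9) (nat_lit 2) (by decide +kernel) (ClAll.succ (ClAll.succ ClAll.zero s151) n135)

def n159 : Cl (O (nat_lit 2)) (R (nat_lit 104465))
    (p (nat_lit 0x101) (nat_lit 0) (p (nat_lit 0x119) (nat_lit 0) (p (nat_lit 0xc1) (nat_lit 0) (p (nat_lit 0x81) (nat_lit 1) (p (nat_lit 0x41) (nat_lit 1) (p (nat_lit 0x88078907089a) (nat_lit 0) (p (nat_lit 0x87870886861a) (nat_lit 0) (p (nat_lit 0x80000000070806078a) (nat_lit 0) (p (nat_lit 0x80000000068785850a) (nat_lit 0) (p (nat_lit 0x8587050682) (nat_lit 0) (p (nat_lit 0x8506848402) (nat_lit 0) (p (nat_lit 0x160014) (nat_lit 0) (p (nat_lit 0x160004) (nat_lit 0) (p (nat_lit 0x50612) (nat_lit 0) (p (nat_lit 0x40592)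 (nat_lit 0) (p (nat_lit 0x40492) (nat_lit 0) (p (nat_lit 0x30412) (nat_lit 0) (p (nat_lit 0x30212) (nat_lit 0) (p (nat_lit 0x20192) (nat_lit 0) (p (nat_lit 0x20092) (nat_lit 0) (p (nat_lit 0x10012) (nat_lit 0) pn))))))))))))))))))))) :=
  Cl.node (nat_lit 0x109) (nat_lit 2) (by decide +kernel) (ClAll.succ (ClAll.succ ClAll.zero n136) n137)

def n160 : Cl (O (nat_lit 2)) (R (nat_lit 104465))
    (p (nat_lit 0x101) (nat_lit 1) (p (nat_lit 0x119) (nat_lit 0) (p (nat_lit 0xc1) (nat_lit 0) (p (nat_lit 0x81) (nat_lit 1) (p (nat_lit 0x41) (nat_lit 1) (p (nat_lit 0x88078907089a) (nat_lit 0) (p (nat_lit 0x87870886861a) (nat_lit 0) (p (nat_lit 0x80000000070806078a) (nat_lit 0) (p (nat_lit 0x80000000068785850a) (nat_lit 0) (p (nat_lit 0x8587050682) (nat_lit 0) (p (nat_lit 0x8506848402) (nat_lit 0) (p (nat_lit 0x160014) (nat_lit 0) (p (nat_lit 0x160004) (nat_lit 0) (p (nat_lit 0x50612) (nat_lit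 0) (p (nat_lit 0x40592) (nat_lit 0) (p (nat_lit 0x40492) (nat_lit 0) (p (nat_lit 0x30412) (nat_lit 0) (p (nat_lit 0x30212) (nat_lit 0) (p (nat_lit 0x20192) (nat_lit 0) (p (nat_lit 0x20092) (nat_lit 0) (p (nat_lit 0x10012) (nat_lit 0) pn))))))))))))))))))))) :=
  Cl.node (nat_lit 0xc9) (nat_lit 2) (by decide +kernel) (ClAll.succ (ClAll.succ ClAll.zero n138) s166)

def n161 : Cl (O (nat_lit 2)) (R (nat_lit 104465))
    (p (nat_lit 0xc9) (nat_lit 1) (p (nat_lit 0x119) (nat_lit 1) (p (nat_lit 0xc1) (nat_lit 0) (p (nat_lit 0x81) (nat_lit 1) (p (nat_lit 0x41) (nat_lit 1) (p (nat_lit 0x88078907089a) (nat_lit 0) (p (nat_lit 0x87870886861a) (nat_lit 0) (p (nat_lit 0x80000000070806078a) (nat_lit 0) (p (nat_lit 0x80000000068785850a) (nat_lit 0) (p (nat_lit 0x8587050682) (nat_lit 0) (p (nat_lit 0x8506848402) (nat_lit 0) (p (nat_lit 0x160014) (nat_lit 0) (p (nat_lit 0x160004) (nat_lit 0) (p (nat_lit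 0x50612) (nat_lit 0) (p (nat_lit 0x40592) (nat_lit 0) (p (nat_lit 0x40492) (nat_lit 0) (p (nat_lit 0x30412) (nat_lit 0) (p (nat_lit 0x30212) (nat_lit 0) (p (nat_lit 0x20192) (nat_lit 0) (p (nat_lit 0x20092) (nat_lit 0) (p (nat_lit 0x10012) (nat_lit 0) pn))))))))))))))))))))) :=
  Cl.node (nat_lit 0x109) (nat_lit 2) (by decide +kernel) (ClAll.succ (ClAll.succ ClAll.zero n139) s172)

def n162 : Cl (O (nat_lit 2)) (R (nat_lit 104465))
    (p (nat_lit 0x119) (nat_lit 0) (p (nat_lit 0xd1) (nat_lit 0) (p (nat_lit 0x89) (nat_lit 0) (p (nat_lit 0x41) (nat_lit 0) (p (nat_lit 0x88078907089a) (nat_lit 0) (p (nat_lit 0x87870886861a) (nat_lit 0) (p (nat_lit 0x80000000070806078a) (nat_lit 0) (p (nat_lit 0x80000000068785850a) (nat_lit 0) (p (nat_lit 0x8587050682) (nat_lit 0) (p (nat_lit 0x8506848402) (nat_lit 0) (p (nat_lit 0x160014) (nat_lit 0) (p (nat_lit 0x160004) (nat_lit 0) (p (nat_lit 0x50612)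 (nat_lit 0) (p (nat_lit 0x40592) (nat_lit 0) (p (nat_lit 0x40492) (nat_lit 0) (p (nat_lit 0x30412) (nat_lit 0) (p (nat_lit 0x30212) (nat_lit 0) (p (nat_lit 0x20192) (nat_lit 0) (p (nat_lit 0x20092) (nat_lit 0) (p (nat_lit 0x10012) (nat_lit 0) pn)))))))))))))))))))) :=
  Cl.node (nat_lit 0x101) (nat_lit 2) (by decide +kernel) (ClAll.succ (ClAll.succ ClAll.zero n140) n141)

def n163 : Cl (O (nat_lit 2)) (R (nat_lit 104465))
    (p (nat_lit 0x119) (nat_lit 1) (p (nat_lit 0xd1) (nat_lit 0) (p (nat_lit 0x89) (nat_lit 0) (p (nat_lit 0x41) (nat_lit 0) (p (nat_lit 0x88078907089a) (nat_lit 0) (p (nat_lit 0x87870886861a) (nat_lit 0) (p (nat_lit 0x80000000070806078a) (nat_lit 0) (p (nat_lit 0x80000000068785850a) (nat_lit 0) (p (nat_lit 0x8587050682) (nat_lit 0) (p (nat_lit 0x8506848402) (nat_lit 0) (p (nat_lit 0x160014) (nat_lit 0) (p (nat_lit 0x160004) (nat_lit 0) (p (nat_lit 0x50612) (nat_lit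 0) (p (nat_lit 0x40592) (nat_lit 0) (p (nat_lit 0x40492) (nat_lit 0) (p (nat_lit 0x30412) (nat_lit 0) (p (nat_lit 0x30212) (nat_lit 0) (p (nat_lit 0x20192) (nat_lit 0) (p (nat_lit 0x20092) (nat_lit 0) (p (nat_lit 0x10012) (nat_lit 0) pn)))))))))))))))))))) :=
  Cl.node (nat_lit 0xc1) (nat_lit 2) (by decide +kernel) (ClAll.succ (ClAll.succ ClAll.zero n142) n143)

def n164 : Cl (O (nat_lit 2)) (R (nat_lit 104465))
    (p (nat_lit 0x111) (nat_lit 0) (p (nat_lit 0xd1) (nat_lit 1) (p (nat_lit 0x89) (nat_lit 0) (p (nat_lit 0x41) (nat_lit 0) (p (nat_lit 0x88078907089a) (nat_lit 0) (p (nat_lit 0x87870886861a) (nat_lit 0) (p (nat_lit 0x80000000070806078a) (nat_lit 0) (p (nat_lit 0x80000000068785850a) (nat_lit 0) (p (nat_lit 0x8587050682) (nat_lit 0) (p (nat_lit 0x8506848402) (nat_lit 0) (p (nat_lit 0x160014) (nat_lit 0) (p (nat_lit 0x160004) (nat_lit 0) (p (nat_lit 0x50612) (nat_lit 0) (p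 (nat_lit 0x40592) (nat_lit 0) (p (nat_lit 0x40492) (nat_lit 0) (p (nat_lit 0x30412) (nat_lit 0) (p (nat_lit 0x30212) (nat_lit 0) (p (nat_lit 0x20192) (nat_lit 0) (p (nat_lit 0x20092) (nat_lit 0) (p (nat_lit 0x10012) (nat_lit 0) pn)))))))))))))))))))) :=
  Cl.node (nat_lit 0x101) (nat_lit 2) (by decide +kernel) (ClAll.succ (ClAll.succ ClAll.zero n144) n145)

def n165 : Cl (O (nat_lit 2)) (R (nat_lit 104465))
    (p (nat_lit 0x111) (nat_lit 1) (p (nat_lit 0xd1) (nat_lit 1) (p (nat_lit 0x89) (nat_lit 0) (p (nat_lit 0x41) (nat_lit 0) (p (nat_lit 0x88078907089a) (nat_lit 0) (p (nat_lit 0x87870886861a) (nat_lit 0) (p (nat_lit 0x80000000070806078a) (nat_lit 0) (p (nat_lit 0x80000000068785850a) (nat_lit 0) (p (nat_lit 0x8587050682) (nat_lit 0) (p (nat_lit 0x8506848402) (nat_lit 0) (p (nat_lit 0x160014) (nat_lit 0) (p (nat_lit 0x160004) (nat_lit 0) (p (nat_lit 0x50612) (nat_lit 0) (p (nat_lit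 0x40592) (nat_lit 0) (p (nat_lit 0x40492) (nat_lit 0) (p (nat_lit 0x30412) (nat_lit 0) (p (nat_lit 0x30212) (nat_lit 0) (p (nat_lit 0x20192) (nat_lit 0) (p (nat_lit 0x20092) (nat_lit 0) (p (nat_lit 0x10012) (nat_lit 0) pn)))))))))))))))))))) :=
  Cl.node (nat_lit 0x81) (nat_lit 2) (by decide +kernel) (ClAll.succ (ClAll.succ ClAll.zero s45) n146)

def n166 : Cl (O (nat_lit 2)) (R (nat_lit 104465))
    (p (nat_lit 0x119) (nat_lit 0) (p (nat_lit 0xc9) (nat_lit 0) (p (nat_lit 0x89) (nat_lit 1) (p (nat_lit 0x41) (nat_lit 0) (p (nat_lit 0x88078907089a) (nat_lit 0) (p (nat_lit 0x87870886861a) (nat_lit 0) (p (nat_lit 0x80000000070806078a) (nat_lit 0) (p (nat_lit 0x80000000068785850a) (nat_lit 0) (p (nat_lit 0x8587050682) (nat_lit 0) (p (nat_lit 0x8506848402) (nat_lit 0) (p (nat_lit 0x160014) (nat_lit 0) (p (nat_lit 0x160004) (nat_lit 0) (p (nat_lit 0x50612) (nat_lit 0) (p (nat_lit 0x40592)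 (nat_lit 0) (p (nat_lit 0x40492) (nat_lit 0) (p (nat_lit 0x30412) (nat_lit 0) (p (nat_lit 0x30212) (nat_lit 0) (p (nat_lit 0x20192) (nat_lit 0) (p (nat_lit 0x20092) (nat_lit 0) (p (nat_lit 0x10012) (nat_lit 0) pn)))))))))))))))))))) :=
  Cl.node (nat_lit 0x101) (nat_lit 2) (by decide +kernel) (ClAll.succ (ClAll.succ ClAll.zero n147) n148)

def n167 : Cl (O (nat_lit 2)) (R (nat_lit 104465))
    (p (nat_lit 0x119) (nat_lit 1) (p (nat_lit 0xc9) (nat_lit 0) (p (nat_lit 0x89) (nat_lit 1) (p (nat_lit 0x41) (nat_lit 0) (p (nat_lit 0x88078907089a) (nat_lit 0) (p (nat_lit 0x87870886861a) (nat_lit 0) (p (nat_lit 0x80000000070806078a) (nat_lit 0) (p (nat_lit 0x80000000068785850a) (nat_lit 0) (p (nat_lit 0x8587050682) (nat_lit 0) (p (nat_lit 0x8506848402) (nat_lit 0) (p (nat_lit 0x160014) (nat_lit 0) (p (nat_lit 0x160004) (nat_lit 0) (p (nat_lit 0x50612) (nat_lit 0) (p (nat_lit 0x40592) (nat_lit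 0) (p (nat_lit 0x40492) (nat_lit 0) (p (nat_lit 0x30412) (nat_lit 0) (p (nat_lit 0x30212) (nat_lit 0) (p (nat_lit 0x20192) (nat_lit 0) (p (nat_lit 0x20092) (nat_lit 0) (p (nat_lit 0x10012) (nat_lit 0) pn)))))))))))))))))))) :=
  Cl.node (nat_lit 0xc1) (nat_lit 2) (by decide +kernel) (ClAll.succ (ClAll.succ ClAll.zero n149) n150)

def n168 : Cl (O (nat_lit 2)) (R (nat_lit 104465))
    (p (nat_lit 0x109) (nat_lit 0) (p (nat_lit 0xc9) (nat_lit 1) (p (nat_lit 0x89) (nat_lit 1) (p (nat_lit 0x41) (nat_lit 0) (p (nat_lit 0x88078907089a) (nat_lit 0) (p (nat_lit 0x87870886861a) (nat_lit 0) (p (nat_lit 0x80000000070806078a) (nat_lit 0) (p (nat_lit 0x80000000068785850a) (nat_lit 0) (p (nat_lit 0x8587050682) (nat_lit 0) (p (nat_lit 0x8506848402) (nat_lit 0) (p (nat_lit 0x160014) (nat_lit 0) (p (nat_lit 0x160004) (nat_lit 0) (p (nat_lit 0x50612) (nat_lit 0) (p (nat_lit 0x40592) (nat_lit 0) (p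 (nat_lit 0x40492) (nat_lit 0) (p (nat_lit 0x30412) (nat_lit 0) (p (nat_lit 0x30212) (nat_lit 0) (p (nat_lit 0x20192) (nat_lit 0) (p (nat_lit 0x20092) (nat_lit 0) (p (nat_lit 0x10012) (nat_lit 0) pn)))))))))))))))))))) :=
  Cl.node (nat_lit 0x101) (nat_lit 2) (by decide +kernel) (ClAll.succ (ClAll.succ ClAll.zero n151) s102)

def n169 : Cl (O (nat_lit 2)) (R (nat_lit 104465))
    (p (nat_lit 0x119) (nat_lit 0) (p (nat_lit 0xd1) (nat_lit 0) (p (nat_lit 0x81) (nat_lit 0) (p (nat_lit 0x41) (nat_lit 1) (p (nat_lit 0x88078907089a) (nat_lit 0) (p (nat_lit 0x87870886861a) (nat_lit 0) (p (nat_lit 0x80000000070806078a) (nat_lit 0) (p (nat_lit 0x80000000068785850a) (nat_lit 0) (p (nat_lit 0x8587050682) (nat_lit 0) (p (nat_lit 0x8506848402) (nat_lit 0) (p (nat_lit 0x160014) (nat_lit 0) (p (nat_lit 0x160004) (nat_lit 0) (p (nat_lit 0x50612) (nat_lit 0) (p (nat_lit 0x40592) (nat_lit 0) (p (nat_lit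 0x40492) (nat_lit 0) (p (nat_lit 0x30412) (nat_lit 0) (p (nat_lit 0x30212) (nat_lit 0) (p (nat_lit 0x20192) (nat_lit 0) (p (nat_lit 0x20092) (nat_lit 0) (p (nat_lit 0x10012) (nat_lit 0) pn)))))))))))))))))))) :=
  Cl.node (nat_lit 0x101) (nat_lit 2) (by decide +kernel) (ClAll.succ (ClAll.succ ClAll.zero n152) n153)

def n170 : Cl (O (nat_lit 2)) (R (nat_lit 104465))
    (p (nat_lit 0x119) (nat_lit 1) (p (nat_lit 0xd1) (nat_lit 0) (p (nat_lit 0x81) (nat_lit 0) (p (nat_lit 0x41) (nat_lit 1) (p (nat_lit 0x88078907089a) (nat_lit 0) (p (nat_lit 0x87870886861a) (nat_lit 0) (p (nat_lit 0x80000000070806078a) (nat_lit 0) (p (nat_lit 0x80000000068785850a) (nat_lit 0) (p (nat_lit 0x8587050682) (nat_lit 0) (p (nat_lit 0x8506848402) (nat_lit 0) (p (nat_lit 0x160014) (nat_lit 0) (p (nat_lit 0x160004) (nat_lit 0) (p (nat_lit 0x50612) (nat_lit 0) (p (nat_lit 0x40592) (nat_lit 0) (p (nat_lit 0x40492)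 (nat_lit 0) (p (nat_lit 0x30412) (nat_lit 0) (p (nat_lit 0x30212) (nat_lit 0) (p (nat_lit 0x20192) (nat_lit 0) (p (nat_lit 0x20092) (nat_lit 0) (p (nat_lit 0x10012) (nat_lit 0) pn)))))))))))))))))))) :=
  Cl.node (nat_lit 0xc1) (nat_lit 2) (by decide +kernel) (ClAll.succ (ClAll.succ ClAll.zero n154) n155)

def n171 : Cl (O (nat_lit 2)) (R (nat_lit 104465))
    (p (nat_lit 0x111) (nat_lit 0) (p (nat_lit 0xd1) (nat_lit 1) (p (nat_lit 0x81) (nat_lit 0) (p (nat_lit 0x41) (nat_lit 1) (p (nat_lit 0x88078907089a) (nat_lit 0) (p (nat_lit 0x87870886861a) (nat_lit 0) (p (nat_lit 0x80000000070806078a) (nat_lit 0) (p (nat_lit 0x80000000068785850a) (nat_lit 0) (p (nat_lit 0x8587050682) (nat_lit 0) (p (nat_lit 0x8506848402) (nat_lit 0) (p (nat_lit 0x160014) (nat_lit 0) (p (nat_lit 0x160004) (nat_lit 0) (p (nat_lit 0x50612) (nat_lit 0) (p (nat_lit 0x40592) (nat_lit 0) (p (nat_lit 0x40492) (nat_lit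 0) (p (nat_lit 0x30412) (nat_lit 0) (p (nat_lit 0x30212) (nat_lit 0) (p (nat_lit 0x20192) (nat_lit 0) (p (nat_lit 0x20092) (nat_lit 0) (p (nat_lit 0x10012) (nat_lit 0) pn)))))))))))))))))))) :=
  Cl.node (nat_lit 0x101) (nat_lit 2) (by decide +kernel) (ClAll.succ (ClAll.succ ClAll.zero n156) n157)

def n172 : Cl (O (nat_lit 2)) (R (nat_lit 104465))
    (p (nat_lit 0x111) (nat_lit 1) (p (nat_lit 0xd1) (nat_lit 1) (p (nat_lit 0x81) (nat_lit 0) (p (nat_lit 0x41) (nat_lit 1) (p (nat_lit 0x88078907089a) (nat_lit 0) (p (nat_lit 0x87870886861a) (nat_lit 0) (p (nat_lit 0x80000000070806078a) (nat_lit 0) (p (nat_lit 0x80000000068785850a) (nat_lit 0) (p (nat_lit 0x8587050682) (nat_lit 0) (p (nat_lit 0x8506848402) (nat_lit 0) (p (nat_lit 0x160014) (nat_lit 0) (p (nat_lit 0x160004) (nat_lit 0) (p (nat_lit 0x50612) (nat_lit 0) (p (nat_lit 0x40592) (nat_lit 0) (p (nat_lit 0x40492) (nat_lit 0) (p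 (nat_lit 0x30412) (nat_lit 0) (p (nat_lit 0x30212) (nat_lit 0) (p (nat_lit 0x20192) (nat_lit 0) (p (nat_lit 0x20092) (nat_lit 0) (p (nat_lit 0x10012) (nat_lit 0) pn)))))))))))))))))))) :=
  Cl.node (nat_lit 0x89) (nat_lit 2) (by decide +kernel) (ClAll.succ (ClAll.succ ClAll.zero s150) n158)

def n173 : Cl (O (nat_lit 2)) (R (nat_lit 104465))
    (p (nat_lit 0x119) (nat_lit 0) (p (nat_lit 0xc1) (nat_lit 0) (p (nat_lit 0x81) (nat_lit 1) (p (nat_lit 0x41) (nat_lit 1) (p (nat_lit 0x88078907089a) (nat_lit 0) (p (nat_lit 0x87870886861a) (nat_lit 0) (p (nat_lit 0x80000000070806078a) (nat_lit 0) (p (nat_lit 0x80000000068785850a) (nat_lit 0) (p (nat_lit 0x8587050682) (nat_lit 0) (p (nat_lit 0x8506848402) (nat_lit 0) (p (nat_lit 0x160014) (nat_lit 0) (p (nat_lit 0x160004) (nat_lit 0) (p (nat_lit 0x50612) (nat_lit 0) (p (nat_lit 0x40592) (nat_lit 0) (p (nat_lit 0x40492) (nat_lit 0) (p (nat_lit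 0x30412) (nat_lit 0) (p (nat_lit 0x30212) (nat_lit 0) (p (nat_lit 0x20192) (nat_lit 0) (p (nat_lit 0x20092) (nat_lit 0) (p (nat_lit 0x10012) (nat_lit 0) pn)))))))))))))))))))) :=
  Cl.node (nat_lit 0x101) (nat_lit 2) (by decide +kernel) (ClAll.succ (ClAll.succ ClAll.zero n159) n160)

def n174 : Cl (O (nat_lit 2)) (R (nat_lit 104465))
    (p (nat_lit 0x119) (nat_lit 1) (p (nat_lit 0xc1) (nat_lit 0) (p (nat_lit 0x81) (nat_lit 1) (p (nat_lit 0x41) (nat_lit 1) (p (nat_lit 0x88078907089a) (nat_lit 0) (p (nat_lit 0x87870886861a) (nat_lit 0) (p (nat_lit 0x80000000070806078a) (nat_lit 0) (p (nat_lit 0x80000000068785850a) (nat_lit 0) (p (nat_lit 0x8587050682) (nat_lit 0) (p (nat_lit 0x8506848402) (nat_lit 0) (p (nat_lit 0x160014) (nat_lit 0) (p (nat_lit 0x160004) (nat_lit 0) (p (nat_lit 0x50612) (nat_lit 0) (p (nat_lit 0x40592) (nat_lit 0) (p (nat_lit 0x40492) (nat_lit 0) (p (nat_lit 0x30412)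 (nat_lit 0) (p (nat_lit 0x30212) (nat_lit 0) (p (nat_lit 0x20192) (nat_lit 0) (p (nat_lit 0x20092) (nat_lit 0) (p (nat_lit 0x10012) (nat_lit 0) pn)))))))))))))))))))) :=
  Cl.node (nat_lit 0xc9) (nat_lit 2) (by decide +kernel) (ClAll.succ (ClAll.succ ClAll.zero s167) n161)

def n175 : Cl (O (nat_lit 2)) (R (nat_lit 104465))
    (p (nat_lit 0xd1) (nat_lit 0) (p (nat_lit 0x89) (nat_lit 0) (p (nat_lit 0x41) (nat_lit 0) (p (nat_lit 0x88078907089a) (nat_lit 0) (p (nat_lit 0x87870886861a) (nat_lit 0) (p (nat_lit 0x80000000070806078a) (nat_lit 0) (p (nat_lit 0x80000000068785850a) (nat_lit 0) (p (nat_lit 0x8587050682) (nat_lit 0) (p (nat_lit 0x8506848402) (nat_lit 0) (p (nat_lit 0x160014) (nat_lit 0) (p (nat_lit 0x160004) (nat_lit 0) (p (nat_lit 0x50612) (nat_lit 0) (p (nat_lit 0x40592) (nat_lit 0) (p (nat_lit 0x40492) (nat_lit 0) (p (nat_lit 0x30412) (nat_lit 0) (p (nat_lit 0x30212) (nat_lit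 0) (p (nat_lit 0x20192) (nat_lit 0) (p (nat_lit 0x20092) (nat_lit 0) (p (nat_lit 0x10012) (nat_lit 0) pn))))))))))))))))))) :=
  Cl.node (nat_lit 0x119) (nat_lit 2) (by decide +kernel) (ClAll.succ (ClAll.succ ClAll.zero n162) n163)

def n176 : Cl (O (nat_lit 2)) (R (nat_lit 104465))
    (p (nat_lit 0xd1) (nat_lit 1) (p (nat_lit 0x89) (nat_lit 0) (p (nat_lit 0x41) (nat_lit 0) (p (nat_lit 0x88078907089a) (nat_lit 0) (p (nat_lit 0x87870886861a) (nat_lit 0) (p (nat_lit 0x80000000070806078a) (nat_lit 0) (p (nat_lit 0x80000000068785850a) (nat_lit 0) (p (nat_lit 0x8587050682) (nat_lit 0) (p (nat_lit 0x8506848402) (nat_lit 0) (p (nat_lit 0x160014) (nat_lit 0) (p (nat_lit 0x160004) (nat_lit 0) (p (nat_lit 0x50612) (nat_lit 0) (p (nat_lit 0x40592) (nat_lit 0) (p (nat_lit 0x40492) (nat_lit 0) (p (nat_lit 0x30412) (nat_lit 0) (p (nat_lit 0x30212) (nat_lit 0) (p (nat_lit 0x20192) (nat_lit 0)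 (p (nat_lit 0x20092) (nat_lit 0) (p (nat_lit 0x10012) (nat_lit 0) pn))))))))))))))))))) :=
  Cl.node (nat_lit 0x111) (nat_lit 2) (by decide +kernel) (ClAll.succ (ClAll.succ ClAll.zero n164) n165)

def n177 : Cl (O (nat_lit 2)) (R (nat_lit 104465))
    (p (nat_lit 0xc9) (nat_lit 0) (p (nat_lit 0x89) (nat_lit 1) (p (nat_lit 0x41) (nat_lit 0) (p (nat_lit 0x88078907089a) (nat_lit 0) (p (nat_lit 0x87870886861a) (nat_lit 0) (p (nat_lit 0x80000000070806078a) (nat_lit 0) (p (nat_lit 0x80000000068785850a) (nat_lit 0) (p (nat_lit 0x8587050682) (nat_lit 0) (p (nat_lit 0x8506848402) (nat_lit 0) (p (nat_lit 0x160014) (nat_lit 0) (p (nat_lit 0x160004) (nat_lit 0) (p (nat_lit 0x50612) (nat_lit 0) (p (nat_lit 0x40592) (nat_lit 0) (p (nat_lit 0x40492) (nat_lit 0) (p (nat_lit 0x30412) (nat_lit 0) (p (nat_lit 0x30212) (nat_lit 0) (p (nat_lit 0x20192) (nat_lit 0) (p (nat_lit 0x20092) (nat_lit 0) (p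 (nat_lit 0x10012) (nat_lit 0) pn))))))))))))))))))) :=
  Cl.node (nat_lit 0x119) (nat_lit 2) (by decide +kernel) (ClAll.succ (ClAll.succ ClAll.zero n166) n167)

def n178 : Cl (O (nat_lit 2)) (R (nat_lit 104465))
    (p (nat_lit 0xc9) (nat_lit 1) (p (nat_lit 0x89) (nat_lit 1) (p (nat_lit 0x41) (nat_lit 0) (p (nat_lit 0x88078907089a) (nat_lit 0) (p (nat_lit 0x87870886861a) (nat_lit 0) (p (nat_lit 0x80000000070806078a) (nat_lit 0) (p (nat_lit 0x80000000068785850a) (nat_lit 0) (p (nat_lit 0x8587050682) (nat_lit 0) (p (nat_lit 0x8506848402) (nat_lit 0) (p (nat_lit 0x160014) (nat_lit 0) (p (nat_lit 0x160004) (nat_lit 0) (p (nat_lit 0x50612) (nat_lit 0) (p (nat_lit 0x40592) (nat_lit 0) (p (nat_lit 0x40492) (nat_lit 0) (p (nat_lit 0x30412) (nat_lit 0) (p (nat_lit 0x30212) (nat_lit 0) (p (nat_lit 0x20192) (nat_lit 0) (p (nat_lit 0x20092) (nat_lit 0) (p (nat_lit 0x10012) (nat_lit 0) pn)))))))))))))))))))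 :=
  Cl.node (nat_lit 0x109) (nat_lit 2) (by decide +kernel) (ClAll.succ (ClAll.succ ClAll.zero n168) s103)

def n179 : Cl (O (nat_lit 2)) (R (nat_lit 104465))
    (p (nat_lit 0xd1) (nat_lit 0) (p (nat_lit 0x81) (nat_lit 0) (p (nat_lit 0x41) (nat_lit 1) (p (nat_lit 0x88078907089a) (nat_lit 0) (p (nat_lit 0x87870886861a) (nat_lit 0) (p (nat_lit 0x80000000070806078a) (nat_lit 0) (p (nat_lit 0x80000000068785850a) (nat_lit 0) (p (nat_lit 0x8587050682) (nat_lit 0) (p (nat_lit 0x8506848402) (nat_lit 0) (p (nat_lit 0x160014) (nat_lit 0) (p (nat_lit 0x160004) (nat_lit 0) (p (nat_lit 0x50612) (nat_lit 0) (p (nat_lit 0x40592) (nat_lit 0) (p (nat_lit 0x40492) (nat_lit 0) (p (nat_lit 0x30412) (nat_lit 0) (p (nat_lit 0x30212) (nat_lit 0) (p (nat_lit 0x20192) (nat_lit 0) (p (nat_lit 0x20092) (nat_lit 0) (p (nat_lit 0x10012) (nat_lit 0) pn))))))))))))))))))) :=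
  Cl.node (nat_lit 0x119) (nat_lit 2) (by decide +kernel) (ClAll.succ (ClAll.succ ClAll.zero n169) n170)

def n180 : Cl (O (nat_lit 2)) (R (nat_lit 104465))
    (p (nat_lit 0xd1) (nat_lit 1) (p (nat_lit 0x81) (nat_lit 0) (p (nat_lit 0x41) (nat_lit 1) (p (nat_lit 0x88078907089a) (nat_lit 0) (p (nat_lit 0x87870886861a) (nat_lit 0) (p (nat_lit 0x80000000070806078a) (nat_lit 0) (p (nat_lit 0x80000000068785850a) (nat_lit 0) (p (nat_lit 0x8587050682) (nat_lit 0) (p (nat_lit 0x8506848402) (nat_lit 0) (p (nat_lit 0x160014) (nat_lit 0) (p (nat_lit 0x160004) (nat_lit 0) (p (nat_lit 0x50612) (nat_lit 0) (p (nat_lit 0x40592) (nat_lit 0) (p (nat_lit 0x40492) (nat_lit 0) (p (nat_lit 0x30412) (nat_lit 0) (p (nat_lit 0x30212) (nat_lit 0) (p (nat_lit 0x20192) (nat_lit 0) (p (nat_lit 0x20092) (nat_lit 0) (p (nat_lit 0x10012) (nat_lit 0) pn))))))))))))))))))) :=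
  Cl.node (nat_lit 0x111) (nat_lit 2) (by decide +kernel) (ClAll.succ (ClAll.succ ClAll.zero n171) n172)

def n181 : Cl (O (nat_lit 2)) (R (nat_lit 104465))
    (p (nat_lit 0xc1) (nat_lit 0) (p (nat_lit 0x81) (nat_lit 1) (p (nat_lit 0x41) (nat_lit 1) (p (nat_lit 0x88078907089a) (nat_lit 0) (p (nat_lit 0x87870886861a) (nat_lit 0) (p (nat_lit 0x80000000070806078a) (nat_lit 0) (p (nat_lit 0x80000000068785850a) (nat_lit 0) (p (nat_lit 0x8587050682) (nat_lit 0) (p (nat_lit 0x8506848402) (nat_lit 0) (p (nat_lit 0x160014) (nat_lit 0) (p (nat_lit 0x160004) (nat_lit 0) (p (nat_lit 0x50612) (nat_lit 0) (p (nat_lit 0x40592) (nat_lit 0) (p (nat_lit 0x40492) (nat_lit 0) (p (nat_lit 0x30412) (nat_lit 0) (p (nat_lit 0x30212) (nat_lit 0) (p (nat_lit 0x20192) (nat_lit 0) (p (nat_lit 0x20092) (nat_lit 0) (p (nat_lit 0x10012) (nat_lit 0) pn))))))))))))))))))) :=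
  Cl.node (nat_lit 0x119) (nat_lit 2) (by decide +kernel) (ClAll.succ (ClAll.succ ClAll.zero n173) n174)

def n182 : Cl (O (nat_lit 2)) (R (nat_lit 104465))
    (p (nat_lit 0x89) (nat_lit 0) (p (nat_lit 0x41) (nat_lit 0) (p (nat_lit 0x88078907089a) (nat_lit 0) (p (nat_lit 0x87870886861a) (nat_lit 0) (p (nat_lit 0x80000000070806078a) (nat_lit 0) (p (nat_lit 0x80000000068785850a) (nat_lit 0) (p (nat_lit 0x8587050682) (nat_lit 0) (p (nat_lit 0x8506848402) (nat_lit 0) (p (nat_lit 0x160014) (nat_lit 0) (p (nat_lit 0x160004) (nat_lit 0) (p (nat_lit 0x50612) (nat_lit 0) (p (nat_lit 0x40592) (nat_lit 0) (p (nat_lit 0x40492) (nat_lit 0) (p (nat_lit 0x30412) (nat_lit 0) (p (nat_lit 0x30212) (nat_lit 0) (p (nat_lit 0x20192) (nat_lit 0) (p (nat_lit 0x20092) (nat_lit 0) (p (nat_lit 0x10012) (nat_lit 0) pn)))))))))))))))))) :=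
  Cl.node (nat_lit 0xd1) (nat_lit 2) (by decide +kernel) (ClAll.succ (ClAll.succ ClAll.zero n175) n176)

def n183 : Cl (O (nat_lit 2)) (R (nat_lit 104465))
    (p (nat_lit 0x89) (nat_lit 1) (p (nat_lit 0x41) (nat_lit 0) (p (nat_lit 0x88078907089a) (nat_lit 0) (p (nat_lit 0x87870886861a) (nat_lit 0) (p (nat_lit 0x80000000070806078a) (nat_lit 0) (p (nat_lit 0x80000000068785850a) (nat_lit 0) (p (nat_lit 0x8587050682) (nat_lit 0) (p (nat_lit 0x8506848402) (nat_lit 0) (p (nat_lit 0x160014) (nat_lit 0) (p (nat_lit 0x160004) (nat_lit 0) (p (nat_lit 0x50612) (nat_lit 0) (p (nat_lit 0x40592) (nat_lit 0) (p (nat_lit 0x40492) (nat_lit 0) (p (nat_lit 0x30412) (nat_lit 0) (p (nat_lit 0x30212) (nat_lit 0) (p (nat_lit 0x20192) (nat_lit 0) (p (nat_lit 0x20092) (nat_lit 0) (p (nat_lit 0x10012) (nat_lit 0) pn)))))))))))))))))) :=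
  Cl.node (nat_lit 0xc9) (nat_lit 2) (by decide +kernel) (ClAll.succ (ClAll.succ ClAll.zero n177) n178)

def n184 : Cl (O (nat_lit 2)) (R (nat_lit 104465))
    (p (nat_lit 0x81) (nat_lit 0) (p (nat_lit 0x41) (nat_lit 1) (p (nat_lit 0x88078907089a) (nat_lit 0) (p (nat_lit 0x87870886861a) (nat_lit 0) (p (nat_lit 0x80000000070806078a) (nat_lit 0) (p (nat_lit 0x80000000068785850a) (nat_lit 0) (p (nat_lit 0x8587050682) (nat_lit 0) (p (nat_lit 0x8506848402) (nat_lit 0) (p (nat_lit 0x160014) (nat_lit 0) (p (nat_lit 0x160004) (nat_lit 0) (p (nat_lit 0x50612) (nat_lit 0) (p (nat_lit 0x40592) (nat_lit 0) (p (nat_lit 0x40492) (nat_lit 0) (p (nat_lit 0x30412) (nat_lit 0) (p (nat_lit 0x30212) (nat_lit 0) (p (nat_lit 0x20192) (nat_lit 0) (p (nat_lit 0x20092) (nat_lit 0) (p (nat_lit 0x10012) (nat_lit 0) pn)))))))))))))))))) :=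
  Cl.node (nat_lit 0xd1) (nat_lit 2) (by decide +kernel) (ClAll.succ (ClAll.succ ClAll.zero n179) n180)

def n185 : Cl (O (nat_lit 2)) (R (nat_lit 104465))
    (p (nat_lit 0x81) (nat_lit 1) (p (nat_lit 0x41) (nat_lit 1) (p (nat_lit 0x88078907089a) (nat_lit 0) (p (nat_lit 0x87870886861a) (nat_lit 0) (p (nat_lit 0x80000000070806078a) (nat_lit 0) (p (nat_lit 0x80000000068785850a) (nat_lit 0) (p (nat_lit 0x8587050682) (nat_lit 0) (p (nat_lit 0x8506848402) (nat_lit 0) (p (nat_lit 0x160014) (nat_lit 0) (p (nat_lit 0x160004) (nat_lit 0) (p (nat_lit 0x50612) (nat_lit 0) (p (nat_lit 0x40592) (nat_lit 0) (p (nat_lit 0x40492) (nat_lit 0) (p (nat_lit 0x30412) (nat_lit 0) (p (nat_lit 0x30212) (nat_lit 0) (p (nat_lit 0x20192) (nat_lit 0) (p (nat_lit 0x20092) (nat_lit 0) (p (nat_lit 0x10012) (nat_lit 0) pn)))))))))))))))))) :=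
  Cl.node (nat_lit 0xc1) (nat_lit 2) (by decide +kernel) (ClAll.succ (ClAll.succ ClAll.zero n181) s173)

def n186 : Cl (O (nat_lit 2)) (R (nat_lit 104465))
    (p (nat_lit 0x41) (nat_lit 0) (p (nat_lit 0x88078907089a) (nat_lit 0) (p (nat_lit 0x87870886861a) (nat_lit 0) (p (nat_lit 0x80000000070806078a) (nat_lit 0) (p (nat_lit 0x80000000068785850a) (nat_lit 0) (p (nat_lit 0x8587050682) (nat_lit 0) (p (nat_lit 0x8506848402) (nat_lit 0) (p (nat_lit 0x160014) (nat_lit 0) (p (nat_lit 0x160004) (nat_lit 0) (p (nat_lit 0x50612) (nat_lit 0) (p (nat_lit 0x40592) (nat_lit 0) (p (nat_lit 0x40492) (nat_lit 0) (p (nat_lit 0x30412) (nat_lit 0) (p (nat_lit 0x30212) (nat_lit 0) (p (nat_lit 0x20192) (nat_lit 0) (p (nat_lit 0x20092) (nat_lit 0) (p (nat_lit 0x10012) (nat_lit 0) pn))))))))))))))))) :=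
  Cl.node (nat_lit 0x89) (nat_lit 2) (by decide +kernel) (ClAll.succ (ClAll.succ ClAll.zero n182) n183)

def n187 : Cl (O (nat_lit 2)) (R (nat_lit 104465))
    (p (nat_lit 0x41) (nat_lit 1) (p (nat_lit 0x88078907089a) (nat_lit 0) (p (nat_lit 0x87870886861a) (nat_lit 0) (p (nat_lit 0x80000000070806078a) (nat_lit 0) (p (nat_lit 0x80000000068785850a) (nat_lit 0) (p (nat_lit 0x8587050682) (nat_lit 0) (p (nat_lit 0x8506848402) (nat_lit 0) (p (nat_lit 0x160014) (nat_lit 0) (p (nat_lit 0x160004) (nat_lit 0) (p (nat_lit 0x50612) (nat_lit 0) (p (nat_lit 0x40592) (nat_lit 0) (p (nat_lit 0x40492) (nat_lit 0) (p (nat_lit 0x30412) (nat_lit 0) (p (nat_lit 0x30212) (nat_lit 0) (p (nat_lit 0x20192) (nat_lit 0) (p (nat_lit 0x20092) (nat_lit 0) (p (nat_lit 0x10012) (nat_lit 0) pn))))))))))))))))) :=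
  Cl.node (nat_lit 0x81) (nat_lit 2) (by decide +kernel) (ClAll.succ (ClAll.succ ClAll.zero n184) n185)

def n188 : Cl (O (nat_lit 2)) (R (nat_lit 104465))
    (p (nat_lit 0x88078907089a) (nat_lit 0) (p (nat_lit 0x87870886861a) (nat_lit 0) (p (nat_lit 0x80000000070806078a) (nat_lit 0) (p (nat_lit 0x80000000068785850a) (nat_lit 0) (p (nat_lit 0x8587050682) (nat_lit 0) (p (nat_lit 0x8506848402) (nat_lit 0) (p (nat_lit 0x160014) (nat_lit 0) (p (nat_lit 0x160004) (nat_lit 0) (p (nat_lit 0x50612) (nat_lit 0) (p (nat_lit 0x40592) (nat_lit 0) (p (nat_lit 0x40492) (nat_lit 0) (p (nat_lit 0x30412) (nat_lit 0) (p (nat_lit 0x30212) (nat_lit 0) (p (nat_lit 0x20192) (nat_lit 0) (p (nat_lit 0x20092) (nat_lit 0) (p (nat_lit 0x10012) (nat_lit 0) pn)))))))))))))))) :=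
  Cl.node (nat_lit 0x41) (nat_lit 2) (by decide +kernel) (ClAll.succ (ClAll.succ ClAll.zero n186) n187)

def n189 : Cl (O (nat_lit 2)) (R (nat_lit 104465))
    (p (nat_lit 0x87870886861a) (nat_lit 0) (p (nat_lit 0x80000000070806078a) (nat_lit 0) (p (nat_lit 0x80000000068785850a) (nat_lit 0) (p (nat_lit 0x8587050682) (nat_lit 0) (p (nat_lit 0x8506848402) (nat_lit 0) (p (nat_lit 0x160014) (nat_lit 0) (p (nat_lit 0x160004) (nat_lit 0) (p (nat_lit 0x50612) (nat_lit 0) (p (nat_lit 0x40592) (nat_lit 0) (p (nat_lit 0x40492) (nat_lit 0) (p (nat_lit 0x30412) (nat_lit 0) (p (nat_lit 0x30212) (nat_lit 0) (p (nat_lit 0x20192) (nat_lit 0) (p (nat_lit 0x20092) (nat_lit 0) (p (nat_lit 0x10012) (nat_lit 0) pn))))))))))))))) :=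
  Cl.node (nat_lit 0x88078907089a) (nat_lit 1) (by decide +kernel) (ClAll.succ ClAll.zero n188)

def n190 : Cl (O (nat_lit 2)) (R (nat_lit 104465))
    (p (nat_lit 0x80000000070806078a) (nat_lit 0) (p (nat_lit 0x80000000068785850a) (nat_lit 0) (p (nat_lit 0x8587050682) (nat_lit 0) (p (nat_lit 0x8506848402) (nat_lit 0) (p (nat_lit 0x160014) (nat_lit 0) (p (nat_lit 0x160004) (nat_lit 0) (p (nat_lit 0x50612) (nat_lit 0) (p (nat_lit 0x40592) (nat_lit 0) (p (nat_lit 0x40492) (nat_lit 0) (p (nat_lit 0x30412) (nat_lit 0) (p (nat_lit 0x30212) (nat_lit 0) (p (nat_lit 0x20192) (nat_lit 0) (p (nat_lit 0x20092) (nat_lit 0) (p (nat_lit 0x10012) (nat_lit 0) pn)))))))))))))) :=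
  Cl.node (nat_lit 0x87870886861a) (nat_lit 1) (by decide +kernel) (ClAll.succ ClAll.zero n189)

def n191 : Cl (O (nat_lit 2)) (R (nat_lit 104465))
    (p (nat_lit 0x80000000068785850a) (nat_lit 0) (p (nat_lit 0x8587050682) (nat_lit 0) (p (nat_lit 0x8506848402) (nat_lit 0) (p (nat_lit 0x160014) (nat_lit 0) (p (nat_lit 0x160004) (nat_lit 0) (p (nat_lit 0x50612) (nat_lit 0) (p (nat_lit 0x40592) (nat_lit 0) (p (nat_lit 0x40492) (nat_lit 0) (p (nat_lit 0x30412) (nat_lit 0) (p (nat_lit 0x30212) (nat_lit 0) (p (nat_lit 0x20192) (nat_lit 0) (p (nat_lit 0x20092) (nat_lit 0) (p (nat_lit 0x10012) (nat_lit 0) pn))))))))))))) :=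
  Cl.node (nat_lit 0x80000000070806078a) (nat_lit 1) (by decide +kernel) (ClAll.succ ClAll.zero n190)

def n192 : Cl (O (nat_lit 2)) (R (nat_lit 104465))
    (p (nat_lit 0x8587050682) (nat_lit 0) (p (nat_lit 0x8506848402) (nat_lit 0) (p (nat_lit 0x160014) (nat_lit 0) (p (nat_lit 0x160004) (nat_lit 0) (p (nat_lit 0x50612) (nat_lit 0) (p (nat_lit 0x40592) (nat_lit 0) (p (nat_lit 0x40492) (nat_lit 0) (p (nat_lit 0x30412) (nat_lit 0) (p (nat_lit 0x30212) (nat_lit 0) (p (nat_lit 0x20192) (nat_lit 0) (p (nat_lit 0x20092) (nat_lit 0) (p (nat_lit 0x10012) (nat_lit 0) pn)))))))))))) :=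
  Cl.node (nat_lit 0x80000000068785850a) (nat_lit 1) (by decide +kernel) (ClAll.succ ClAll.zero n191)

def n193 : Cl (O (nat_lit 2)) (R (nat_lit 104465))
    (p (nat_lit 0x8506848402) (nat_lit 0) (p (nat_lit 0x160014) (nat_lit 0) (p (nat_lit 0x160004) (nat_lit 0) (p (nat_lit 0x50612) (nat_lit 0) (p (nat_lit 0x40592) (nat_lit 0) (p (nat_lit 0x40492) (nat_lit 0) (p (nat_lit 0x30412) (nat_lit 0) (p (nat_lit 0x30212) (nat_lit 0) (p (nat_lit 0x20192) (nat_lit 0) (p (nat_lit 0x20092) (nat_lit 0) (p (nat_lit 0x10012) (nat_lit 0) pn))))))))))) :=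
  Cl.node (nat_lit 0x8587050682) (nat_lit 1) (by decide +kernel) (ClAll.succ ClAll.zero n192)

def n194 : Cl (O (nat_lit 2)) (R (nat_lit 104465))
    (p (nat_lit 0x160014) (nat_lit 0) (p (nat_lit 0x160004) (nat_lit 0) (p (nat_lit 0x50612) (nat_lit 0) (p (nat_lit 0x40592) (nat_lit 0) (p (nat_lit 0x40492) (nat_lit 0) (p (nat_lit 0x30412) (nat_lit 0) (p (nat_lit 0x30212) (nat_lit 0) (p (nat_lit 0x20192) (nat_lit 0) (p (nat_lit 0x20092) (nat_lit 0) (p (nat_lit 0x10012) (nat_lit 0) pn)))))))))) :=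
  Cl.node (nat_lit 0x8506848402) (nat_lit 1) (by decide +kernel) (ClAll.succ ClAll.zero n193)

def n195 : Cl (O (nat_lit 2)) (R (nat_lit 104465))
    (p (nat_lit 0x160004) (nat_lit 0) (p (nat_lit 0x50612) (nat_lit 0) (p (nat_lit 0x40592) (nat_lit 0) (p (nat_lit 0x40492) (nat_lit 0) (p (nat_lit 0x30412) (nat_lit 0) (p (nat_lit 0x30212) (nat_lit 0) (p (nat_lit 0x20192) (nat_lit 0) (p (nat_lit 0x20092) (nat_lit 0) (p (nat_lit 0x10012) (nat_lit 0) pn))))))))) :=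
  Cl.node (nat_lit 0x160014) (nat_lit 2) (by decide +kernel) (ClAll.succ (ClAll.succ ClAll.zero n194) s174)

def n196 : Cl (O (nat_lit 2)) (R (nat_lit 104465))
    (p (nat_lit 0x50612) (nat_lit 0) (p (nat_lit 0x40592) (nat_lit 0) (p (nat_lit 0x40492) (nat_lit 0) (p (nat_lit 0x30412) (nat_lit 0) (p (nat_lit 0x30212) (nat_lit 0) (p (nat_lit 0x20192) (nat_lit 0) (p (nat_lit 0x20092) (nat_lit 0) (p (nat_lit 0x10012) (nat_lit 0) pn)))))))) :=
  Cl.node (nat_lit 0x160004) (nat_lit 2) (by decide +kernel) (ClAll.succ (ClAll.succ ClAll.zero n195) s175)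

def n197 : Cl (O (nat_lit 2)) (R (nat_lit 104465))
    (p (nat_lit 0x40592) (nat_lit 0) (p (nat_lit 0x40492) (nat_lit 0) (p (nat_lit 0x30412) (nat_lit 0) (p (nat_lit 0x30212) (nat_lit 0) (p (nat_lit 0x20192) (nat_lit 0) (p (nat_lit 0x20092) (nat_lit 0) (p (nat_lit 0x10012) (nat_lit 0) pn))))))) :=
  Cl.node (nat_lit 0x50612) (nat_lit 1) (by decide +kernel) (ClAll.succ ClAll.zero n196)

def n198 : Cl (O (nat_lit 2)) (R (nat_lit 104465))
    (p (nat_lit 0x40492) (nat_lit 0) (p (nat_lit 0x30412) (nat_lit 0) (p (nat_lit 0x30212) (nat_lit 0) (p (nat_lit 0x20192) (nat_lit 0) (p (nat_lit 0x20092) (nat_lit 0) (p (nat_lit 0x10012) (nat_lit 0) pn)))))) :=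
  Cl.node (nat_lit 0x40592) (nat_lit 1) (by decide +kernel) (ClAll.succ ClAll.zero n197)

def n199 : Cl (O (nat_lit 2)) (R (nat_lit 104465))
    (p (nat_lit 0x30412) (nat_lit 0) (p (nat_lit 0x30212) (nat_lit 0) (p (nat_lit 0x20192) (nat_lit 0) (p (nat_lit 0x20092) (nat_lit 0) (p (nat_lit 0x10012) (nat_lit 0) pn))))) :=
  Cl.node (nat_lit 0x40492) (nat_lit 1) (by decide +kernel) (ClAll.succ ClAll.zero n198)

def n200 : Cl (O (nat_lit 2)) (R (nat_lit 104465))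
    (p (nat_lit 0x30212) (nat_lit 0) (p (nat_lit 0x20192) (nat_lit 0) (p (nat_lit 0x20092) (nat_lit 0) (p (nat_lit 0x10012) (nat_lit 0) pn)))) :=
  Cl.node (nat_lit 0x30412) (nat_lit 1) (by decide +kernel) (ClAll.succ ClAll.zero n199)

def n201 : Cl (O (nat_lit 2)) (R (nat_lit 104465))
    (p (nat_lit 0x20192) (nat_lit 0) (p (nat_lit 0x20092) (nat_lit 0) (p (nat_lit 0x10012) (nat_lit 0) pn))) :=
  Cl.node (nat_lit 0x30212) (nat_lit 1) (by decide +kernel) (ClAll.succ ClAll.zero n200)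

def n202 : Cl (O (nat_lit 2)) (R (nat_lit 104465))
    (p (nat_lit 0x20092) (nat_lit 0) (p (nat_lit 0x10012) (nat_lit 0) pn)) :=
  Cl.node (nat_lit 0x20192) (nat_lit 1) (by decide +kernel) (ClAll.succ ClAll.zero n201)

def n203 : Cl (O (nat_lit 2)) (R (nat_lit 104465))
    (p (nat_lit 0x10012) (nat_lit 0) pn) :=
  Cl.node (nat_lit 0x20092) (nat_lit 1) (by decide +kernel) (ClAll.succ ClAll.zero n202)

def n204 : Cl (O (nat_lit 2)) (R (nat_lit 104465))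
    pn :=
  Cl.node (nat_lit 0x10012) (nat_lit 1) (by decide +kernel) (ClAll.succ ClAll.zero n203)

theorem top : Cl (O (nat_lit 2)) (R (nat_lit 104465)) pn := n204

end Pool.Agent.Gen.F5.X12CD13m2
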